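import Pool.Agent.Q231.RS.Vdc2
import Pool.Agent.W22.EH.EX
import Pool.Agent.W903.EH.BK

/-!
# The bound `ζ(1/2 + it) = O(t^(1/6) log t)`
-/

set_option autoImplicit false

namespace Pool.Agent.Q231.RS

open Finset Complex
open Pool.Agent.Helper153.Vdc (ee dd Cond)
open Pool.Agent.W186.EH (VB PS)
open Pool.Agent.W903.EH (sum_rev cond_log block VB_scale)
open Pool.Agent.W22.EH (VB_exp exists_x rp tail_le)

/-- a dyadic block of the zeta sum on the critical line, from a derivative test without logarithms -/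
theorem block0 {k : ℕ} (hk : 2 ≤ k) {C : ℝ} (hC : 0 < C)
    (h : ∀ (N M : ℕ) (g : ℕ → ℝ) (lam : ℝ), 1 ≤ N → M ≤ N → 0 < lam → Cond k g M lam (3 ^ k) →
      ‖∑ n ∈ range M, ee (g n)‖ ≤ C * VB k N lam) :
    ∃ C' : ℝ, 0 < C' ∧ ∀ (t : ℝ) (J : ℕ), 2 ≤ t → 1 ≤ J →
      ‖PS (((1 / 2 : ℝ) : ℂ) + t * I) (J + J) - PS (((1 / 2 : ℝ) : ℂ) + t * I) J‖ ≤
        C' * ((J : ℝ) ^ (-(1 / 2) : ℝ) * VB k J (t / (J : ℝ) ^ k)) := by
  set c : ℝ := (k - 1).factorial / (2 * Real.pi * 3 ^ k) with hc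
  have hc0 : 0 < c := by
    have := Real.pi_pos
    rw [hc]
    positivity
  set D : ℝ := c ^ (1 / ((2 : ℝ) ^ k - 2)) + c ^ (-(1 / ((2 : ℝ) ^ k - 2))) with hD
  have hD0 : 0 < D := by rw [hD]; positivity
  refine ⟨C * D, by positivity, ?_⟩
  intro t J ht hJ
  have ht0 : 0 < t := by linarith
  have hpi := Real.pi_pos
  have hJ' : (1 : ℝ) ≤ J := by exact_mod_cast hJ
  have hJ0 : (0 : ℝ) < J := by linarith
  set Z : ℝ := t / (2 * Real.pi) with hZ
  have hZ0 : 0 < Z := by rw [hZ]; positivity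
  have hlam : Z * ((k - 1).factorial / (3 * (J : ℝ)) ^ k) = c * (t / (J : ℝ) ^ k) := by
    rw [hZ, hc, mul_pow]
    field_simp
  have hx0 : 0 < t / (J : ℝ) ^ k := by positivity
  have hpart : ∀ m ≤ J, ‖∑ n ∈ range m, ee (-(t / (2 * Real.pi)) *
      Real.log ((J : ℝ) + 1 + n))‖ ≤ C * (D * VB k J (t / (J : ℝ) ^ k)) := by
    intro m hm
    rw [← hZ, sum_rev Z J m]
    have h1 := h J m (fun n : ℕ => -Z * Real.log ((J : ℝ) + m - n))
      (Z * ((k - 1).factorial / (3 * (J : ℝ)) ^ k)) hJ hm (by positivity)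
      (cond_log (by omega) hZ0 hJ hm)
    refine h1.trans ?_
    rw [hlam]
    exact mul_le_mul_of_nonneg_left (VB_scale (k := k) (N := (J : ℝ)) hc0 hJ0 hx0) hC.le
  refine (block (by norm_num) ht0 hJ hpart).trans (le_of_eq ?_)
  ring

/-- **Weyl's bound with one logarithm** -/
theorem weyl_log : ∃ C : ℝ, 0 < C ∧ ∀ t : ℝ, 2 ≤ t →
    ‖riemannZeta (1 / 2 + t * I)‖ ≤ C * (t ^ (1 / 6 : ℝ) * Real.log t) := by
  obtain ⟨A3, hA3, H3⟩ := block0 (k := 3) (by norm_num) (C := 480 * 3 ^ 3) (by norm_num)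
    (fun N M g lam hN hM hl hc => vdc_three (3 ^ 3) (by norm_num) N M g lam hN hM hl hc)
  obtain ⟨A2, hA2, H2⟩ := block0 (k := 2) le_rfl (C := 20 * 3 ^ 2) (by norm_num)
    (fun N M g lam hN hM hl hc => vdc_two (3 ^ 2) (by norm_num) N M g lam hN hM hl hc)
  obtain ⟨A1, hA1, H1⟩ := Pool.Agent.W903.EH.b1 (1 / 2) (by norm_num) (by norm_num)
  set C0 : ℝ := 2 * A3 + 2 * A2 + A1 with hC0
  have hC00 : 0 < C0 := by positivity
  have hb : ∀ (t : ℝ) (J : ℕ), 2 ≤ t → 1 ≤ J → (J : ℝ) ≤ t ^ 2 →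
      ‖PS (((1 / 2 : ℝ) : ℂ) + t * I) (J + J) - PS (((1 / 2 : ℝ) : ℂ) + t * I) J‖ ≤ C0 * t ^ (1 / 6 : ℝ) := by
    intro t J ht hJ hJt
    have ht0 : 0 < t := by linarith
    have htp : 0 < t ^ ((1 : ℝ) / 6) := Real.rpow_pos_of_pos ht0 _
    obtain ⟨x, hx0, hx2, hJx⟩ := exists_x ht hJ hJt
    rcases le_total x (2 / 3) with hx | hx
    · refine (H3 t J ht hJ).trans ?_
      have h1 : (J : ℝ) ^ (-(1 / 2) : ℝ) * VB 3 J (t / (J : ℝ) ^ 3) ≤ 2 * t ^ ((1 : ℝ) / 6) := by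
        rw [VB_exp ht0 hJx, two_mul]
        refine add_le_add (rp ht ?_) (rp ht ?_)
        · push_cast; norm_num; linarith
        · push_cast; norm_num; linarith
      calc A3 * ((J : ℝ) ^ (-(1 / 2) : ℝ) * VB 3 J (t / (J : ℝ) ^ 3)) ≤ A3 * (2 * t ^ ((1 : ℝ) / 6)) := by gcongr
        _ ≤ C0 * t ^ ((1 : ℝ) / 6) := by
            rw [hC0]
            nlinarith [mul_pos hA2 htp, mul_pos hA1 htp]
    rcases le_total x 1 with hx1 | hx1
    · refine (H2 t J ht hJ).trans ?_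
      have h1 : (J : ℝ) ^ (-(1 / 2) : ℝ) * VB 2 J (t / (J : ℝ) ^ 2) ≤ 2 * t ^ ((1 : ℝ) / 6) := by
        rw [VB_exp ht0 hJx, two_mul]
        refine add_le_add (rp ht ?_) (rp ht ?_)
        · push_cast; norm_num; linarith
        · push_cast; norm_num; linarith
      calc A2 * ((J : ℝ) ^ (-(1 / 2) : ℝ) * VB 2 J (t / (J : ℝ) ^ 2)) ≤ A2 * (2 * t ^ ((1 : ℝ) / 6)) := by gcongr
        _ ≤ C0 * t ^ ((1 : ℝ) / 6) := by
            rw [hC0]
            nlinarith [mul_pos hA3 htp, mul_pos hA1 htp]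
    · refine (H1 t J ht hJ ?_).trans ?_
      · rw [hJx]
        calc t = t ^ (1 : ℝ) := (Real.rpow_one t).symm
          _ ≤ t ^ x := rp ht hx1
      · have e1 : (J : ℝ) ^ ((1 : ℝ) - 1 / 2) / t ≤ t ^ ((1 : ℝ) / 6) := by
          rw [hJx, ← Real.rpow_mul ht0.le, div_le_iff₀ ht0]
          calc t ^ (x * (1 - 1 / 2)) ≤ t ^ ((1 : ℝ) / 6 + 1) := rp ht (by linarith)
            _ = _ := by rw [Real.rpow_add ht0, Real.rpow_one]
        calc A1 * ((J : ℝ) ^ ((1 : ℝ) - 1 / 2) / t) ≤ A1 * t ^ ((1 : ℝ) / 6) := by gcongr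
          _ ≤ C0 * t ^ ((1 : ℝ) / 6) := by
              rw [hC0]
              nlinarith [mul_pos hA3 htp, mul_pos hA2 htp]
  refine ⟨36 + 4 * C0, by positivity, fun t ht2 => ?_⟩
  have ht0 : 0 < t := by linarith
  have ht1 : 1 ≤ t := by linarith
  have hx : 1 ≤ t ^ 2 / 2 := by nlinarith
  obtain ⟨K, hK1, hK2⟩ := exists_nat_pow_near hx (show (1 : ℝ) < 2 by norm_num)
  set s : ℂ := ((1 / 2 : ℝ) : ℂ) + t * I with hs
  have hKt : (2 : ℝ) ^ K ≤ t ^ 2 := by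
    have : 0 < t ^ 2 := by positivity
    linarith
  have hKt' : t ^ 2 / 4 ≤ (2 : ℝ) ^ K := by
    have h4 : (2 : ℝ) ^ (K + 1) = 2 ^ K * 2 := pow_succ _ _
    linarith
  have htail : ‖riemannZeta s - PS s (2 ^ K)‖ ≤ 17 := by
    apply tail_le le_rfl (by norm_num) ht2
    · push_cast
      exact hKt'
    · push_cast
      exact hKt
  have htel : PS s (2 ^ K) - PS s 1 = ∑ i ∈ Finset.range K, (PS s (2 ^ (i + 1)) - PS s (2 ^ i)) := by
    rw [Finset.sum_range_sub (fun i => PS s (2 ^ i))]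
    simp
  have hsum : ‖PS s (2 ^ K) - PS s 1‖ ≤ K * (C0 * t ^ (1 / 6 : ℝ)) := by
    rw [htel]
    refine (norm_sum_le _ _).trans ?_
    calc _ ≤ ∑ i ∈ Finset.range K, C0 * t ^ (1 / 6 : ℝ) := by
          refine Finset.sum_le_sum fun i hi => ?_
          rw [Finset.mem_range] at hi
          have e1 : 2 ^ (i + 1) = 2 ^ i + 2 ^ i := by rw [pow_succ]; ring
          rw [e1]
          refine hb t (2 ^ i) ht2 Nat.one_le_two_pow ?_
          push_cast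
          refine le_trans ?_ hKt
          exact pow_le_pow_right₀ (by norm_num) hi.le
      _ = _ := by rw [Finset.sum_const, Finset.card_range, nsmul_eq_mul]
  have hP1 : ‖PS s 1‖ = 1 := by
    unfold PS
    simp
  have hlog : (K : ℝ) ≤ 4 * Real.log t := by
    have h1 := Real.log_le_log (by positivity) hKt
    rw [Real.log_pow, Real.log_pow] at h1
    have h2 : (1 : ℝ) / 2 < Real.log 2 := by
      have := Real.log_two_gt_d9
      linarith
    have h3 : 0 ≤ (K : ℝ) := Nat.cast_nonneg K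
    push_cast at h1
    nlinarith
  have hlog2 : 1 / 2 ≤ Real.log t := by
    have h1 := Real.log_le_log (by norm_num) ht2
    have := Real.log_two_gt_d9
    linarith
  have ht6 : 1 ≤ t ^ (1 / 6 : ℝ) := Real.one_le_rpow ht1 (by norm_num)
  have hz : ‖riemannZeta s‖ ≤ 18 + K * (C0 * t ^ (1 / 6 : ℝ)) := by
    have e1 : riemannZeta s = (riemannZeta s - PS s (2 ^ K)) + (PS s (2 ^ K) - PS s 1) + PS s 1 := by
      ring
    rw [e1]
    refine (norm_add₃_le).trans ?_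
    linarith
  have e2 : (1 / 2 + t * I : ℂ) = s := by rw [hs]; push_cast; ring
  rw [e2]
  refine hz.trans ?_
  have h18 : (18 : ℝ) ≤ 36 * (t ^ (1 / 6 : ℝ) * Real.log t) := by nlinarith
  have h4 : (K : ℝ) * (C0 * t ^ (1 / 6 : ℝ)) ≤ 4 * C0 * (t ^ (1 / 6 : ℝ) * Real.log t) := by
    calc (K : ℝ) * (C0 * t ^ (1 / 6 : ℝ)) ≤ (4 * Real.log t) * (C0 * t ^ (1 / 6 : ℝ)) := by gcongr
      _ = _ := by ring
  linarith

end Pool.Agent.Q231.RS
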