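import Pool.Agent.Q231.RS.LLZ
import Pool.Agent.Q231.RS.Weyl
import Pool.Agent.W188.Mom.B4
import Pool.Agent.W409.GP.Low

/-!
# The law of large numbers for `|ζ(1/2 + it)|^β`, `β ≤ 6`, without hypotheses
-/

set_option autoImplicit false

open MeasureTheory ProbabilityTheory Filter Topology Set

namespace Pool.Agent.Q231.RS

open Pool.Agent.W188.Mom

variable {Ω : Type*} [MeasurableSpace Ω] {P : Measure Ω} {X : ℕ → Ω → ℝ}

/-- linear lower bound for the moments of all orders `β ≥ 1` -/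
lemma low_lin {β : ℝ} (hβ : 1 ≤ β) : ∀ᶠ N : ℕ in atTop, 1 * (N : ℝ) ≤ MI (fun t => Z t ^ β) N := by
  have h := Pool.Agent.W409.GP.gp_low β hβ 8
  have h1 : Tendsto (fun N : ℕ => (N : ℝ) / 8) atTop atTop :=
    tendsto_natCast_atTop_atTop.atTop_div_const (by norm_num)
  filter_upwards [h1.eventually h] with N hN
  have e1 : 8 * ((N : ℝ) / 8) = N := by ring
  rw [e1] at hN
  have hβ0 : 0 < β := by linarith
  have e2 : ∫ t in ((N : ℝ) / 8)..(N : ℝ), Pool.Agent.W188.GP.ZZ t ^ β = ∫ t in ((N : ℝ) / 8)..(N : ℝ), Z t ^ β := by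
    rfl
  rw [e2] at hN
  have hN0 : (0 : ℝ) ≤ N := Nat.cast_nonneg N
  have h2 := mono_int hβ0 (a := (N : ℝ) / 8) (b := N) (c := 0) (d := N) (by positivity) (by linarith) le_rfl
  rw [one_mul]
  exact hN.trans h2

/-- Weyl's bound in the form used here -/
lemma weyl_exp (ε : ℝ) (hε : 0 < ε) : ∃ C : ℝ, ∀ t : ℝ, 0 ≤ t → Z t ≤ C * (1 + t) ^ (1 / 6 + ε) := by
  obtain ⟨C, hC, h⟩ := weyl_log
  obtain ⟨E, hE⟩ := (isCompact_Icc (a := (0 : ℝ)) (b := 2)).exists_bound_of_continuousOn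
    Z_cont.continuousOn
  refine ⟨|E| + C / ε, fun t ht => ?_⟩
  have hp : 1 ≤ (1 + t) ^ (1 / 6 + ε) := Real.one_le_rpow (by linarith) (by positivity)
  rcases le_or_gt t 2 with h2 | h2
  · have h3 := (le_abs_self _).trans (hE t ⟨ht, h2⟩)
    calc Z t ≤ |E| * 1 := by rw [mul_one]; exact h3.trans (le_abs_self E)
      _ ≤ (|E| + C / ε) * (1 + t) ^ (1 / 6 + ε) := by
          have : 0 ≤ C / ε := by positivity
          exact mul_le_mul (by linarith) hp (by norm_num) (by positivity)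
  · have ht0 : 0 < t := by linarith
    have h3 : Real.log t ≤ t ^ ε / ε := Real.log_le_rpow_div ht0.le hε
    calc Z t ≤ C * (t ^ (1 / 6 : ℝ) * Real.log t) := h t h2.le
      _ ≤ C * (t ^ (1 / 6 : ℝ) * (t ^ ε / ε)) := by gcongr
      _ = C / ε * t ^ (1 / 6 + ε) := by rw [Real.rpow_add ht0]; ring
      _ ≤ C / ε * (1 + t) ^ (1 / 6 + ε) := by
          have : t ^ (1 / 6 + ε) ≤ (1 + t) ^ (1 / 6 + ε) := Real.rpow_le_rpow ht0.le (by linarith) (by positivity)
          exact mul_le_mul_of_nonneg_left this (by positivity)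
      _ ≤ _ := mul_le_mul_of_nonneg_right (by linarith [abs_nonneg E]) (by positivity)

/-- the law of large numbers for `1 ≤ β < 6` -/
theorem lln_lt_six [IsProbabilityMeasure P] (h : UPts P X) {β : ℝ} (hβ : 1 ≤ β) (hβ6 : β < 6) :
    ∀ᵐ ω ∂P, Tendsto (fun N : ℕ => (∑ n ∈ Finset.range N, Z (X n ω) ^ β) / MI (fun t => Z t ^ β) N) atTop
      (𝓝 1) :=
  lln_exp h (by linarith) (by norm_num : (0 : ℝ) ≤ 1 / 6) (by linarith) weyl_exp one_pos (low_lin hβ)

/-- the lower bound for the sixth moment -/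
lemma low_six : ∃ c : ℝ, 0 < c ∧ ∀ᶠ N : ℕ in atTop, c * (N * Real.log N ^ 9) ≤ MI (fun t => Z t ^ (6 : ℝ)) N := by
  obtain ⟨c, hc, h⟩ := lower (p := 6) (by norm_num)
  refine ⟨c / 1024, by positivity, ?_⟩
  have h1 : Tendsto (fun N : ℕ => (N : ℝ) / 2) atTop atTop :=
    tendsto_natCast_atTop_atTop.atTop_div_const (by norm_num)
  filter_upwards [h1.eventually h, eventually_ge_atTop 4] with N hN hN4
  have hNR : (4 : ℝ) ≤ N := by exact_mod_cast hN4
  have e1 : (N : ℝ) / 2 + N / 2 = N := by ring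
  have e2 : (6 : ℝ) ^ 2 / 4 = ((9 : ℕ) : ℝ) := by norm_num
  rw [e1, e2, Real.rpow_natCast] at hN
  have h2 := mono_int (p := 6) (by norm_num) (a := (N : ℝ) / 2) (b := N) (c := 0) (d := N) (by positivity)
    (by linarith) le_rfl
  refine le_trans ?_ (hN.trans h2)
  have h3 : Real.log N / 2 ≤ Real.log ((N : ℝ) / 2) := by
    rw [Real.log_div (by positivity) (by norm_num)]
    have h4 : 2 * Real.log 2 ≤ Real.log N := by
      have := Real.log_le_log (by norm_num) hNR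
      rwa [show (4 : ℝ) = 2 ^ 2 by norm_num, Real.log_pow] at this
    linarith
  have hl : 0 ≤ Real.log N := Real.log_nonneg (by linarith)
  have h4 : (Real.log N / 2) ^ 9 ≤ Real.log ((N : ℝ) / 2) ^ 9 := pow_le_pow_left₀ (by positivity) h3 9
  calc c / 1024 * (N * Real.log N ^ 9) = c * ((N : ℝ) / 2 * (Real.log N / 2) ^ 9) := by ring
    _ ≤ c * ((N : ℝ) / 2 * Real.log ((N : ℝ) / 2) ^ 9) := by gcongr

/-- **the law of large numbers for the sixth moment** -/
theorem lln_six [IsProbabilityMeasure P] (h : UPts P X) :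
    ∀ᵐ ω ∂P, Tendsto (fun N : ℕ => (∑ n ∈ Finset.range N, Z (X n ω) ^ (6 : ℝ)) / MI (fun t => Z t ^ (6 : ℝ)) N)
      atTop (𝓝 1) := by
  obtain ⟨C, hC, hW⟩ := weyl_log
  obtain ⟨E, hE⟩ := (isCompact_Icc (a := (0 : ℝ)) (b := 2)).exists_bound_of_continuousOn
    Z_cont.continuousOn
  obtain ⟨c, hc, hlow⟩ := low_six
  set D : ℝ := C ^ 6 + |E| ^ 6 + 1 with hD
  have hD1 : 1 ≤ D := by
    have : 0 ≤ |E| ^ 6 := by positivity
    have : 0 ≤ C ^ 6 := by positivity
    linarith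
  have hlog3 : 1 ≤ Real.log 3 := by
    rw [Real.le_log_iff_exp_le (by norm_num)]
    have := Real.exp_one_lt_d9
    linarith
  have hs : ∀ N : ℕ, ∀ t ∈ Icc (0 : ℝ) N, Z t ^ (6 : ℝ) ≤ D * (((N : ℝ) + 3) * Real.log ((N : ℝ) + 3) ^ 6) := by
    intro N t ht
    have hN0 : (0 : ℝ) ≤ N := Nat.cast_nonneg N
    have hl1 : 1 ≤ Real.log ((N : ℝ) + 3) := hlog3.trans (Real.log_le_log (by norm_num) (by linarith))
    have hl6 : 1 ≤ Real.log ((N : ℝ) + 3) ^ 6 := one_le_pow₀ hl1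
    have e6 : Z t ^ (6 : ℝ) = Z t ^ 6 := by
      rw [← Real.rpow_natCast]; norm_num
    rw [e6]
    rcases le_or_gt t 2 with h2 | h2
    · have h3 : Z t ≤ |E| := ((le_abs_self _).trans (hE t ⟨ht.1, h2⟩)).trans (le_abs_self E)
      have h4 : Z t ^ 6 ≤ |E| ^ 6 := pow_le_pow_left₀ (Z_nonneg t) h3 6
      have h5 : (1 : ℝ) ≤ ((N : ℝ) + 3) * Real.log ((N : ℝ) + 3) ^ 6 := by nlinarith
      calc Z t ^ 6 ≤ |E| ^ 6 * 1 := by rw [mul_one]; exact h4
        _ ≤ D * (((N : ℝ) + 3) * Real.log ((N : ℝ) + 3) ^ 6) := by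
            have : 0 ≤ C ^ 6 := by positivity
            exact mul_le_mul (by rw [hD]; linarith) h5 (by norm_num) (by linarith)
    · have ht0 : 0 < t := by linarith
      have hlt : 0 ≤ Real.log t := Real.log_nonneg (by linarith)
      have h3 : Z t ^ 6 ≤ (C * (t ^ (1 / 6 : ℝ) * Real.log t)) ^ 6 := pow_le_pow_left₀ (Z_nonneg t) (hW t h2.le) 6
      have h4 : (C * (t ^ (1 / 6 : ℝ) * Real.log t)) ^ 6 = C ^ 6 * (t * Real.log t ^ 6) := by
        rw [mul_pow, mul_pow, ← Real.rpow_natCast (t ^ (1 / 6 : ℝ)) 6, ← Real.rpow_mul ht0.le]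
        norm_num
      rw [h4] at h3
      refine h3.trans ?_
      have h5 : t ≤ (N : ℝ) + 3 := by linarith [ht.2]
      have h6 : Real.log t ≤ Real.log ((N : ℝ) + 3) := Real.log_le_log ht0 h5
      have h7 : C ^ 6 ≤ D := by
        have : 0 ≤ |E| ^ 6 := by positivity
        rw [hD]; linarith
      have h8 : t * Real.log t ^ 6 ≤ ((N : ℝ) + 3) * Real.log ((N : ℝ) + 3) ^ 6 := by gcongr
      exact mul_le_mul h7 h8 (by positivity) (by linarith)
  have hM : Tendsto (MI fun t => Z t ^ (6 : ℝ)) atTop atTop := by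
    refine tendsto_atTop_mono' atTop (low_lin (β := 6) (by norm_num)) ?_
    exact tendsto_natCast_atTop_atTop.const_mul_atTop one_pos
  refine lln (f := fun t => Z t ^ (6 : ℝ)) h (Zp_cont (by norm_num)) (fun t => Real.rpow_nonneg (Z_nonneg t) _) hs
    (C := 128 * 81 * D / c) ?_ hM
  filter_upwards [hlow, eventually_ge_atTop 3, hM.eventually_ge_atTop 1,
    tendsto_natCast_atTop_atTop.eventually_ge_atTop (128 * D)] with N hN hN3 hM1 hND
  have hNR : (3 : ℝ) ≤ N := by exact_mod_cast hN3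
  have hNp : (0 : ℝ) < N := by linarith
  set L : ℝ := Real.log N with hL
  have hL1 : 1 ≤ L := hlog3.trans (Real.log_le_log (by norm_num) hNR)
  have h1 : Real.log ((N : ℝ) + 3) ≤ 2 * L := by
    have h2 : (N : ℝ) + 3 ≤ (N : ℝ) ^ 2 := by nlinarith
    have h3 := Real.log_le_log (by linarith) h2
    rw [Real.log_pow] at h3
    push_cast at h3
    exact h3
  have hl0 : 0 ≤ Real.log ((N : ℝ) + 3) := Real.log_nonneg (by linarith)
  have hsN : D * (((N : ℝ) + 3) * Real.log ((N : ℝ) + 3) ^ 6) ≤ 128 * D * (N * L ^ 6) := by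
    have h2 : Real.log ((N : ℝ) + 3) ^ 6 ≤ (2 * L) ^ 6 := pow_le_pow_left₀ hl0 h1 6
    calc D * (((N : ℝ) + 3) * Real.log ((N : ℝ) + 3) ^ 6) ≤ D * ((2 * N) * (2 * L) ^ 6) := by
          gcongr
          linarith
      _ = 128 * D * (N * L ^ 6) := by ring
  have hMup : MI (fun t => Z t ^ (6 : ℝ)) N ≤ (128 * D) * (N : ℝ) ^ 8 := by
    have h1 := intervalIntegral.integral_mono_on (μ := volume) (a := 0) (b := (N : ℝ)) (f := fun t => Z t ^ (6 : ℝ))
      (g := fun _ => 128 * D * (N * L ^ 6)) hNp.le (Zp_int (by norm_num) _ _) intervalIntegrable_const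
      (fun t ht => (hs N t ht).trans hsN)
    rw [intervalIntegral.integral_const, smul_eq_mul, sub_zero] at h1
    refine h1.trans ?_
    have h2 : L ≤ N := by
      have := Real.log_le_sub_one_of_pos hNp
      linarith
    calc (N : ℝ) * (128 * D * (N * L ^ 6)) ≤ (N : ℝ) * (128 * D * (N * (N : ℝ) ^ 6)) := by gcongr
      _ = _ := by ring
  have hlogM : Real.log (MI (fun t => Z t ^ (6 : ℝ)) N) ≤ 9 * L := by
    have h1 := Real.log_le_log (by linarith) hMup
    rw [Real.log_mul (by positivity) (by positivity), Real.log_pow] at h1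
    have h2 : Real.log (128 * D) ≤ L := Real.log_le_log (by positivity) hND
    push_cast at h1
    linarith
  have hlogM0 : 0 ≤ Real.log (MI (fun t => Z t ^ (6 : ℝ)) N) := Real.log_nonneg hM1
  have h2 : Real.log (MI (fun t => Z t ^ (6 : ℝ)) N) ^ 2 ≤ (9 * L) ^ 2 := pow_le_pow_left₀ hlogM0 hlogM 2
  calc D * (((N : ℝ) + 3) * Real.log ((N : ℝ) + 3) ^ 6) * Real.log (MI (fun t => Z t ^ (6 : ℝ)) N) ^ 2
      ≤ (128 * D * (N * L ^ 6)) * (9 * L) ^ 2 := mul_le_mul hsN h2 (by positivity) (by positivity)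
    _ = 128 * 81 * D * (N * (L ^ 8 * 1)) := by ring
    _ ≤ 128 * 81 * D * (N * (L ^ 8 * L)) := by gcongr
    _ = 128 * 81 * D / c * (c * (N * L ^ 9)) := by field_simp
    _ ≤ 128 * 81 * D / c * MI (fun t => Z t ^ (6 : ℝ)) N := by gcongr

end Pool.Agent.Q231.RS
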