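import Pool.Agent.Q231.RS.LLstr
import Pool.Agent.Q231.RS.LL6
import Pool.Agent.TH158.FM.Main

/-!
# Polynomially sparse stratified random points and zeta
-/

set_option autoImplicit false

open MeasureTheory ProbabilityTheory Filter Topology Set

namespace Pool.Agent.Q231.RS

open Pool.Agent.W188.Mom

/-- the end points of the strata -/
noncomputable def pw (γ : ℝ) (n : ℕ) : ℝ := (n : ℝ) ^ γ

lemma pw_mono {γ : ℝ} (hγ : 0 < γ) : StrictMono (pw γ) := fun m n h =>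
  Real.rpow_lt_rpow (Nat.cast_nonneg m) (by exact_mod_cast h) hγ

lemma pw_zero {γ : ℝ} (hγ : 0 < γ) : pw γ 0 = 0 := by
  unfold pw
  rw [Nat.cast_zero, Real.zero_rpow hγ.ne']

lemma pw_tendsto {γ : ℝ} (hγ : 0 < γ) : Tendsto (pw γ) atTop atTop :=
  (tendsto_rpow_atTop hγ).comp tendsto_natCast_atTop_atTop

/-- the lengths of the strata -/
lemma pw_gap {γ : ℝ} (hγ : 0 < γ) (n : ℕ) : pw γ (n + 1) - pw γ n ≤ max 1 γ * ((n : ℝ) + 1) ^ (γ - 1) := by
  unfold pw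
  push_cast
  have hn : (0 : ℝ) < (n : ℝ) + 1 := by positivity
  have hn0 : (0 : ℝ) ≤ n := Nat.cast_nonneg n
  have e1 : (n : ℝ) ^ γ = ((n : ℝ) + 1) ^ γ * (1 + -(1 / ((n : ℝ) + 1))) ^ γ := by
    rw [← Real.mul_rpow hn.le]
    · congr 1
      field_simp
      ring
    · have : 1 / ((n : ℝ) + 1) ≤ 1 := by
        rw [div_le_one hn]
        linarith
      linarith
  have hx1 : 1 / ((n : ℝ) + 1) ≤ 1 := by
    rw [div_le_one hn]
    linarith
  have hx0 : 0 < 1 / ((n : ℝ) + 1) := by positivity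
  have key : 1 - max 1 γ * (1 / ((n : ℝ) + 1)) ≤ (1 + -(1 / ((n : ℝ) + 1))) ^ γ := by
    rcases le_total 1 γ with h | h
    · rw [max_eq_right h]
      have := one_add_mul_self_le_rpow_one_add (s := -(1 / ((n : ℝ) + 1))) (by linarith) h
      linarith
    · rw [max_eq_left h]
      have h0 : (0 : ℝ) ≤ 1 + -(1 / ((n : ℝ) + 1)) := by linarith
      have := Real.rpow_le_rpow_of_exponent_ge' h0 (by linarith : 1 + -(1 / ((n : ℝ) + 1)) ≤ 1) hγ.le h
      rw [Real.rpow_one] at this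
      linarith
  have e2 : ((n : ℝ) + 1) ^ (γ - 1) = ((n : ℝ) + 1) ^ γ * (1 / ((n : ℝ) + 1)) := by
    rw [Real.rpow_sub_one hn.ne']
    ring
  rw [e1, e2]
  have hp : (0 : ℝ) < ((n : ℝ) + 1) ^ γ := by positivity
  nlinarith

lemma low_real {β : ℝ} (hβ : 1 ≤ β) : ∀ᶠ T : ℝ in atTop, T ≤ ∫ t in (0 : ℝ)..T, Z t ^ β := by
  have h := Pool.Agent.W409.GP.gp_low β hβ 8
  have h1 : Tendsto (fun T : ℝ => T / 8) atTop atTop := tendsto_id.atTop_div_const (by norm_num)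
  filter_upwards [h1.eventually h, eventually_ge_atTop 0] with T hT hT0
  have e1 : 8 * (T / 8) = T := by ring
  rw [e1] at hT
  have hβ0 : 0 < β := by linarith
  have e2 : ∫ t in (T / 8)..T, Pool.Agent.W188.GP.ZZ t ^ β = ∫ t in (T / 8)..T, Z t ^ β := by
    rfl
  rw [e2] at hT
  have h2 := mono_int hβ0 (a := T / 8) (b := T) (c := 0) (d := T) (by positivity) (by linarith) le_rfl
  exact hT.trans h2

/-- polynomial upper bound -/
lemma up_real {β : ℝ} (hβ : 0 < β) : ∃ D B : ℝ, 1 ≤ D ∧ 0 ≤ B ∧ ∀ T : ℝ, 1 ≤ T → ∫ t in (0 : ℝ)..T, Z t ^ β ≤ D * T ^ B := by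
  obtain ⟨C, hC⟩ := weyl_exp 1 one_pos
  set ρ : ℝ := (1 / 6 + 1) * β with hρ
  have hρ0 : 0 ≤ ρ := by positivity
  refine ⟨|C| ^ β * 2 ^ ρ + 1, 1 + ρ, by
    have : 0 ≤ |C| ^ β * 2 ^ ρ := by positivity
    linarith, by positivity, fun T hT => ?_⟩
  have hT0 : 0 < T := by linarith
  have hb : ∀ t ∈ Icc 0 T, Z t ^ β ≤ |C| ^ β * 2 ^ ρ * T ^ ρ := by
    intro t ht
    have h1 : Z t ≤ |C| * (1 + t) ^ (1 / 6 + 1 : ℝ) := by
      have h0 := ht.1
      exact (hC t ht.1).trans (mul_le_mul_of_nonneg_right (le_abs_self C) (by positivity))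
    have h2 : Z t ^ β ≤ (|C| * (1 + t) ^ (1 / 6 + 1 : ℝ)) ^ β := Real.rpow_le_rpow (Z_nonneg t) h1 hβ.le
    have h0 : 0 ≤ t := ht.1
    rw [Real.mul_rpow (abs_nonneg C) (by positivity), ← Real.rpow_mul (by linarith)] at h2
    refine h2.trans ?_
    have h3 : (1 + t) ^ ((1 / 6 + 1) * β) ≤ (2 * T) ^ ρ := Real.rpow_le_rpow (by linarith) (by linarith [ht.2]) hρ0
    rw [Real.mul_rpow (by norm_num) hT0.le] at h3
    calc |C| ^ β * (1 + t) ^ ((1 / 6 + 1) * β) ≤ |C| ^ β * (2 ^ ρ * T ^ ρ) := mul_le_mul_of_nonneg_left h3 (by positivity)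
      _ = _ := by ring
  have h1 := intervalIntegral.integral_mono_on (μ := volume) (a := 0) (b := T) (f := fun t => Z t ^ β)
    (g := fun _ => |C| ^ β * 2 ^ ρ * T ^ ρ) hT0.le (Zp_int hβ _ _) intervalIntegrable_const hb
  rw [intervalIntegral.integral_const, smul_eq_mul, sub_zero] at h1
  refine h1.trans ?_
  rw [Real.rpow_add hT0, Real.rpow_one]
  have : 0 ≤ T * T ^ ρ := by positivity
  nlinarith

/-- squares of logarithms are small -/
lemma log_sq_le {E : ℕ → ℝ} {D B δ : ℝ} (hD : 1 ≤ D) (hB : 0 ≤ B) (hδ : 0 < δ)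
    (h : ∀ᶠ N : ℕ in atTop, 1 ≤ E N ∧ E N ≤ D * (N : ℝ) ^ B) :
    ∀ᶠ N : ℕ in atTop, Real.log (E N) ^ 2 ≤ (N : ℝ) ^ δ := by
  have h1 : Tendsto (fun x : ℝ => (Real.log D + B * Real.log x) / x ^ (δ / 2)) atTop (𝓝 0) := by
    have e1 : δ / 2 > 0 := by linarith
    have h2 : Tendsto (fun x : ℝ => Real.log D / x ^ (δ / 2)) atTop (𝓝 0) :=
      tendsto_const_nhds.div_atTop (tendsto_rpow_atTop e1)
    have h3 : Tendsto (fun x : ℝ => Real.log x / x ^ (δ / 2)) atTop (𝓝 0) :=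
      (isLittleO_log_rpow_atTop e1).tendsto_div_nhds_zero
    have h4 := h2.add (h3.const_mul B)
    rw [mul_zero, add_zero] at h4
    refine h4.congr fun x => ?_
    ring
  have h2 := (h1.comp tendsto_natCast_atTop_atTop).eventually (gt_mem_nhds (zero_lt_one (α := ℝ)))
  filter_upwards [h, h2, eventually_ge_atTop 1] with N hN hN2 hN1
  have hNR : (1 : ℝ) ≤ N := by exact_mod_cast hN1
  have hNp : (0 : ℝ) < N := by linarith
  have hp : (0 : ℝ) < (N : ℝ) ^ (δ / 2) := by positivity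
  simp only [Function.comp] at hN2
  rw [div_lt_one hp] at hN2
  have hlog : Real.log (E N) ≤ Real.log D + B * Real.log N := by
    have h3 := Real.log_le_log (by linarith [hN.1]) hN.2
    rwa [Real.log_mul (by linarith) (by positivity), Real.log_rpow hNp] at h3
  have hlog0 : 0 ≤ Real.log (E N) := Real.log_nonneg hN.1
  have e1 : (N : ℝ) ^ δ = ((N : ℝ) ^ (δ / 2)) ^ 2 := by
    rw [← Real.rpow_natCast, ← Real.rpow_mul hNp.le]
    congr 1
    push_cast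
    ring
  rw [e1]
  exact pow_le_pow_left₀ hlog0 (hlog.trans hN2.le) 2

variable {Ω : Type*} [MeasurableSpace Ω] {P : Measure Ω} {X : ℕ → Ω → ℝ}

/-- the law of large numbers from a power saving in the variance -/
theorem lln_pow [IsProbabilityMeasure P] {γ β δ D₁ : ℝ} (hγ : 0 < γ) (h : SPts (pw γ) P X) (hβ : 1 ≤ β) (hδ : 0 < δ)
    (hV : ∀ᶠ N : ℕ in atTop, ∑ n ∈ Finset.range N, (pw γ (n + 1) - pw γ n) *
      ∫ t in (pw γ n)..(pw γ (n + 1)), (Z t ^ β) ^ 2 ≤ D₁ * (N : ℝ) ^ (-δ) * (∫ t in (0 : ℝ)..(pw γ N), Z t ^ β) ^ 2) :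
    ∀ᵐ ω ∂P, Tendsto (fun N : ℕ => (∑ n ∈ Finset.range N, (pw γ (n + 1) - pw γ n) * Z (X n ω) ^ β) /
      ∫ t in (0 : ℝ)..(pw γ N), Z t ^ β) atTop (𝓝 1) := by
  have hβ0 : 0 < β := by linarith
  have hlow := (pw_tendsto hγ).eventually (low_real hβ)
  have hM : Tendsto (fun N : ℕ => ∫ t in (0 : ℝ)..(pw γ N), Z t ^ β) atTop atTop :=
    tendsto_atTop_mono' atTop hlow (pw_tendsto hγ)
  obtain ⟨D, B, hD, hB, hup⟩ := up_real hβ0
  have hlog := log_sq_le (E := fun N : ℕ => ∫ t in (0 : ℝ)..(pw γ N), Z t ^ β) (D := D) (B := γ * B) (δ := δ)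
    hD (by positivity) hδ (by
      filter_upwards [hM.eventually_ge_atTop 1, (pw_tendsto hγ).eventually_ge_atTop 1] with N h1 h2
      refine ⟨h1, (hup _ h2).trans (le_of_eq ?_)⟩
      unfold pw
      rw [← Real.rpow_mul (Nat.cast_nonneg N)])
  have key := lln_strata (f := fun t => Z t ^ β) h (pw_mono hγ) (Zp_cont hβ0) (fun t => Real.rpow_nonneg (Z_nonneg t) β)
    (V := fun N => D₁ * (N : ℝ) ^ (-δ) * (∫ t in (0 : ℝ)..(pw γ N), Z t ^ β) ^ 2) hV (C := |D₁|) ?_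
    (by rw [pw_zero hγ]; exact hM)
  · rw [pw_zero hγ] at key
    exact key
  · rw [pw_zero hγ]
    filter_upwards [hlog, eventually_ge_atTop 1] with N h1 hN1
    have hNp : (0 : ℝ) < N := by exact_mod_cast hN1
    set E : ℝ := ∫ t in (0 : ℝ)..(pw γ N), Z t ^ β with hE
    have h2 : (N : ℝ) ^ (-δ) * (N : ℝ) ^ δ = 1 := by
      rw [← Real.rpow_add hNp, neg_add_cancel, Real.rpow_zero]
    have h3 : (N : ℝ) ^ (-δ) * Real.log E ^ 2 ≤ 1 := by
      rw [← h2]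
      exact mul_le_mul_of_nonneg_left h1 (by positivity)
    calc D₁ * (N : ℝ) ^ (-δ) * E ^ 2 * Real.log E ^ 2
        = (D₁ * E ^ 2) * ((N : ℝ) ^ (-δ) * Real.log E ^ 2) := by ring
      _ ≤ (|D₁| * E ^ 2) * ((N : ℝ) ^ (-δ) * Real.log E ^ 2) := by
          apply mul_le_mul_of_nonneg_right _ (by positivity)
          exact mul_le_mul_of_nonneg_right (le_abs_self D₁) (by positivity)
      _ ≤ (|D₁| * E ^ 2) * 1 := mul_le_mul_of_nonneg_left h3 (by positivity)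
      _ = |D₁| * E ^ 2 := mul_one _

/-- the bound with the exponent `θ` -/
def Bd (θ : ℝ) : Prop := ∀ ε : ℝ, 0 < ε → ∃ C : ℝ, ∀ t : ℝ, 0 ≤ t → Z t ≤ C * (1 + t) ^ (θ + ε)

/-- case A: from the pointwise bound -/
theorem lln_A [IsProbabilityMeasure P] {γ β θ : ℝ} (hγ : 0 < γ) (h : SPts (pw γ) P X) (hβ : 1 ≤ β) (hθ : 0 ≤ θ)
    (hZ : Bd θ) (hc : γ * β * θ < 1) :
    ∀ᵐ ω ∂P, Tendsto (fun N : ℕ => (∑ n ∈ Finset.range N, (pw γ (n + 1) - pw γ n) * Z (X n ω) ^ β) /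
      ∫ t in (0 : ℝ)..(pw γ N), Z t ^ β) atTop (𝓝 1) := by
  have hβ0 : 0 < β := by linarith
  set ε : ℝ := (1 - γ * β * θ) / (2 * (γ * β)) with hε
  have hε0 : 0 < ε := by
    have : 0 < 1 - γ * β * θ := by linarith
    positivity
  have hεe : γ * β * ε = (1 - γ * β * θ) / 2 := by
    rw [hε]
    field_simp
  obtain ⟨C, hC⟩ := hZ ε hε0
  set ρ : ℝ := (θ + ε) * β with hρ
  have hρ0 : 0 ≤ ρ := by positivity
  have hγρ : γ * ρ < 1 := by
    have : γ * ρ = γ * β * θ + γ * β * ε := by rw [hρ]; ring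
    rw [this, hεe]
    linarith
  set q : ℝ := max 0 (γ - 1 + γ * ρ) with hq
  have hq0 : 0 ≤ q := le_max_left _ _
  have hqγ : q < γ := max_lt hγ (by linarith)
  set D₁ : ℝ := max 1 γ * |C| ^ β * 2 ^ ρ with hD₁
  have hD₁0 : 0 ≤ D₁ := by positivity
  refine lln_pow hγ h hβ (δ := γ - q) (D₁ := D₁) (by linarith) ?_
  filter_upwards [(pw_tendsto hγ).eventually (low_real hβ), eventually_ge_atTop 1] with N hN hN1
  have hNp : (0 : ℝ) < N := by exact_mod_cast hN1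
  have hs : ∀ n < N, ∀ t ∈ Icc (pw γ n) (pw γ (n + 1)), (pw γ (n + 1) - pw γ n) * Z t ^ β ≤ D₁ * (N : ℝ) ^ q := by
    intro n hn t ht
    have hn1 : (1 : ℝ) ≤ (n : ℝ) + 1 := by linarith [Nat.cast_nonneg (α := ℝ) n]
    have hnp : (0 : ℝ) < (n : ℝ) + 1 := by linarith
    have hnN : (n : ℝ) + 1 ≤ N := by exact_mod_cast hn
    have ht0 : 0 ≤ t := le_trans (Real.rpow_nonneg (Nat.cast_nonneg n) γ) ht.1
    have ht1 : t ≤ ((n : ℝ) + 1) ^ γ := by
      have := ht.2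
      unfold pw at this
      push_cast at this
      exact this
    have h1 : Z t ≤ |C| * (1 + t) ^ (θ + ε) :=
      (hC t ht0).trans (mul_le_mul_of_nonneg_right (le_abs_self C) (by positivity))
    have h2 : Z t ^ β ≤ (|C| * (1 + t) ^ (θ + ε)) ^ β := Real.rpow_le_rpow (Z_nonneg t) h1 hβ0.le
    rw [Real.mul_rpow (abs_nonneg C) (by positivity), ← Real.rpow_mul (by linarith)] at h2
    have h3 : (1 + t) ^ ((θ + ε) * β) ≤ 2 ^ ρ * ((n : ℝ) + 1) ^ (γ * ρ) := by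
      have h4 : (1 : ℝ) ≤ ((n : ℝ) + 1) ^ γ := Real.one_le_rpow hn1 hγ.le
      calc (1 + t) ^ ((θ + ε) * β) ≤ (2 * ((n : ℝ) + 1) ^ γ) ^ ρ :=
            Real.rpow_le_rpow (by linarith) (by linarith) hρ0
        _ = 2 ^ ρ * ((n : ℝ) + 1) ^ (γ * ρ) := by
            rw [Real.mul_rpow (by norm_num) (by positivity), ← Real.rpow_mul hnp.le]
    have h5 : Z t ^ β ≤ |C| ^ β * (2 ^ ρ * ((n : ℝ) + 1) ^ (γ * ρ)) :=
      h2.trans (mul_le_mul_of_nonneg_left h3 (by positivity))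
    have h6 : ((n : ℝ) + 1) ^ (γ - 1 + γ * ρ) ≤ (N : ℝ) ^ q := by
      calc ((n : ℝ) + 1) ^ (γ - 1 + γ * ρ) ≤ ((n : ℝ) + 1) ^ q :=
            Real.rpow_le_rpow_of_exponent_le hn1 (le_max_right _ _)
        _ ≤ (N : ℝ) ^ q := Real.rpow_le_rpow hnp.le hnN hq0
    calc (pw γ (n + 1) - pw γ n) * Z t ^ β
        ≤ (max 1 γ * ((n : ℝ) + 1) ^ (γ - 1)) * (|C| ^ β * (2 ^ ρ * ((n : ℝ) + 1) ^ (γ * ρ))) :=
          mul_le_mul (pw_gap hγ n) h5 (Real.rpow_nonneg (Z_nonneg t) β) (by positivity)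
      _ = D₁ * ((n : ℝ) + 1) ^ (γ - 1 + γ * ρ) := by
          rw [Real.rpow_add hnp, hD₁]
          ring
      _ ≤ D₁ * (N : ℝ) ^ q := mul_le_mul_of_nonneg_left h6 hD₁0
  have h1 := V_A (f := fun t => Z t ^ β) (pw_mono hγ) (Zp_cont hβ0) (fun t => Real.rpow_nonneg (Z_nonneg t) β) hs
  rw [pw_zero hγ] at h1
  refine h1.trans ?_
  set E : ℝ := ∫ t in (0 : ℝ)..(pw γ N), Z t ^ β with hE
  have hpwN : pw γ N = (N : ℝ) ^ γ := rfl
  have hE0 : 0 ≤ E := le_trans (by rw [hpwN]; positivity) hN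
  have e1 : (N : ℝ) ^ q = (N : ℝ) ^ (-(γ - q)) * (N : ℝ) ^ γ := by
    rw [← Real.rpow_add hNp]
    congr 1
    ring
  rw [e1, sq]
  have h2 : (N : ℝ) ^ γ ≤ E := by rw [← hpwN]; exact hN
  calc D₁ * ((N : ℝ) ^ (-(γ - q)) * (N : ℝ) ^ γ) * E = (D₁ * (N : ℝ) ^ (-(γ - q)) * E) * (N : ℝ) ^ γ := by ring
    _ ≤ (D₁ * (N : ℝ) ^ (-(γ - q)) * E) * E := mul_le_mul_of_nonneg_left h2 (by positivity)
    _ = _ := by ring

lemma log4_le (ε : ℝ) (hε : 0 < ε) : ∃ B : ℝ, 0 ≤ B ∧ ∀ T : ℝ, 1 ≤ T → T * Real.log T ^ 4 ≤ B * T ^ (1 + ε) := by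
  refine ⟨(4 / ε) ^ 4, by positivity, fun T hT => ?_⟩
  have hT0 : 0 < T := by linarith
  have h1 : Real.log T ≤ T ^ (ε / 4) / (ε / 4) := Real.log_le_rpow_div (by linarith) (by positivity)
  have h0 : 0 ≤ Real.log T := Real.log_nonneg hT
  calc T * Real.log T ^ 4 ≤ T * (T ^ (ε / 4) / (ε / 4)) ^ 4 := by gcongr
    _ = (4 / ε) ^ 4 * (T * (T ^ (ε / 4)) ^ 4) := by
        field_simp
    _ = (4 / ε) ^ 4 * T ^ (1 + ε) := by
        congr 1
        rw [← Real.rpow_natCast, ← Real.rpow_mul (by linarith), Real.rpow_add hT0, Real.rpow_one]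
        congr 2
        push_cast
        ring

/-- the fourth moment -/
lemma four_eps (ε : ℝ) (hε : 0 < ε) : ∃ C : ℝ, 0 ≤ C ∧ ∀ T : ℝ, 1 ≤ T → ∫ t in (0 : ℝ)..T, Z t ^ (4 : ℝ) ≤ C * T ^ (1 + ε) := by
  have h := Pool.Agent.TH158.FM.fourth_all
  have hcon : ∀ T : ℝ, ∫ t in (0 : ℝ)..T, Z t ^ (4 : ℝ) =
      ∫ t in (0:ℝ)..T, ‖riemannZeta (Pool.Agent.TH158.FM.pt (1 / 2) t)‖ ^ 4 := by
    intro T
    congr 1
    funext t
    unfold Z Pool.Agent.TH158.FM.pt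
    rw [show (4 : ℝ) = ((4 : ℕ) : ℝ) by norm_num, Real.rpow_natCast]
    push_cast
    rfl
  obtain ⟨B, hB, hg⟩ := log4_le ε hε
  set I : ℝ := ∫ t in (0 : ℝ)..1000, Z t ^ (4 : ℝ) with hI
  refine ⟨|I| + B, by positivity, fun T hT => ?_⟩
  have hp1 : 1 ≤ T ^ (1 + ε) := Real.one_le_rpow hT (by linarith)
  rcases le_total T 1000 with h2 | h2
  · have h3 : ∫ t in (0 : ℝ)..T, Z t ^ (4 : ℝ) ≤ I := mono_int (by norm_num) le_rfl (by linarith) h2
    calc ∫ t in (0 : ℝ)..T, Z t ^ (4 : ℝ) ≤ |I| * 1 := by rw [mul_one]; exact h3.trans (le_abs_self I)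
      _ ≤ (|I| + B) * T ^ (1 + ε) := mul_le_mul (by linarith) hp1 (by norm_num) (by positivity)
  · rw [hcon]
    refine (h T h2).trans ?_
    have h3 := hg T hT
    have h4 : 0 ≤ T * Real.log T ^ 4 := mul_nonneg (by linarith) (by positivity)
    have h5 : 0 ≤ |I| * T ^ (1 + ε) := by positivity
    nlinarith

/-- the moment of order `2β` from the fourth moment and a pointwise bound -/
lemma double_mom {β θ : ℝ} (hβ : 0 < β) (hθ : 0 ≤ θ) (hZ : Bd θ) (ε : ℝ) (hε : 0 < ε) : ∃ C : ℝ, 0 ≤ C ∧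
    ∀ T : ℝ, 1 ≤ T → ∫ t in (0 : ℝ)..T, (Z t ^ β) ^ 2 ≤ C * T ^ ((θ + ε) * max (2 * β - 4) 0 + (1 + ε)) := by
  obtain ⟨C, hC⟩ := hZ ε hε
  obtain ⟨F, hF, h4⟩ := four_eps ε hε
  set m : ℝ := max (2 * β - 4) 0 with hm
  have hm0 : 0 ≤ m := le_max_right _ _
  set G : ℝ := |C| * 2 ^ (θ + ε) + 1 with hG
  have hG1 : 1 ≤ G := by
    have : 0 ≤ |C| * 2 ^ (θ + ε) := by positivity
    linarith
  refine ⟨G ^ m * (1 + F), by positivity, fun T hT => ?_⟩
  have hT0 : 0 < T := by linarith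
  have hTe : 1 ≤ T ^ (θ + ε) := Real.one_le_rpow hT (by linarith)
  set B : ℝ := G * T ^ (θ + ε) with hB
  have hB1 : 1 ≤ B := by nlinarith
  have hZB : ∀ t ∈ Icc 0 T, Z t ≤ B := by
    intro t ht
    have h0 : 0 ≤ t := ht.1
    have h1 : Z t ≤ |C| * (1 + t) ^ (θ + ε) :=
      (hC t ht.1).trans (mul_le_mul_of_nonneg_right (le_abs_self C) (by positivity))
    have h2 : (1 + t) ^ (θ + ε) ≤ (2 * T) ^ (θ + ε) := Real.rpow_le_rpow (by linarith) (by linarith [ht.2]) (by linarith)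
    rw [Real.mul_rpow (by norm_num) hT0.le] at h2
    calc Z t ≤ |C| * (1 + t) ^ (θ + ε) := h1
      _ ≤ |C| * (2 ^ (θ + ε) * T ^ (θ + ε)) := mul_le_mul_of_nonneg_left h2 (abs_nonneg C)
      _ = |C| * 2 ^ (θ + ε) * T ^ (θ + ε) := by ring
      _ ≤ B := mul_le_mul_of_nonneg_right (by rw [hG]; linarith) (by positivity)
  have hpt : ∀ t ∈ Icc 0 T, (Z t ^ β) ^ 2 ≤ B ^ m * (1 + Z t ^ (4 : ℝ)) := by
    intro t ht
    have hZ0 := Z_nonneg t
    have e1 : (Z t ^ β) ^ 2 = Z t ^ (2 * β) := by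
      rw [← Real.rpow_natCast, ← Real.rpow_mul hZ0]
      congr 1
      push_cast
      ring
    have hBm : 1 ≤ B ^ m := Real.one_le_rpow hB1 hm0
    have h40 : 0 ≤ Z t ^ (4 : ℝ) := Real.rpow_nonneg hZ0 _
    rw [e1]
    rcases le_total (Z t) 1 with h1 | h1
    · have h2 : Z t ^ (2 * β) ≤ 1 := Real.rpow_le_one hZ0 h1 (by positivity)
      nlinarith
    · calc Z t ^ (2 * β) ≤ Z t ^ (m + 4) := Real.rpow_le_rpow_of_exponent_le h1 (by linarith [le_max_left (2 * β - 4) 0])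
        _ = Z t ^ m * Z t ^ (4 : ℝ) := Real.rpow_add (by linarith) _ _
        _ ≤ B ^ m * Z t ^ (4 : ℝ) := mul_le_mul_of_nonneg_right (Real.rpow_le_rpow hZ0 (hZB t ht) hm0) h40
        _ ≤ B ^ m * (1 + Z t ^ (4 : ℝ)) := by nlinarith
  have hc1 : Continuous fun t => (Z t ^ β) ^ 2 := (Zp_cont hβ).pow 2
  have hc2 : Continuous fun t => B ^ m * (1 + Z t ^ (4 : ℝ)) :=
    (continuous_const.add (Zp_cont (by norm_num))).const_mul _
  have h1 := intervalIntegral.integral_mono_on (μ := volume) (a := 0) (b := T) hT0.le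
    (hc1.intervalIntegrable _ _) (hc2.intervalIntegrable _ _) hpt
  refine h1.trans ?_
  rw [intervalIntegral.integral_const_mul, intervalIntegral.integral_add intervalIntegrable_const
    (Zp_int (by norm_num) _ _), intervalIntegral.integral_const, smul_eq_mul, sub_zero, mul_one]
  have h2 := h4 T hT
  have h3 : T ≤ T ^ (1 + ε) := by
    conv_lhs => rw [← Real.rpow_one T]
    exact Real.rpow_le_rpow_of_exponent_le hT (by linarith)
  have h5 : B ^ m = G ^ m * T ^ ((θ + ε) * m) := by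
    rw [hB, Real.mul_rpow (by linarith) (by positivity), ← Real.rpow_mul hT0.le]
  rw [h5, Real.rpow_add hT0]
  have hp : 0 ≤ G ^ m * T ^ ((θ + ε) * m) := by positivity
  calc G ^ m * T ^ ((θ + ε) * m) * (T + ∫ t in (0 : ℝ)..T, Z t ^ (4 : ℝ))
      ≤ G ^ m * T ^ ((θ + ε) * m) * (T ^ (1 + ε) + F * T ^ (1 + ε)) :=
        mul_le_mul_of_nonneg_left (add_le_add h3 h2) hp
    _ = _ := by ring

/-- case B: from the fourth moment -/
theorem lln_B [IsProbabilityMeasure P] {γ β θ : ℝ} (hγ : 1 ≤ γ) (h : SPts (pw γ) P X) (hβ : 1 ≤ β) (hθ : 0 ≤ θ)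
    (hZ : Bd θ) (hc : γ * ((2 * β - 4) * θ) < 1) :
    ∀ᵐ ω ∂P, Tendsto (fun N : ℕ => (∑ n ∈ Finset.range N, (pw γ (n + 1) - pw γ n) * Z (X n ω) ^ β) /
      ∫ t in (0 : ℝ)..(pw γ N), Z t ^ β) atTop (𝓝 1) := by
  have hγ0 : 0 < γ := by linarith
  have hβ0 : 0 < β := by linarith
  set m : ℝ := max (2 * β - 4) 0 with hm
  have hm0 : 0 ≤ m := le_max_right _ _
  have hmθ : γ * (m * θ) < 1 := by
    rcases le_total (2 * β - 4) 0 with h1 | h1
    · rw [hm, max_eq_right h1]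
      simp
    · rw [hm, max_eq_left h1]
      exact hc
  set ε : ℝ := (1 - γ * (m * θ)) / (2 * (γ * (m + 1))) with hε
  have hε0 : 0 < ε := by
    have : 0 < 1 - γ * (m * θ) := by linarith
    positivity
  have hεe : γ * ((m + 1) * ε) = (1 - γ * (m * θ)) / 2 := by
    rw [hε]
    field_simp
  obtain ⟨C, hC0, hC⟩ := double_mom hβ0 hθ hZ ε hε0
  set δ : ℝ := (1 - γ * (m * θ)) / 2 with hδ
  have hδ0 : 0 < δ := by
    have : 0 < 1 - γ * (m * θ) := by linarith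
    positivity
  refine lln_pow hγ0 h hβ (δ := δ) (D₁ := γ * C) hδ0 ?_
  filter_upwards [(pw_tendsto hγ0).eventually (low_real hβ), eventually_ge_atTop 1] with N hN hN1
  have hNR : (1 : ℝ) ≤ N := by exact_mod_cast hN1
  have hNp : (0 : ℝ) < N := by linarith
  have hL : ∀ n < N, pw γ (n + 1) - pw γ n ≤ γ * (N : ℝ) ^ (γ - 1) := by
    intro n hn
    have hnp : (0 : ℝ) < (n : ℝ) + 1 := by positivity
    have hnN : (n : ℝ) + 1 ≤ N := by exact_mod_cast hn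
    have h1 := pw_gap hγ0 n
    rw [max_eq_right hγ] at h1
    exact h1.trans (mul_le_mul_of_nonneg_left (Real.rpow_le_rpow hnp.le hnN (by linarith)) hγ0.le)
  have h1 := V_B (f := fun t => Z t ^ β) (pw_mono hγ0) (Zp_cont hβ0) hL
  rw [pw_zero hγ0] at h1
  refine h1.trans ?_
  have hpwN : pw γ N = (N : ℝ) ^ γ := rfl
  have h2 := hC (pw γ N) (by rw [hpwN]; exact Real.one_le_rpow hNR hγ0.le)
  set E : ℝ := ∫ t in (0 : ℝ)..(pw γ N), Z t ^ β with hE
  have hE1 : (N : ℝ) ^ γ ≤ E := by rw [← hpwN]; exact hN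
  have hE0 : 0 ≤ E := le_trans (by positivity) hE1
  have e1 : (N : ℝ) ^ (γ - 1) * pw γ N ^ ((θ + ε) * m + (1 + ε)) = (N : ℝ) ^ (-δ) * ((N : ℝ) ^ γ) ^ 2 := by
    rw [hpwN, ← Real.rpow_mul hNp.le, ← Real.rpow_natCast, ← Real.rpow_mul hNp.le, ← Real.rpow_add hNp,
      ← Real.rpow_add hNp]
    congr 1
    push_cast
    linear_combination hεe + hδ
  calc γ * (N : ℝ) ^ (γ - 1) * ∫ t in (0 : ℝ)..(pw γ N), (Z t ^ β) ^ 2
      ≤ γ * (N : ℝ) ^ (γ - 1) * (C * pw γ N ^ ((θ + ε) * m + (1 + ε))) :=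
        mul_le_mul_of_nonneg_left h2 (by positivity)
    _ = γ * C * ((N : ℝ) ^ (γ - 1) * pw γ N ^ ((θ + ε) * m + (1 + ε))) := by ring
    _ = γ * C * ((N : ℝ) ^ (-δ) * ((N : ℝ) ^ γ) ^ 2) := by rw [e1]
    _ = γ * C * (N : ℝ) ^ (-δ) * ((N : ℝ) ^ γ) ^ 2 := by ring
    _ ≤ γ * C * (N : ℝ) ^ (-δ) * E ^ 2 :=
        mul_le_mul_of_nonneg_left (pow_le_pow_left₀ (by positivity) hE1 2) (by positivity)

/-- **The law of large numbers for zeta at stratified random points.** -/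
theorem lln_zeta [IsProbabilityMeasure P] {γ β θ : ℝ} (hγ : 0 < γ) (h : SPts (pw γ) P X) (hβ : 1 ≤ β) (hθ : 0 ≤ θ)
    (hZ : Bd θ) (hc : γ * β * θ < 1 ∨ γ * ((2 * β - 4) * θ) < 1) :
    ∀ᵐ ω ∂P, Tendsto (fun N : ℕ => (∑ n ∈ Finset.range N, (pw γ (n + 1) - pw γ n) * Z (X n ω) ^ β) /
      ∫ t in (0 : ℝ)..(pw γ N), Z t ^ β) atTop (𝓝 1) := by
  rcases hc with hc | hc
  · exact lln_A hγ h hβ hθ hZ hc
  · rcases le_or_gt 1 γ with hg | hg
    · exact lln_B hg h hβ hθ hZ hc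
    · rcases le_or_gt 4 β with hb | hb
      · refine lln_A hγ h hβ hθ hZ (lt_of_le_of_lt ?_ hc)
        rw [mul_assoc]
        exact mul_le_mul_of_nonneg_left (mul_le_mul_of_nonneg_right (by linarith) hθ) hγ.le
      · refine lln_A hγ h hβ (by norm_num : (0 : ℝ) ≤ 1 / 6) weyl_exp ?_
        nlinarith

/-- an asymptotic formula at the end points of the strata and at all reals -/
lemma real_iff_pw {γ : ℝ} (hγ : 0 < γ) {f : ℝ → ℝ} (hf : Continuous f) (hf0 : ∀ t, 0 ≤ f t) {A c : ℝ} (hA : 0 ≤ A) :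
    Tendsto (fun T : ℝ => (∫ t in (0 : ℝ)..T, f t) / gA A T) atTop (𝓝 c) ↔
      Tendsto (fun N : ℕ => (∫ t in (0 : ℝ)..(pw γ N), f t) / gA A (pw γ N)) atTop (𝓝 c) := by
  constructor
  · intro h
    exact h.comp (pw_tendsto hγ)
  intro h
  have hpw1 : ∀ᶠ N : ℕ in atTop, 1 < pw γ N := (pw_tendsto hγ).eventually_gt_atTop 1
  have hr : Tendsto (fun N : ℕ => gA A (pw γ (N + 1)) / gA A (pw γ N)) atTop (𝓝 1) := by
    have h1 := gA_ratio A
    have h2 : Tendsto (fun N : ℕ => (((N : ℝ) + 1) / N) ^ (γ - 1)) atTop (𝓝 1) := by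
      have h3 : Tendsto (fun N : ℕ => ((N : ℝ) + 1) / N) atTop (𝓝 1) := by
        have h2 : Tendsto (fun N : ℕ => 1 + 1 / (N : ℝ)) atTop (𝓝 (1 + 0)) :=
          tendsto_const_nhds.add (tendsto_const_nhds.div_atTop tendsto_natCast_atTop_atTop)
        rw [add_zero] at h2
        refine h2.congr' ?_
        filter_upwards [eventually_ge_atTop 1] with N hN
        have : (N : ℝ) ≠ 0 := by positivity
        field_simp
      have h4 := h3.rpow_const (p := γ - 1) (Or.inl one_ne_zero)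
      rwa [Real.one_rpow] at h4
    have h3 := h2.mul h1
    rw [mul_one] at h3
    refine h3.congr' ?_
    filter_upwards [eventually_ge_atTop 2] with N hN
    have hNR : (1 : ℝ) < N := by exact_mod_cast hN
    have hNp : (0 : ℝ) < N := by linarith
    have hl : 0 < Real.log N := Real.log_pos hNR
    have hl1 : 0 < Real.log ((N : ℝ) + 1) := Real.log_pos (by linarith)
    unfold gA pw
    push_cast
    rw [Real.log_rpow hNp, Real.log_rpow (by linarith), Real.mul_rpow hγ.le hl.le, Real.mul_rpow hγ.le hl1.le,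
      Real.div_rpow (by linarith) hNp.le, Real.rpow_sub_one (by linarith), Real.rpow_sub_one hNp.ne']
    have h5 : γ ^ A ≠ 0 := (Real.rpow_pos_of_pos hγ A).ne'
    have h6 : Real.log (N : ℝ) ^ A ≠ 0 := (Real.rpow_pos_of_pos hl A).ne'
    have h7 : (N : ℝ) ^ γ ≠ 0 := (Real.rpow_pos_of_pos hNp γ).ne'
    have h8 : (N : ℝ) + 1 ≠ 0 := by linarith
    field_simp
  set F : ℝ → ℝ := fun T => ∫ t in (0 : ℝ)..T, f t with hF
  have hmono : ∀ a b : ℝ, 0 ≤ a → a ≤ b → F a ≤ F b := by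
    intro a b ha hab
    exact intervalIntegral.integral_mono_interval le_rfl ha hab (Eventually.of_forall fun t => hf0 t)
      (hf.intervalIntegrable _ _)
  have hF0 : ∀ a : ℝ, 0 ≤ a → 0 ≤ F a := fun a ha => intervalIntegral.integral_nonneg ha fun t _ => hf0 t
  have hpw0 : ∀ N, 0 ≤ pw γ N := fun N => Real.rpow_nonneg (Nat.cast_nonneg N) γ
  have hfl : Tendsto (fun T : ℝ => ⌊T ^ (1 / γ)⌋₊) atTop atTop :=
    tendsto_nat_floor_atTop.comp (tendsto_rpow_atTop (by positivity))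
  have hup : Tendsto (fun N : ℕ => F (pw γ (N + 1)) / gA A (pw γ N)) atTop (𝓝 c) := by
    have h1 := ((tendsto_add_atTop_iff_nat 1).2 h).mul hr
    rw [mul_one] at h1
    refine h1.congr' ?_
    filter_upwards [(tendsto_add_atTop_nat 1).eventually hpw1] with N hN
    rw [div_mul_div_cancel₀ (gA_pos hN).ne']
  have hlo : Tendsto (fun N : ℕ => F (pw γ N) / gA A (pw γ (N + 1))) atTop (𝓝 c) := by
    have h1 := h.div hr one_ne_zero
    rw [div_one] at h1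
    refine h1.congr' ?_
    filter_upwards [hpw1, (tendsto_add_atTop_nat 1).eventually hpw1] with N hN hN2
    have h2 : gA A (pw γ (N + 1)) ≠ 0 := (gA_pos hN2).ne'
    have h3 : gA A (pw γ N) ≠ 0 := (gA_pos hN).ne'
    simp only [Pi.div_apply, hF]
    field_simp
  have hbet : ∀ T : ℝ, 1 ≤ T → pw γ ⌊T ^ (1 / γ)⌋₊ ≤ T ∧ T ≤ pw γ (⌊T ^ (1 / γ)⌋₊ + 1) := by
    intro T hT
    have hT0 : 0 ≤ T := by linarith
    have e1 : (T ^ (1 / γ)) ^ γ = T := by
      rw [← Real.rpow_mul hT0, one_div_mul_cancel hγ.ne', Real.rpow_one]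
    have h0 : 0 ≤ T ^ (1 / γ) := by positivity
    constructor
    · calc pw γ ⌊T ^ (1 / γ)⌋₊ ≤ (T ^ (1 / γ)) ^ γ :=
            Real.rpow_le_rpow (Nat.cast_nonneg _) (Nat.floor_le h0) hγ.le
        _ = T := e1
    · calc T = (T ^ (1 / γ)) ^ γ := e1.symm
        _ ≤ pw γ (⌊T ^ (1 / γ)⌋₊ + 1) := by
            unfold pw
            refine Real.rpow_le_rpow h0 ?_ hγ.le
            push_cast
            exact (Nat.lt_floor_add_one _).le
  refine tendsto_of_tendsto_of_tendsto_of_le_of_le' (hlo.comp hfl) (hup.comp hfl) ?_ ?_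
  · filter_upwards [eventually_ge_atTop (1 : ℝ), hfl.eventually hpw1] with T hT h1
    obtain ⟨h2, h3⟩ := hbet T hT
    simp only [Function.comp]
    exact div_le_div₀ (hF0 T (by linarith)) (hmono _ _ (hpw0 _) h2) (gA_pos (by linarith))
      (gA_mono hA (by linarith) h3)
  · filter_upwards [eventually_ge_atTop (1 : ℝ), hfl.eventually hpw1] with T hT h1
    obtain ⟨h2, h3⟩ := hbet T hT
    simp only [Function.comp]
    exact div_le_div₀ (hF0 _ (hpw0 _)) (hmono _ _ (by linarith) h3) (gA_pos h1) (gA_mono hA h1 h2)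

/-- equivalence of the asymptotic formulas along a sample with the law of large numbers -/
lemma asy_iff' {E S g : ℕ → ℝ} {c : ℝ} (hE : ∀ᶠ N : ℕ in atTop, 0 < E N)
    (h : Tendsto (fun N : ℕ => S N / E N) atTop (𝓝 1)) :
    Tendsto (fun N : ℕ => E N / g N) atTop (𝓝 c) ↔ Tendsto (fun N : ℕ => S N / g N) atTop (𝓝 c) := by
  constructor
  · intro h1
    have h2 := h.mul h1
    rw [one_mul] at h2
    refine h2.congr' ?_
    filter_upwards [hE] with N hN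
    rw [div_mul_div_cancel₀ hN.ne']
  · intro h1
    have h2 := h1.div h one_ne_zero
    rw [div_one] at h2
    refine h2.congr' ?_
    have h3 : ∀ᶠ N : ℕ in atTop, S N / E N ≠ 0 := h.eventually (isOpen_ne.mem_nhds one_ne_zero)
    filter_upwards [hE, h3] with N hN hN3
    simp only [Pi.div_apply]
    have h4 : S N ≠ 0 := by
      intro h0
      rw [h0, zero_div] at hN3
      exact hN3 rfl
    field_simp

end Pool.Agent.Q231.RS
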