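import Mathlib

/-!
# Random sampling: measure theoretic lemmas
-/

set_option autoImplicit false

open MeasureTheory Filter Topology Set

namespace Pool.Agent.Q231.RS

variable {Ω : Type*} [MeasurableSpace Ω]

/-- a property which holds almost everywhere meets infinitely many events of measure at least `p` -/
lemma exists_freq {P : Measure Ω} [IsFiniteMeasure P] {A : ℕ → Set Ω} (hA : ∀ j, MeasurableSet (A j))
    {p : ENNReal} (hp : 0 < p) (h : ∀ j, p ≤ P (A j)) {Q : Ω → Prop} (hQ : ∀ᵐ ω ∂P, Q ω) :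
    ∃ ω, Q ω ∧ ∃ᶠ j in atTop, ω ∈ A j := by
  set B : ℕ → Set Ω := fun N => ⋃ j ≥ N, A j with hB
  have hBm : ∀ N, MeasurableSet (B N) := fun N =>
    MeasurableSet.iUnion fun j => MeasurableSet.iUnion fun _ => hA j
  have hanti : Antitone B := by
    intro a b hab ω hω
    simp only [hB, mem_iUnion] at hω ⊢
    obtain ⟨j, hj, h1⟩ := hω
    exact ⟨j, hab.trans hj, h1⟩
  have hlim := tendsto_measure_iInter_atTop (μ := P) (fun N => (hBm N).nullMeasurableSet) hanti
    ⟨0, measure_ne_top _ _⟩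
  have hge : p ≤ P (⋂ N, B N) := by
    refine ge_of_tendsto' hlim fun N => ?_
    refine (h N).trans (measure_mono ?_)
    intro ω hω
    simp only [hB, mem_iUnion]
    exact ⟨N, le_rfl, hω⟩
  by_contra hcon
  push Not at hcon
  have h0 : P (⋂ N, B N) = 0 := by
    refine measure_mono_null ?_ hQ
    intro ω hω
    intro hq
    have h1 := hcon ω hq
    rw [eventually_atTop] at h1
    obtain ⟨N, hN⟩ := h1
    have h2 := mem_iInter.1 hω N
    simp only [hB, mem_iUnion] at h2
    obtain ⟨j, hj, h3⟩ := h2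
    exact hN j hj h3
  rw [h0] at hge
  exact absurd hge (not_le.2 hp)

/-- The random points `V k` hit every measurable subset `E` of a unit interval `[n, n + 1]` (with `good n`) with
probability at least `c |E|`. -/
def Hits {J : Type*} (P : Measure Ω) (V : J → Ω → ℝ) (c : ℝ) (good : ℤ → Prop) : Prop :=
  ∀ n : ℤ, good n → ∀ E : Set ℝ, MeasurableSet E → E ⊆ Icc (n : ℝ) (n + 1) →
    ENNReal.ofReal c * volume E ≤ P {ω | ∃ k, V k ω ∈ E}

lemma hit_meas {J : Type*} [Countable J] {V : J → Ω → ℝ} (hV : ∀ k, Measurable (V k)) {E : Set ℝ}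
    (hE : MeasurableSet E) : MeasurableSet {ω | ∃ k, V k ω ∈ E} := by
  have : {ω | ∃ k, V k ω ∈ E} = ⋃ k, V k ⁻¹' E := by
    ext ω
    simp
  rw [this]
  exact MeasurableSet.iUnion fun k => hV k hE

/-- a set of measure larger than `2 a` in a window of length one has a part of measure at least `a` in a unit
interval with integer endpoints -/
lemma split_unit {E : Set ℝ} {T a : ℝ} (hE : ∀ x ∈ E, |x - T| ≤ 1 / 2) (ha : 0 ≤ a)
    (h : ENNReal.ofReal (2 * a) < volume E) :
    ∃ n : ℤ, T - 3 / 2 ≤ n ∧ (n : ℝ) ≤ T + 1 / 2 ∧ ENNReal.ofReal a ≤ volume (E ∩ Icc (n : ℝ) (n + 1)) := by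
  set n : ℤ := ⌊T - 1 / 2⌋ with hn
  have h1 : (n : ℝ) ≤ T - 1 / 2 := Int.floor_le _
  have h2 : T - 1 / 2 < n + 1 := Int.lt_floor_add_one _
  have hsub : E ⊆ (E ∩ Icc (n : ℝ) (n + 1)) ∪ (E ∩ Icc ((n + 1 : ℤ) : ℝ) ((n + 1 : ℤ) + 1)) := by
    intro x hx
    have h3 := abs_le.1 (hE x hx)
    push_cast
    by_cases h4 : x ≤ n + 1
    · exact Or.inl ⟨hx, by linarith [h3.1], h4⟩
    · exact Or.inr ⟨hx, by linarith, by linarith [h3.2]⟩
  by_contra hcon
  push Not at hcon
  have h5 := hcon n (by linarith) (by linarith)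
  have h6 := hcon (n + 1) (by push_cast; linarith) (by push_cast; linarith)
  have h7 : volume E ≤ ENNReal.ofReal a + ENNReal.ofReal a :=
    (measure_mono hsub).trans ((measure_union_le _ _).trans (add_le_add h5.le h6.le))
  rw [← ENNReal.ofReal_add ha ha, ← two_mul] at h7
  exact absurd h7 (not_le.2 h)

/-- translates of the integers by a uniformly distributed shift hit every subset of a unit interval -/
lemma hits_translate (good : ℤ → Prop) :
    Hits (volume.restrict (Icc (0 : ℝ) 1)) (fun (k : ℤ) β => (k : ℝ) + β) 1 good := by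
  intro n _ E hE hsub
  rw [ENNReal.ofReal_one, one_mul]
  have h1 : MeasurableSet {β : ℝ | ∃ k : ℤ, (k : ℝ) + β ∈ E} :=
    hit_meas (V := fun (k : ℤ) β => (k : ℝ) + β) (fun k => by fun_prop) hE
  rw [Measure.restrict_apply h1]
  have h2 : (fun x : ℝ => (n : ℝ) + x) ⁻¹' E ⊆ {β : ℝ | ∃ k : ℤ, (k : ℝ) + β ∈ E} ∩ Icc 0 1 := by
    intro β hβ
    refine ⟨⟨n, hβ⟩, ?_⟩
    have h3 := hsub hβ
    constructor
    · linarith [h3.1]
    · linarith [h3.2]
  calc volume E = volume ((fun x : ℝ => (n : ℝ) + x) ⁻¹' E) := (measure_preimage_add _ _ _).symm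
    _ ≤ _ := measure_mono h2

/-- one point in every unit interval whose law has density at least `c` there -/
lemma hits_uniform {P : Measure Ω} (good : ℤ → Prop) {U : ℤ → Ω → ℝ} {c : ℝ}
    (hd : ∀ n : ℤ, ∀ E : Set ℝ, MeasurableSet E → E ⊆ Icc (n : ℝ) (n + 1) →
      ENNReal.ofReal c * volume E ≤ P (U n ⁻¹' E)) :
    Hits P U c good := by
  intro n _ E hE hsub
  refine (hd n E hE hsub).trans (measure_mono ?_)
  intro ω hω
  exact ⟨n, hω⟩

end Pool.Agent.Q231.RS
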