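import Pool.Agent.H983R4.GL.F3
import Pool.Agent.Q231.RS.Base

/-!
# Random sampling of families of L-functions
-/

set_option autoImplicit false

open MeasureTheory Filter Topology Set Real

namespace Pool.Agent.Q231.RS

open Pool.Agent.H983R4.GL

variable {ι : Type*} {L : ι → ℂ → ℂ} {X : ι → ℝ → ℝ}

lemma line_cont (H : Fam L X) (i : ι) : Continuous fun x : ℝ => ‖L i (1 / 2 + x * Complex.I)‖ := by
  obtain ⟨p, C, m, K, hp, hC, hm, hK, hld⟩ := H.ld
  refine continuous_norm.comp ((hld i 0).hd.continuous.comp ?_)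
  fun_prop

lemma Big_meas (H : Fam L X) (κ : ℝ) (i : ι) (T h : ℝ) : MeasurableSet (Big L X κ i T h) := by
  have h1 : MeasurableSet {x : ℝ | |x - T| ≤ h} :=
    measurableSet_le (by fun_prop) measurable_const
  have h2 : MeasurableSet {x : ℝ | X i T ^ κ < ‖L i (1 / 2 + x * Complex.I)‖} :=
    measurableSet_lt measurable_const (line_cont H i).measurable
  exact h1.inter h2

lemma AdmOn.mono {S S' : Set (ι × ℝ)} {κ₀ : ℝ} (hS : S' ⊆ S) (h : AdmOn L X S κ₀) : AdmOn L X S' κ₀ := by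
  intro ε hε
  obtain ⟨B, hB⟩ := h ε hε
  exact ⟨B, fun i t hi => hB i t (hS hi)⟩

/-- the crude bound in terms of the conductor -/
lemma crude_line (H : Fam L X) : ∃ p C : ℝ, 0 < p ∧ 0 ≤ C ∧ ∀ (i : ι) (T : ℝ),
    ‖L i (1 / 2 + T * Complex.I)‖ ≤ Real.exp C * X i T ^ p := by
  obtain ⟨p, C, m, K, hp, hC, hm, hK, hld⟩ := H.ld
  refine ⟨p, C, hp, hC, fun i T => ?_⟩
  have hX1 := H.one i T
  have hXp : 0 < X i T := by linarith
  have h1 := (hld i T).g (1 / 2 + T * Complex.I) (by simp)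
  have e1 : (1 / 2 + (T : ℂ) * Complex.I).im = T := by simp
  rw [e1, sub_self, abs_zero, add_zero, Real.log_one, mul_zero, add_zero] at h1
  have h2 : ‖L i (1 / 2 + T * Complex.I)‖ ≤ Real.exp (C + p * Real.log (X i T)) := by
    rcases eq_or_lt_of_le (norm_nonneg (L i (1 / 2 + T * Complex.I))) with h3 | h3
    · rw [← h3]; positivity
    · rw [← Real.log_le_iff_le_exp h3]
      exact (le_max_right _ _).trans h1
  have h3 : Real.exp (C + p * Real.log (X i T)) = Real.exp C * X i T ^ p := by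
    rw [Real.exp_add, Real.rpow_def_of_pos hXp]
    congr 2
    ring
  rwa [h3] at h2

variable {Ω : Type*} [MeasurableSpace Ω]

/-- **Random sampling of a family**: the exponent at almost all samples is an exponent at all points. -/
theorem sample (H : Fam L X) {κ₀ : ℝ} (hκ : 0 ≤ κ₀) {P : Measure Ω} [IsFiniteMeasure P] {J : Type*} [Countable J]
    {V : ι → J → Ω → ℝ} (hV : ∀ i k, Measurable (V i k)) {c : ℝ} (hc : 0 < c)
    (hit : ∀ i, Hits P (V i) c (fun _ => True)) :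
    AdmOn L X univ κ₀ ↔ ∀ᵐ ω ∂P, AdmOn L X {y | ∃ k, y.2 = V y.1 k ω} κ₀ := by
  constructor
  · intro h
    exact Eventually.of_forall fun ω => AdmOn.mono (subset_univ _) h
  intro hae
  by_contra hcon
  have hcon' : ∃ ε : ℝ, 0 < ε ∧ ∀ B : ℝ, ∃ (i : ι) (t : ℝ),
      B * X i t ^ (κ₀ + ε) < ‖L i (1 / 2 + t * Complex.I)‖ := by
    unfold AdmOn at hcon
    push Not at hcon
    obtain ⟨ε, hε, h⟩ := hcon
    refine ⟨ε, hε, fun B => ?_⟩
    obtain ⟨i, t, _, h1⟩ := h B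
    exact ⟨i, t, h1⟩
  obtain ⟨ε, hε, hbig⟩ := hcon'
  obtain ⟨p, C, hp, hC, hcr⟩ := crude_line H
  obtain ⟨m, hm, hsh⟩ := H.shift
  obtain ⟨δ, hδ, X₀, hper⟩ := H.persist (κ := κ₀ + ε / 2) (μ := κ₀ + ε) (by linarith) (by linarith)
  -- choice of the large values
  have hch : ∀ j : ℕ, ∃ (i : ι) (t : ℝ), (j : ℝ) < X i t ∧
      X i t ^ (κ₀ + ε) ≤ ‖L i (1 / 2 + t * Complex.I)‖ := by
    intro j
    obtain ⟨i, t, h⟩ := hbig (Real.exp C * (j : ℝ) ^ p + 1)
    have hX1 := H.one i t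
    have hXe : 1 ≤ X i t ^ (κ₀ + ε) := Real.one_le_rpow hX1 (by linarith)
    have hjp : 0 ≤ Real.exp C * (j : ℝ) ^ p := by positivity
    refine ⟨i, t, ?_, ?_⟩
    · by_contra hle
      push Not at hle
      have h1 := hcr i t
      have h2 : X i t ^ p ≤ (j : ℝ) ^ p := Real.rpow_le_rpow (by linarith) hle hp.le
      have h3 : Real.exp C * X i t ^ p ≤ Real.exp C * (j : ℝ) ^ p :=
        mul_le_mul_of_nonneg_left h2 (Real.exp_pos _).le
      nlinarith
    · nlinarith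
  choose i t hXt hLt using hch
  -- the events
  obtain ⟨J₀, hJ₀⟩ := exists_nat_ge X₀
  have hwin : ∀ j : ℕ, ∃ n : ℤ, ENNReal.ofReal (δ / 4) ≤
      volume (Big L X (κ₀ + ε / 2) (i (j + J₀)) (t (j + J₀)) (1 / 2) ∩ Icc (n : ℝ) (n + 1)) := by
    intro j
    have h1 : X₀ ≤ X (i (j + J₀)) (t (j + J₀)) := by
      have h2 := hXt (j + J₀)
      push_cast at h2
      have : (0 : ℝ) ≤ (j : ℝ) := Nat.cast_nonneg _
      linarith
    have h2 := hper (i (j + J₀)) (t (j + J₀)) h1 (hLt _) (1 / 2) (by norm_num) (by norm_num)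
    obtain ⟨n, _, _, h3⟩ := split_unit (E := Big L X (κ₀ + ε / 2) (i (j + J₀)) (t (j + J₀)) (1 / 2))
      (T := t (j + J₀)) (a := δ / 4) (fun x hx => hx.1) (by positivity)
      (by convert h2 using 2; ring)
    exact ⟨n, h3⟩
  choose n hn using hwin
  set E : ℕ → Set ℝ := fun j =>
    Big L X (κ₀ + ε / 2) (i (j + J₀)) (t (j + J₀)) (1 / 2) ∩ Icc (n j : ℝ) (n j + 1) with hE
  have hEm : ∀ j, MeasurableSet (E j) := fun j => (Big_meas H _ _ _ _).inter measurableSet_Icc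
  set A : ℕ → Set Ω := fun j => {ω | ∃ k, V (i (j + J₀)) k ω ∈ E j} with hA
  have hAm : ∀ j, MeasurableSet (A j) := fun j => hit_meas (fun k => hV _ k) (hEm j)
  have hAp : ∀ j, ENNReal.ofReal c * ENNReal.ofReal (δ / 4) ≤ P (A j) := by
    intro j
    refine le_trans ?_ (hit (i (j + J₀)) (n j) trivial (E j) (hEm j) inter_subset_right)
    gcongr
    exact hn j
  have hpos : 0 < ENNReal.ofReal c * ENNReal.ofReal (δ / 4) :=
    ENNReal.mul_pos (by simpa using hc) (by simpa using hδ)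
  obtain ⟨ω, hω, hfr⟩ := exists_freq hAm hpos hAp hae
  obtain ⟨B, hB⟩ := hω (ε / 4) (by linarith)
  set D : ℝ := |B| * 2 ^ (m * (κ₀ + ε / 4)) with hD
  have hD0 : 0 ≤ D := by positivity
  obtain ⟨j₁, hj₁⟩ := exists_nat_ge ((D + 1) ^ (4 / ε))
  obtain ⟨j, hjA, hj⟩ := (hfr.and_eventually (eventually_ge_atTop j₁)).exists
  obtain ⟨k, hk⟩ := hjA
  obtain ⟨⟨hk1, hk2⟩, _⟩ := hk
  set x := V (i (j + J₀)) k ω with hx
  set XT := X (i (j + J₀)) (t (j + J₀)) with hXT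
  have hXT1 : 1 ≤ XT := H.one _ _
  have hXTp : 0 < XT := by linarith
  have h1 := hB (i (j + J₀)) x ⟨k, rfl⟩
  have h2 : X (i (j + J₀)) x ≤ 2 ^ m * XT := by
    have h3 := hsh (i (j + J₀)) (t (j + J₀)) (x - t (j + J₀))
    rw [add_sub_cancel] at h3
    refine h3.trans ?_
    refine mul_le_mul_of_nonneg_right ?_ hXTp.le
    exact Real.rpow_le_rpow (by positivity) (by linarith) hm
  have h4 : X (i (j + J₀)) x ^ (κ₀ + ε / 4) ≤ 2 ^ (m * (κ₀ + ε / 4)) * XT ^ (κ₀ + ε / 4) := by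
    have h5 := Real.rpow_le_rpow (by linarith [H.one (i (j + J₀)) x]) h2 (by linarith : 0 ≤ κ₀ + ε / 4)
    rwa [Real.mul_rpow (by positivity) hXTp.le, ← Real.rpow_mul (by norm_num)] at h5
  have h5 : XT ^ (κ₀ + ε / 2) < D * XT ^ (κ₀ + ε / 4) := by
    calc XT ^ (κ₀ + ε / 2) < ‖L (i (j + J₀)) (1 / 2 + x * Complex.I)‖ := hk2
      _ ≤ B * X (i (j + J₀)) x ^ (κ₀ + ε / 4) := h1
      _ ≤ |B| * X (i (j + J₀)) x ^ (κ₀ + ε / 4) :=
          mul_le_mul_of_nonneg_right (le_abs_self B) (Real.rpow_nonneg (by linarith [H.one (i (j + J₀)) x]) _)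
      _ ≤ |B| * (2 ^ (m * (κ₀ + ε / 4)) * XT ^ (κ₀ + ε / 4)) := mul_le_mul_of_nonneg_left h4 (abs_nonneg B)
      _ = D * XT ^ (κ₀ + ε / 4) := by rw [hD]; ring
  have h6 : XT ^ (κ₀ + ε / 2) = XT ^ (ε / 4) * XT ^ (κ₀ + ε / 4) := by
    rw [← Real.rpow_add hXTp]; congr 1; ring
  rw [h6] at h5
  have h7 : XT ^ (ε / 4) < D := lt_of_mul_lt_mul_right h5 (by positivity)
  have h8 : (D + 1) ^ (4 / ε) ≤ XT := by
    have h9 := hXt (j + J₀)
    have h10 : (j₁ : ℝ) ≤ j := by exact_mod_cast hj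
    push_cast at h9
    have : (0 : ℝ) ≤ (J₀ : ℝ) := Nat.cast_nonneg _
    linarith
  have h9 : D + 1 ≤ XT ^ (ε / 4) := by
    have h10 := Real.rpow_le_rpow (by positivity) h8 (by linarith : 0 ≤ ε / 4)
    rw [← Real.rpow_mul (by linarith)] at h10
    have : 4 / ε * (ε / 4) = 1 := by field_simp
    rwa [this, Real.rpow_one] at h10
  linarith

end Pool.Agent.Q231.RS
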