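import Pool.Agent.Q231.RS.Base

/-!
# Random dilates of the integers
-/

set_option autoImplicit false

open MeasureTheory Filter Topology Set

namespace Pool.Agent.Q231.RS

/-- dilates of the natural numbers by a uniformly distributed factor hit every subset of a unit interval -/
lemma hits_dilate : Hits (volume.restrict (Icc (1 : ℝ) 2)) (fun (k : ℕ) α => α * (k : ℝ)) (1 / 4)
    (fun n => 2 ≤ n) := by
  intro n hn E hE hsub
  have h1 : MeasurableSet {α : ℝ | ∃ k : ℕ, α * (k : ℝ) ∈ E} :=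
    hit_meas (V := fun (k : ℕ) α => α * (k : ℝ)) (fun k => by fun_prop) hE
  rw [Measure.restrict_apply h1]
  obtain ⟨m, rfl⟩ : ∃ m : ℕ, n = m := ⟨n.toNat, by omega⟩
  have hm2 : 2 ≤ m := by exact_mod_cast hn
  have hmR : (2 : ℝ) ≤ m := by exact_mod_cast hm2
  push_cast at hsub
  set I : Finset ℕ := Finset.range ((m - 1) / 4 + 1) with hI
  set S : ℕ → Set ℝ := fun i => (fun α : ℝ => ((m - 2 * i : ℕ) : ℝ) * α) ⁻¹' E with hS
  have hi : ∀ i ∈ I, m + 1 ≤ 2 * (m - 2 * i) ∧ 2 * i ≤ m := by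
    intro i hi
    rw [hI, Finset.mem_range] at hi
    omega
  have hsubS : ∀ i ∈ I, S i ⊆ {α : ℝ | ∃ k : ℕ, α * (k : ℝ) ∈ E} ∩ Icc 1 2 := by
    intro i hiI α hα
    obtain ⟨h2, h3⟩ := hi i hiI
    have h4 : ((m - 2 * i : ℕ) : ℝ) * α ∈ E := hα
    have h5 := hsub h4
    have h2R : (m : ℝ) + 1 ≤ 2 * ((m - 2 * i : ℕ) : ℝ) := by exact_mod_cast h2
    have h6 : ((m - 2 * i : ℕ) : ℝ) ≤ m := by exact_mod_cast Nat.sub_le _ _
    have hpos : (0 : ℝ) < ((m - 2 * i : ℕ) : ℝ) := by linarith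
    refine ⟨⟨m - 2 * i, by rw [mul_comm]; exact h4⟩, ?_, ?_⟩
    · by_contra hlt
      push Not at hlt
      have := mul_lt_mul_of_pos_left hlt hpos
      linarith [h5.1]
    · by_contra hlt
      push Not at hlt
      have := mul_lt_mul_of_pos_left hlt hpos
      linarith [h5.2]
  have hdisj : (I : Set ℕ).PairwiseDisjoint S := by
    have key : ∀ i ∈ I, ∀ i' ∈ I, i < i' → Disjoint (S i) (S i') := by
      intro i hiI i' hiI' hlt
      rw [Set.disjoint_left]
      intro α h2 h3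
      have h4 := hsub (show ((m - 2 * i : ℕ) : ℝ) * α ∈ E from h2)
      have h5 := hsub (show ((m - 2 * i' : ℕ) : ℝ) * α ∈ E from h3)
      have h6 := (hsubS i hiI h2).2.1
      obtain ⟨_, h7⟩ := hi i' hiI'
      have h8 : m - 2 * i = (m - 2 * i') + 2 * (i' - i) := by omega
      have h9 : (1 : ℝ) ≤ ((i' - i : ℕ) : ℝ) := by exact_mod_cast (by omega : 1 ≤ i' - i)
      rw [h8] at h4
      push_cast at h4
      have h10 := h4.2
      have h11 := h5.1
      nlinarith
    intro i hiI i' hiI' hne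
    rcases lt_or_gt_of_ne hne with h | h
    · exact key i hiI i' hiI' h
    · exact (key i' hiI' i hiI h).symm
  have hmeas : ∀ i ∈ I, MeasurableSet (S i) := fun i _ => by
    refine (?_ : Measurable fun α : ℝ => ((m - 2 * i : ℕ) : ℝ) * α) hE
    fun_prop
  have hvol : ∀ i ∈ I, ENNReal.ofReal (1 / m) * volume E ≤ volume (S i) := by
    intro i hiI
    obtain ⟨h2, h3⟩ := hi i hiI
    have hpos : (0 : ℝ) < ((m - 2 * i : ℕ) : ℝ) := by exact_mod_cast (by omega : 0 < m - 2 * i)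
    rw [hS]
    simp only
    rw [Real.volume_preimage_mul_left hpos.ne']
    gcongr
    rw [abs_of_pos (by positivity), one_div]
    have h6 : ((m - 2 * i : ℕ) : ℝ) ≤ m := by exact_mod_cast Nat.sub_le _ _
    exact inv_anti₀ hpos h6
  calc ENNReal.ofReal (1 / 4) * volume E
      ≤ ∑ i ∈ I, ENNReal.ofReal (1 / m) * volume E := by
        rw [Finset.sum_const, nsmul_eq_mul, ← mul_assoc, hI, Finset.card_range]
        gcongr
        rw [← ENNReal.ofReal_natCast, ← ENNReal.ofReal_mul (Nat.cast_nonneg _)]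
        apply ENNReal.ofReal_le_ofReal
        rw [mul_one_div, le_div_iff₀ (by linarith)]
        have h2 : m ≤ 4 * ((m - 1) / 4 + 1) := by omega
        have h3 : (m : ℝ) ≤ 4 * (((m - 1) / 4 + 1 : ℕ) : ℝ) := by exact_mod_cast h2
        linarith
    _ ≤ ∑ i ∈ I, volume (S i) := Finset.sum_le_sum hvol
    _ = volume (⋃ i ∈ I, S i) := (measure_biUnion_finset hdisj hmeas).symm
    _ ≤ _ := measure_mono (iUnion₂_subset hsubS)

end Pool.Agent.Q231.RS
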