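import Mathlib

/-!
# A law of large numbers for a function at pairwise independent random points, one in each unit interval
-/

set_option autoImplicit false

open MeasureTheory ProbabilityTheory Filter Topology Set

namespace Pool.Agent.Q231.RS

variable {Ω : Type*} [MeasurableSpace Ω]

/-- pairwise independent points, the `n`-th one uniformly distributed on `[n, n + 1]` -/
structure UPts (P : Measure Ω) (X : ℕ → Ω → ℝ) : Prop where
  meas : ∀ n, Measurable (X n)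
  law : ∀ n : ℕ, P.map (X n) = volume.restrict (Icc (n : ℝ) (n + 1))
  ind : Pairwise fun i j => X i ⟂ᵢ[P] X j

/-- the integral up to an integer -/
noncomputable def MI (f : ℝ → ℝ) (N : ℕ) : ℝ := ∫ t in (0 : ℝ)..N, f t

variable {P : Measure Ω} {X : ℕ → Ω → ℝ} {f : ℝ → ℝ}

lemma UPts.mem (h : UPts P X) (n : ℕ) : ∀ᵐ ω ∂P, X n ω ∈ Icc (n : ℝ) (n + 1) := by
  have h1 : ∀ᵐ x ∂(P.map (X n)), x ∈ Icc (n : ℝ) (n + 1) := by
    rw [h.law]
    exact ae_restrict_mem measurableSet_Icc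
  exact ae_of_ae_map (h.meas n).aemeasurable h1

lemma UPts.int (h : UPts P X) {g : ℝ → ℝ} (hg : Continuous g) (n : ℕ) :
    ∫ ω, g (X n ω) ∂P = ∫ t in (n : ℝ)..((n + 1 : ℕ) : ℝ), g t := by
  rw [← integral_map (h.meas n).aemeasurable hg.aestronglyMeasurable, h.law,
    intervalIntegral.integral_of_le (by push_cast; linarith), integral_Icc_eq_integral_Ioc]
  push_cast
  rfl

lemma UPts.memLp [IsProbabilityMeasure P] (h : UPts P X) {g : ℝ → ℝ} (hg : Continuous g) (n : ℕ) :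
    MemLp (fun ω => g (X n ω)) 2 P := by
  obtain ⟨C, hC⟩ := (isCompact_Icc (a := (n : ℝ)) (b := n + 1)).exists_bound_of_continuousOn hg.continuousOn
  refine MemLp.of_bound (hg.measurable.comp (h.meas n)).aestronglyMeasurable C ?_
  filter_upwards [h.mem n] with ω hω
  exact hC _ hω

lemma MI_eq_sum (hf : Continuous f) (N : ℕ) :
    ∑ n ∈ Finset.range N, ∫ t in (n : ℝ)..((n + 1 : ℕ) : ℝ), f t = MI f N := by
  have h1 := intervalIntegral.sum_integral_adjacent_intervals (μ := volume) (f := f)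
    (a := fun k : ℕ => (k : ℝ)) (n := N) (fun k _ => hf.intervalIntegrable _ _)
  simpa [MI] using h1

lemma MI_zero : MI f 0 = 0 := by simp [MI]

lemma MI_succ (hf : Continuous f) (N : ℕ) : MI f (N + 1) = MI f N + ∫ t in (N : ℝ)..((N + 1 : ℕ) : ℝ), f t := by
  rw [← MI_eq_sum hf, ← MI_eq_sum hf, Finset.sum_range_succ]

lemma MI_mono (hf : Continuous f) (hf0 : ∀ t, 0 ≤ f t) : Monotone (MI f) := by
  apply monotone_nat_of_le_succ
  intro N
  rw [MI_succ hf]
  have : 0 ≤ ∫ t in (N : ℝ)..((N + 1 : ℕ) : ℝ), f t :=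
    intervalIntegral.integral_nonneg (by push_cast; linarith) fun t _ => hf0 t
  linarith

/-- Chebyshev's inequality -/
lemma dev [IsProbabilityMeasure P] (h : UPts P X) (hf : Continuous f) (hf0 : ∀ t, 0 ≤ f t) {s : ℝ} {N : ℕ}
    (hs : ∀ t ∈ Icc (0 : ℝ) N, f t ≤ s) {η : ℝ} (hη : 0 < η) (hM : 0 < MI f N) :
    P {ω | η * MI f N ≤ |∑ n ∈ Finset.range N, f (X n ω) - MI f N|} ≤ ENNReal.ofReal (s / (η ^ 2 * MI f N)) := by
  set Y : ℕ → Ω → ℝ := fun n ω => f (X n ω) with hY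
  have hLp : ∀ n, MemLp (Y n) 2 P := fun n => h.memLp hf n
  have hmean : ∫ ω, (∑ n ∈ Finset.range N, Y n) ω ∂P = MI f N := by
    have e1 : ∫ ω, (∑ n ∈ Finset.range N, Y n) ω ∂P = ∑ n ∈ Finset.range N, ∫ ω, Y n ω ∂P := by
      simp only [Finset.sum_apply]
      exact integral_finsetSum _ fun n _ => (hLp n).integrable (by norm_num)
    rw [e1, ← MI_eq_sum hf]
    exact Finset.sum_congr rfl fun n _ => h.int hf n
  have hvar : variance (∑ n ∈ Finset.range N, Y n) P ≤ s * MI f N := by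
    rw [IndepFun.variance_sum (fun n _ => hLp n) (fun i _ j _ hij =>
      (h.ind hij).comp hf.measurable hf.measurable), ← MI_eq_sum hf, Finset.mul_sum]
    refine Finset.sum_le_sum fun n hn => ?_
    have h1 := variance_le_expectation_sq (μ := P) (hLp n).aestronglyMeasurable
    refine h1.trans ?_
    have e1 : ∫ ω, (Y n ^ 2) ω ∂P = ∫ t in (n : ℝ)..((n + 1 : ℕ) : ℝ), f t ^ 2 :=
      h.int (g := fun t => f t ^ 2) (by fun_prop) n
    rw [e1, ← intervalIntegral.integral_const_mul]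
    have hnN : ((n + 1 : ℕ) : ℝ) ≤ N := by exact_mod_cast Finset.mem_range.1 hn
    refine intervalIntegral.integral_mono_on (by push_cast; linarith) ((hf.pow 2).intervalIntegrable _ _)
      ((hf.const_mul s).intervalIntegrable _ _) fun t ht => ?_
    have ht0 : (0 : ℝ) ≤ t := (Nat.cast_nonneg n).trans ht.1
    have h2 := hs t ⟨ht0, ht.2.trans hnN⟩
    rw [sq]
    exact mul_le_mul_of_nonneg_right h2 (hf0 t)
  have hSLp : MemLp (∑ n ∈ Finset.range N, Y n) 2 P := memLp_finset_sum' _ fun n _ => hLp n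
  have h3 := meas_ge_le_variance_div_sq hSLp (mul_pos hη hM)
  rw [hmean] at h3
  have e2 : {ω | η * MI f N ≤ |(∑ n ∈ Finset.range N, Y n) ω - MI f N|} =
      {ω | η * MI f N ≤ |∑ n ∈ Finset.range N, f (X n ω) - MI f N|} := by
    ext ω
    simp [hY, Finset.sum_apply]
  rw [e2] at h3
  refine h3.trans (ENNReal.ofReal_le_ofReal ?_)
  rw [div_le_div_iff₀ (by positivity) (by positivity)]
  calc variance (∑ n ∈ Finset.range N, Y n) P * (η ^ 2 * MI f N)
      ≤ s * MI f N * (η ^ 2 * MI f N) := mul_le_mul_of_nonneg_right hvar (by positivity)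
    _ = s * (η * MI f N) ^ 2 := by ring

/-- **Law of large numbers** -/
theorem lln [IsProbabilityMeasure P] (h : UPts P X) (hf : Continuous f) (hf0 : ∀ t, 0 ≤ f t) {s : ℕ → ℝ}
    (hs : ∀ N : ℕ, ∀ t ∈ Icc (0 : ℝ) N, f t ≤ s N) {C : ℝ}
    (hC : ∀ᶠ N : ℕ in atTop, s N * Real.log (MI f N) ^ 2 ≤ C * MI f N) (hM : Tendsto (MI f) atTop atTop) :
    ∀ᵐ ω ∂P, Tendsto (fun N : ℕ => (∑ n ∈ Finset.range N, f (X n ω)) / MI f N) atTop (𝓝 1) := by
  have hmono := MI_mono hf hf0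
  have hs0 : ∀ N, 0 ≤ s N := fun N => (hf0 0).trans (hs N 0 ⟨le_rfl, Nat.cast_nonneg N⟩)
  set e : ℕ → ℝ := fun j => Real.exp ((j : ℝ) ^ (3 / 4 : ℝ)) with he
  have he1 : ∀ j, 1 ≤ e j := fun j => Real.one_le_exp (by positivity)
  have hex : ∀ j, ∃ N, e j ≤ MI f N := fun j => (hM.eventually_ge_atTop (e j)).exists
  classical
  set nn : ℕ → ℕ := fun j => Nat.find (hex j) with hnn
  have hnn1 : ∀ j, e j ≤ MI f (nn j) := fun j => Nat.find_spec (hex j)
  have hnnmin : ∀ j N, e j ≤ MI f N → nn j ≤ N := fun j N hN => Nat.find_min' (hex j) hN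
  have hnn2 : ∀ j, MI f (nn j) ≤ e j + s (nn j) := by
    intro j
    have hpos : nn j ≠ 0 := by
      intro h0
      have h1 := hnn1 j
      rw [h0, MI_zero] at h1
      linarith [he1 j]
    obtain ⟨m, hm⟩ := Nat.exists_eq_succ_of_ne_zero hpos
    have hlt : MI f m < e j := by
      by_contra hcon
      push Not at hcon
      have := hnnmin j m hcon
      omega
    rw [hm, Nat.succ_eq_add_one, MI_succ hf]
    have h2 : ∫ t in (m : ℝ)..((m + 1 : ℕ) : ℝ), f t ≤ s (m + 1) := by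
      have h3 := intervalIntegral.integral_mono_on (μ := volume) (a := (m : ℝ)) (b := ((m + 1 : ℕ) : ℝ))
        (f := f) (g := fun _ => s (m + 1)) (by push_cast; linarith) (hf.intervalIntegrable _ _)
        intervalIntegrable_const (fun t ht => hs (m + 1) t ⟨(Nat.cast_nonneg m).trans ht.1, ht.2⟩)
      refine h3.trans (le_of_eq ?_)
      rw [intervalIntegral.integral_const, smul_eq_mul]
      push_cast
      ring
    linarith
  have hj34 : Tendsto (fun j : ℕ => (j : ℝ) ^ (3 / 4 : ℝ)) atTop atTop :=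
    (tendsto_rpow_atTop (by norm_num)).comp tendsto_natCast_atTop_atTop
  have hetop : Tendsto e atTop atTop := Real.tendsto_exp_atTop.comp hj34
  have hnntop : Tendsto nn atTop atTop := by
    rw [tendsto_atTop]
    intro K
    filter_upwards [hetop.eventually_gt_atTop (MI f K)] with j hj
    by_contra hcon
    push Not at hcon
    have h1 := hmono hcon.le
    linarith [hnn1 j]
  -- the relative size of the largest term
  have hrel : ∀ᶠ j : ℕ in atTop, s (nn j) ≤ |C| / (j : ℝ) ^ (3 / 2 : ℝ) * MI f (nn j) := by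
    filter_upwards [hnntop.eventually hC, eventually_ge_atTop 1] with j hj hj1
    have hj1R : (1 : ℝ) ≤ j := by exact_mod_cast hj1
    have h1 : (j : ℝ) ^ (3 / 4 : ℝ) ≤ Real.log (MI f (nn j)) := by
      rw [Real.le_log_iff_exp_le (by linarith [hnn1 j, he1 j])]
      exact hnn1 j
    have h2 : (j : ℝ) ^ (3 / 2 : ℝ) ≤ Real.log (MI f (nn j)) ^ 2 := by
      have h3 : (j : ℝ) ^ (3 / 2 : ℝ) = ((j : ℝ) ^ (3 / 4 : ℝ)) ^ 2 := by
        rw [← Real.rpow_natCast, ← Real.rpow_mul (by linarith)]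
        norm_num
      rw [h3]
      exact pow_le_pow_left₀ (by positivity) h1 2
    have hp : (0 : ℝ) < (j : ℝ) ^ (3 / 2 : ℝ) := by positivity
    rw [div_mul_eq_mul_div, le_div_iff₀ hp]
    have hM0 : 0 ≤ MI f (nn j) := by linarith [hnn1 j, he1 j]
    calc s (nn j) * (j : ℝ) ^ (3 / 2 : ℝ) ≤ s (nn j) * Real.log (MI f (nn j)) ^ 2 :=
          mul_le_mul_of_nonneg_left h2 (hs0 _)
      _ ≤ C * MI f (nn j) := hj
      _ ≤ |C| * MI f (nn j) := mul_le_mul_of_nonneg_right (le_abs_self C) hM0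
  -- Borel-Cantelli
  have hBC : ∀ κ : ℝ, 0 < κ → ∀ᵐ ω ∂P, ∀ᶠ j : ℕ in atTop,
      |∑ n ∈ Finset.range (nn j), f (X n ω) - MI f (nn j)| < κ * MI f (nn j) := by
    intro κ hκ
    obtain ⟨J₀, hJ₀⟩ := eventually_atTop.1 (hrel.and (eventually_ge_atTop 1))
    set A : ℕ → Set Ω := fun j => {ω | κ * MI f (nn (j + J₀)) ≤
      |∑ n ∈ Finset.range (nn (j + J₀)), f (X n ω) - MI f (nn (j + J₀))|} with hA
    have hsum : ∑' j, P (A j) ≠ ⊤ := by
      have h1 : ∀ j, P (A j) ≤ ENNReal.ofReal (|C| / κ ^ 2 * (1 / ((j + J₀ : ℕ) : ℝ) ^ (3 / 2 : ℝ))) := by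
        intro j
        obtain ⟨h2, h3⟩ := hJ₀ (j + J₀) (by omega)
        have hMp : 0 < MI f (nn (j + J₀)) := by linarith [hnn1 (j + J₀), he1 (j + J₀)]
        have h3R : (1 : ℝ) ≤ ((j + J₀ : ℕ) : ℝ) := by exact_mod_cast h3
        refine (dev h hf hf0 (hs (nn (j + J₀))) hκ hMp).trans (ENNReal.ofReal_le_ofReal ?_)
        rw [div_le_iff₀ (by positivity)]
        refine h2.trans (le_of_eq ?_)
        field_simp
      refine ne_top_of_le_ne_top ?_ (ENNReal.tsum_le_tsum h1)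
      have h2 : Summable fun j : ℕ => 1 / ((j + J₀ : ℕ) : ℝ) ^ (3 / 2 : ℝ) :=
        (summable_nat_add_iff (f := fun n : ℕ => 1 / (n : ℝ) ^ (3 / 2 : ℝ)) J₀).2
          (Real.summable_one_div_nat_rpow.2 (by norm_num))
      exact (h2.mul_left (|C| / κ ^ 2)).tsum_ofReal_ne_top
    filter_upwards [ae_eventually_notMem hsum] with ω hω
    obtain ⟨J₁, hJ₁⟩ := eventually_atTop.1 hω
    filter_upwards [eventually_ge_atTop (J₁ + J₀)] with j hj
    have h1 := hJ₁ (j - J₀) (by omega)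
    have e1 : j - J₀ + J₀ = j := by omega
    simp only [hA, mem_setOf_eq, e1, not_le] at h1
    exact h1
  have hall := ae_all_iff.2 fun m : ℕ => hBC (1 / ((m : ℝ) + 2)) (by positivity)
  filter_upwards [hall] with ω hω
  set S : ℕ → ℝ := fun N => ∑ n ∈ Finset.range N, f (X n ω) with hS
  have hSmono : Monotone S := by
    apply monotone_nat_of_le_succ
    intro N
    simp only [hS]
    rw [Finset.sum_range_succ]
    linarith [hf0 (X N ω)]
  rw [Metric.tendsto_atTop]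
  intro ε hε
  obtain ⟨m, hm⟩ := exists_nat_gt (7 / ε)
  set κ : ℝ := 1 / ((m : ℝ) + 2) with hκd
  have hκ0 : 0 < κ := by positivity
  have hκ1 : κ ≤ 1 / 2 := by
    rw [hκd]
    apply one_div_le_one_div_of_le (by norm_num)
    have : (0 : ℝ) ≤ (m : ℝ) := Nat.cast_nonneg m
    linarith
  have hκε : 7 * κ < ε := by
    rw [hκd, mul_one_div, div_lt_iff₀ (by positivity)]
    rw [div_lt_iff₀ hε] at hm
    nlinarith
  have hF1 := hω m
  have hF2 : ∀ᶠ j : ℕ in atTop, MI f (nn j) ≤ (1 + κ) * e j := by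
    have h1 : Tendsto (fun j : ℕ => |C| / (j : ℝ) ^ (3 / 2 : ℝ)) atTop (𝓝 0) :=
      tendsto_const_nhds.div_atTop ((tendsto_rpow_atTop (by norm_num)).comp tendsto_natCast_atTop_atTop)
    have h2 : (0 : ℝ) < κ / (1 + κ) := by positivity
    filter_upwards [hrel, h1.eventually (gt_mem_nhds h2)] with j hj1 hj2
    have hMp : 0 < MI f (nn j) := by linarith [hnn1 j, he1 j]
    have h3 := hnn2 j
    have h4 : s (nn j) ≤ κ / (1 + κ) * MI f (nn j) :=
      hj1.trans (mul_le_mul_of_nonneg_right hj2.le hMp.le)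
    have h5 : κ / (1 + κ) * MI f (nn j) * (1 + κ) = κ * MI f (nn j) := by field_simp
    nlinarith
  have hF3 : ∀ᶠ j : ℕ in atTop, e (j + 1) ≤ (1 + κ) * e j := by
    have h1 : Tendsto (fun j : ℕ => Real.exp ((j : ℝ) ^ (-(1 / 4) : ℝ))) atTop (𝓝 1) := by
      have h2 : Tendsto (fun j : ℕ => (j : ℝ) ^ (-(1 / 4) : ℝ)) atTop (𝓝 0) :=
        (tendsto_rpow_neg_atTop (by norm_num)).comp tendsto_natCast_atTop_atTop
      have h3 := (Real.continuous_exp.tendsto 0).comp h2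
      rw [Real.exp_zero] at h3
      exact h3
    filter_upwards [h1.eventually (gt_mem_nhds (by linarith : (1 : ℝ) < 1 + κ)), eventually_ge_atTop 1]
      with j hj hj1
    have hj1R : (1 : ℝ) ≤ j := by exact_mod_cast hj1
    have hjp : (0 : ℝ) < j := by linarith
    have h2 : ((j + 1 : ℕ) : ℝ) ^ (3 / 4 : ℝ) ≤ (j : ℝ) ^ (3 / 4 : ℝ) + (j : ℝ) ^ (-(1 / 4) : ℝ) := by
      push_cast
      have e1 : ((j : ℝ) + 1) ^ (3 / 4 : ℝ) = ((j : ℝ) + 1) * ((j : ℝ) + 1) ^ (-(1 / 4) : ℝ) := by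
        rw [show (3 / 4 : ℝ) = 1 + -(1 / 4) by norm_num, Real.rpow_add (by linarith), Real.rpow_one]
      have e2 : (j : ℝ) ^ (3 / 4 : ℝ) = (j : ℝ) * (j : ℝ) ^ (-(1 / 4) : ℝ) := by
        rw [show (3 / 4 : ℝ) = 1 + -(1 / 4) by norm_num, Real.rpow_add hjp, Real.rpow_one]
      rw [e1, e2]
      have h3 : ((j : ℝ) + 1) ^ (-(1 / 4) : ℝ) ≤ (j : ℝ) ^ (-(1 / 4) : ℝ) :=
        Real.rpow_le_rpow_of_nonpos hjp (by linarith) (by norm_num)
      nlinarith
    calc e (j + 1) ≤ Real.exp ((j : ℝ) ^ (3 / 4 : ℝ) + (j : ℝ) ^ (-(1 / 4) : ℝ)) := Real.exp_le_exp.2 h2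
      _ = Real.exp ((j : ℝ) ^ (-(1 / 4) : ℝ)) * e j := by rw [Real.exp_add, mul_comm]
      _ ≤ (1 + κ) * e j := mul_le_mul_of_nonneg_right hj.le (by linarith [he1 j])
  have hF : ∀ᶠ j : ℕ in atTop, (|S (nn j) - MI f (nn j)| < κ * MI f (nn j)) ∧
      (|S (nn (j + 1)) - MI f (nn (j + 1))| < κ * MI f (nn (j + 1))) ∧ MI f (nn (j + 1)) ≤ (1 + κ) * e (j + 1) ∧
      e (j + 1) ≤ (1 + κ) * e j := by
    have t1 := (tendsto_add_atTop_nat 1).eventually hF1
    have t2 := (tendsto_add_atTop_nat 1).eventually hF2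
    filter_upwards [hF1, t1, t2, hF3] with j a1 a2 a3 a4
    exact ⟨a1, a2, a3, a4⟩
  have hjN : Tendsto (fun N : ℕ => ⌊Real.log (MI f N) ^ (4 / 3 : ℝ)⌋₊) atTop atTop :=
    tendsto_nat_floor_atTop.comp ((tendsto_rpow_atTop (by norm_num)).comp (Real.tendsto_log_atTop.comp hM))
  obtain ⟨N₀, hN₀⟩ := eventually_atTop.1 ((hjN.eventually hF).and (hM.eventually_ge_atTop 1))
  refine ⟨N₀, fun N hN => ?_⟩
  obtain ⟨⟨a1, a2, a3, a4⟩, hMN⟩ := hN₀ N hN
  set j : ℕ := ⌊Real.log (MI f N) ^ (4 / 3 : ℝ)⌋₊ with hj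
  have hMp : 0 < MI f N := by linarith
  have hlog : 0 ≤ Real.log (MI f N) := Real.log_nonneg hMN
  have hpow : (Real.log (MI f N) ^ (4 / 3 : ℝ)) ^ (3 / 4 : ℝ) = Real.log (MI f N) := by
    rw [← Real.rpow_mul hlog]
    norm_num
  have hj1 : e j ≤ MI f N := by
    have h1 : (j : ℝ) ≤ Real.log (MI f N) ^ (4 / 3 : ℝ) := Nat.floor_le (by positivity)
    have h2 : (j : ℝ) ^ (3 / 4 : ℝ) ≤ Real.log (MI f N) := by
      rw [← hpow]
      exact Real.rpow_le_rpow (Nat.cast_nonneg _) h1 (by norm_num)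
    rwa [Real.le_log_iff_exp_le hMp] at h2
  have hj2 : MI f N < e (j + 1) := by
    have h1 : Real.log (MI f N) ^ (4 / 3 : ℝ) < ((j + 1 : ℕ) : ℝ) := by
      push_cast
      exact Nat.lt_floor_add_one _
    have h2 : Real.log (MI f N) < ((j + 1 : ℕ) : ℝ) ^ (3 / 4 : ℝ) := by
      calc Real.log (MI f N) = (Real.log (MI f N) ^ (4 / 3 : ℝ)) ^ (3 / 4 : ℝ) := hpow.symm
        _ < _ := Real.rpow_lt_rpow (by positivity) h1 (by norm_num)
    calc MI f N = Real.exp (Real.log (MI f N)) := (Real.exp_log hMp).symm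
      _ < _ := Real.exp_lt_exp.2 h2
  have hle : nn j ≤ N := hnnmin j N hj1
  have hlt : N ≤ nn (j + 1) := by
    by_contra hcon
    push Not at hcon
    have h1 := hmono hcon.le
    linarith [hnn1 (j + 1)]
  have b1 := abs_lt.1 a1
  have b2 := abs_lt.1 a2
  have hup : S N ≤ (1 + κ) ^ 3 * MI f N := by
    have h1 := hSmono hlt
    have h2 : S (nn (j + 1)) ≤ (1 + κ) * MI f (nn (j + 1)) := by linarith [b2.2]
    calc S N ≤ (1 + κ) * MI f (nn (j + 1)) := h1.trans h2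
      _ ≤ (1 + κ) * ((1 + κ) * ((1 + κ) * e j)) := by
          have h3 : MI f (nn (j + 1)) ≤ (1 + κ) * ((1 + κ) * e j) :=
            a3.trans (mul_le_mul_of_nonneg_left a4 (by linarith))
          exact mul_le_mul_of_nonneg_left h3 (by linarith)
      _ = (1 + κ) ^ 3 * e j := by ring
      _ ≤ _ := mul_le_mul_of_nonneg_left hj1 (by positivity)
  have hlow : (1 - κ) * MI f N ≤ (1 + κ) * S N := by
    have h1 := hSmono hle
    have h2 : (1 - κ) * MI f (nn j) ≤ S (nn j) := by linarith [b1.1]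
    have h3 : (1 - κ) * e j ≤ S N :=
      (mul_le_mul_of_nonneg_left (hnn1 j) (by linarith)).trans (h2.trans h1)
    have h4 : MI f N ≤ (1 + κ) * e j := hj2.le.trans a4
    calc (1 - κ) * MI f N ≤ (1 - κ) * ((1 + κ) * e j) := mul_le_mul_of_nonneg_left h4 (by linarith)
      _ = (1 + κ) * ((1 - κ) * e j) := by ring
      _ ≤ _ := mul_le_mul_of_nonneg_left h3 (by linarith)
  rw [Real.dist_eq, abs_lt]
  constructor
  · rw [lt_sub_iff_add_lt, lt_div_iff₀ hMp]
    have h1 : (1 + κ) * S N ≤ S N + κ * ((1 + κ) ^ 3 * MI f N) := by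
      have := mul_le_mul_of_nonneg_left hup hκ0.le
      linarith
    have h2 : (1 + κ) ^ 3 ≤ 4 := by nlinarith [sq_nonneg κ]
    have h3 : κ * ((1 + κ) ^ 3 * MI f N) ≤ κ * (4 * MI f N) := by
      apply mul_le_mul_of_nonneg_left _ hκ0.le
      exact mul_le_mul_of_nonneg_right h2 hMp.le
    nlinarith
  · rw [sub_lt_iff_lt_add, div_lt_iff₀ hMp]
    have h2 : (1 + κ) ^ 3 ≤ 1 + 7 * κ := by nlinarith [sq_nonneg κ, mul_nonneg hκ0.le (sq_nonneg κ)]
    have h3 := mul_le_mul_of_nonneg_right h2 hMp.le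
    nlinarith

end Pool.Agent.Q231.RS
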