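import Pool.Agent.Q231.RS.Mom

/-!
# Random sampling of the moments of zeta: from the samples to the moment
-/

set_option autoImplicit false

open MeasureTheory Filter Topology Set Real

namespace Pool.Agent.Q231.RS

open Pool.Agent.W188.Mom

variable {Ω : Type*} [MeasurableSpace Ω] {J : Type*}

/-- a sum over events of probability at least `q` is at least `q / 2` times its maximum, with probability at
least `q / 2` -/
lemma frac {ι : Type*} {P : Measure Ω} [IsProbabilityMeasure P] (D : Finset ι) (w : ι → ENNReal)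
    (hw : ∑ n ∈ D, w n ≠ ⊤) {A : ι → Set Ω} (hA : ∀ n ∈ D, MeasurableSet (A n)) {q : ENNReal} (hq1 : q ≤ 1)
    (hq : ∀ n ∈ D, q ≤ P (A n)) :
    MeasurableSet {ω | q / 2 * ∑ n ∈ D, w n ≤ ∑ n ∈ D, (A n).indicator (fun _ => w n) ω} ∧
    q / 2 ≤ P {ω | q / 2 * ∑ n ∈ D, w n ≤ ∑ n ∈ D, (A n).indicator (fun _ => w n) ω} := by
  set W := ∑ n ∈ D, w n with hW
  set f : Ω → ENNReal := fun ω => ∑ n ∈ D, (A n).indicator (fun _ => w n) ω with hf
  have hfm : Measurable f := Finset.measurable_sum D fun n hn => measurable_const.indicator (hA n hn)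
  have hFm : MeasurableSet {ω | q / 2 * W ≤ f ω} := measurableSet_le measurable_const hfm
  refine ⟨hFm, ?_⟩
  rcases eq_or_ne W 0 with h0 | h0
  · have : {ω | q / 2 * W ≤ f ω} = univ := by
      ext ω; simp [h0]
    rw [this, measure_univ]
    exact (ENNReal.half_le_self).trans hq1
  have h1 : q * W ≤ ∫⁻ ω, f ω ∂P := by
    rw [hf, lintegral_finsetSum' D fun n hn => (measurable_const.indicator (hA n hn)).aemeasurable, hW,
      Finset.mul_sum]
    refine Finset.sum_le_sum fun n hn => ?_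
    rw [lintegral_indicator (hA n hn), setLIntegral_const, mul_comm]
    gcongr
    exact hq n hn
  set F : Set Ω := {ω | q / 2 * W ≤ f ω} with hF
  have hfW : ∀ ω, f ω ≤ W := fun ω => Finset.sum_le_sum fun n _ => indicator_le_self _ _ _
  have h2 : ∫⁻ ω, f ω ∂P ≤ W * P F + q / 2 * W := by
    rw [← lintegral_add_compl f hFm]
    refine add_le_add ?_ ?_
    · calc ∫⁻ ω in F, f ω ∂P ≤ ∫⁻ _ in F, W ∂P := lintegral_mono fun ω => hfW ω
        _ = W * P F := by rw [setLIntegral_const]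
    · calc ∫⁻ ω in Fᶜ, f ω ∂P ≤ ∫⁻ _ in Fᶜ, q / 2 * W ∂P := by
            refine setLIntegral_mono measurable_const fun ω hω => ?_
            have : ¬ (q / 2 * W ≤ f ω) := hω
            exact (not_le.1 this).le
        _ = q / 2 * W * P Fᶜ := by rw [setLIntegral_const]
        _ ≤ q / 2 * W * 1 := by gcongr; exact prob_le_one
        _ = q / 2 * W := mul_one _
  have h3 : q * W ≤ (P F + q / 2) * W := by
    refine (h1.trans h2).trans (le_of_eq ?_)
    ring
  have h4 : q ≤ P F + q / 2 := by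
    rwa [ENNReal.mul_le_mul_iff_left h0 hw] at h3
  have hq2 : q / 2 ≠ ⊤ := ne_top_of_le_ne_top ENNReal.one_ne_top (ENNReal.half_le_self.trans hq1)
  have h5 : q / 2 + q / 2 ≤ P F + q / 2 := by rwa [ENNReal.add_halves]
  exact (ENNReal.add_le_add_iff_right hq2).1 h5

/-- at most three of the points `x n ∈ [n, n + 1]` lie within `1 / 2` of a given point -/
lemma card_win {x : ℕ → ℝ} (hx : ∀ n : ℕ, x n ∈ Icc (n : ℝ) (n + 1)) (D : Finset ℕ) (v : ℝ) :
    (D.filter fun n => |v - x n| ≤ 1 / 2).card ≤ 3 := by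
  rcases (D.filter fun n => |v - x n| ≤ 1 / 2).eq_empty_or_nonempty with h0 | h0
  · rw [h0]; simp
  set a := (D.filter fun n => |v - x n| ≤ 1 / 2).min' h0 with ha
  have ha1 : a ∈ D.filter fun n => |v - x n| ≤ 1 / 2 := Finset.min'_mem _ h0
  have hsub : (D.filter fun n => |v - x n| ≤ 1 / 2) ⊆ Finset.Icc a (a + 2) := by
    intro n hn
    rw [Finset.mem_Icc]
    refine ⟨Finset.min'_le _ _ hn, ?_⟩
    have h1 := abs_le.1 (Finset.mem_filter.1 ha1).2
    have h2 := abs_le.1 (Finset.mem_filter.1 hn).2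
    have h3 := hx a
    have h4 := hx n
    have h5 : (n : ℝ) ≤ a + 2 := by linarith [h3.1, h3.2, h4.1, h4.2, h1.1, h1.2, h2.1, h2.2]
    exact_mod_cast h5
  refine (Finset.card_le_card hsub).trans ?_
  rw [Nat.card_Icc]
  omega

/-- the integral is at most the sum of the maxima -/
lemma int_le_sum {p : ℝ} (hp : 0 < p) {x : ℕ → ℝ} (hmax : ∀ n : ℕ, ∀ t ∈ Icc (n : ℝ) (n + 1), Z t ≤ Z (x n))
    {T : ℝ} (hT : 0 ≤ T) {N : ℕ} (hN : T ≤ N) :
    ∫ t in (0 : ℝ)..T, Z t ^ p ≤ ∑ n ∈ Finset.range N, Z (x n) ^ p := by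
  refine (mono_int hp le_rfl hT hN).trans ?_
  have h1 := intervalIntegral.sum_integral_adjacent_intervals (μ := volume) (f := fun t => Z t ^ p)
    (a := fun k : ℕ => (k : ℝ)) (n := N) (fun k _ => Zp_int hp _ _)
  simp only [Nat.cast_zero] at h1
  rw [← h1]
  refine Finset.sum_le_sum fun n _ => ?_
  have h2 := integral_le_of (p := p) (K := Z (x n)) (a := n) (b := ((n + 1 : ℕ) : ℝ)) hp (by push_cast; linarith)
    (by push_cast; exact hmax n)
  refine h2.trans (le_of_eq ?_)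
  push_cast
  ring

/-- pointwise estimate: the sum over the events is controlled by the sum over the sample -/
lemma point {p e : ℝ} (hp : 0 < p) (he : 0 < e) {x : ℕ → ℝ} (hx : ∀ n : ℕ, x n ∈ Icc (n : ℝ) (n + 1))
    {X : J → Ω → ℝ} (D : Finset ℕ) {N : ℕ} (hD : ∀ n ∈ D, n < N ∧ 1 ≤ n) {A : ℕ → Set Ω}
    (hA : ∀ n ∈ D, ∀ ω ∈ A n, ∃ j, X j ω ∈ Near (2 * e) (x n)) (ω : Ω) :
    ∑ n ∈ D, (A n).indicator (fun _ => ENNReal.ofReal (Z (x n) ^ p)) ω ≤
      ENNReal.ofReal ((N : ℝ) ^ (2 * e * p)) * (3 * SS p X ω (N + 1)) := by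
  classical
  set g : J → ENNReal := fun j => gT p (N + 1) (X j ω) with hg
  have h1 : ∀ n ∈ D, (A n).indicator (fun _ => ENNReal.ofReal (Z (x n) ^ p)) ω ≤
      ENNReal.ofReal ((N : ℝ) ^ (2 * e * p)) * ∑' j, if |X j ω - x n| ≤ 1 / 2 then g j else 0 := by
    intro n hn
    by_cases hω : ω ∈ A n
    · rw [indicator_of_mem hω]
      obtain ⟨j, hj1, hj2⟩ := hA n hn ω hω
      obtain ⟨hnN, hn1⟩ := hD n hn
      have hn1R : (1 : ℝ) ≤ n := by exact_mod_cast hn1
      have hnNR : (n : ℝ) + 1 ≤ N := by exact_mod_cast hnN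
      have hxn := hx n
      have hxn0 : 0 < x n := by linarith [hxn.1]
      have hxN : x n ≤ N := by linarith [hxn.2]
      have h2 := ENNReal.le_tsum (f := fun j => if |X j ω - x n| ≤ 1 / 2 then g j else 0) j
      refine le_trans ?_ (mul_le_mul_right h2 _)
      simp only [hj1, if_true]
      have h3 := abs_le.1 hj1
      have hmem : X j ω ∈ Icc (0 : ℝ) (N + 1) := ⟨by linarith [h3.1, hxn.1], by linarith [h3.2]⟩
      have h4 : g j = ENNReal.ofReal (Z (X j ω) ^ p) := by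
        rw [hg]
        exact indicator_of_mem hmem _
      rw [h4, ← ENNReal.ofReal_mul (by positivity)]
      apply ENNReal.ofReal_le_ofReal
      have h5 : (x n ^ (-(2 * e)) * Z (x n)) ^ p ≤ Z (X j ω) ^ p :=
        Real.rpow_le_rpow (mul_nonneg (by positivity) (Z_nonneg _)) hj2 hp.le
      rw [Real.mul_rpow (by positivity) (Z_nonneg _), ← Real.rpow_mul hxn0.le] at h5
      have h6 : x n ^ (2 * e * p) ≤ (N : ℝ) ^ (2 * e * p) :=
        Real.rpow_le_rpow hxn0.le hxN (by positivity)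
      have h7 : x n ^ (2 * e * p) * x n ^ (-(2 * e) * p) = 1 := by
        rw [← Real.rpow_add hxn0]
        rw [show 2 * e * p + -(2 * e) * p = 0 by ring, Real.rpow_zero]
      calc Z (x n) ^ p = x n ^ (2 * e * p) * (x n ^ (-(2 * e) * p) * Z (x n) ^ p) := by
            rw [← mul_assoc, h7, one_mul]
        _ ≤ (N : ℝ) ^ (2 * e * p) * Z (X j ω) ^ p := by
            refine mul_le_mul h6 h5 (by have := Z_nonneg (x n); positivity) (by positivity)
    · rw [indicator_of_notMem hω]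
      exact bot_le
  refine (Finset.sum_le_sum h1).trans ?_
  rw [← Finset.mul_sum]
  gcongr
  rw [← Summable.tsum_finsetSum fun n _ => ENNReal.summable]
  unfold SS
  rw [← ENNReal.tsum_mul_left]
  refine ENNReal.tsum_le_tsum fun j => ?_
  rw [← Finset.sum_filter, Finset.sum_const, nsmul_eq_mul]
  gcongr
  have h3 := card_win hx D (X j ω)
  exact_mod_cast h3

/-- **from the samples to the moment** -/
theorem mom_of_samp [Countable J] {P : Measure Ω} [IsProbabilityMeasure P] {p m : ℝ} (hp : 0 < p) (hm : 1 ≤ m)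
    {X : J → Ω → ℝ} (hX : ∀ j, Measurable (X j)) {c : ℝ} (hc : 0 < c) {n₀ : ℤ}
    (hit : Hits P X c (fun n => n₀ ≤ n)) (h : ∀ᵐ ω ∂P, SampBd p m X ω) : MomBd p m := by
  intro ε hε
  by_contra hcon
  push Not at hcon
  set e : ℝ := ε / (8 * p) with he
  have he0 : 0 < e := by positivity
  have hep : 2 * e * p = ε / 4 := by rw [he]; field_simp; norm_num
  obtain ⟨δ, V, hδ, hV, hper⟩ := unif he0
  -- the maxima
  have hmaxex : ∀ n : ℕ, ∃ x ∈ Icc (n : ℝ) (n + 1), ∀ t ∈ Icc (n : ℝ) (n + 1), Z t ≤ Z x := by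
    intro n
    obtain ⟨x, hx, hmax⟩ := (isCompact_Icc (a := (n : ℝ)) (b := n + 1)).exists_isMaxOn
      ⟨n, le_rfl, by linarith⟩ Z_cont.continuousOn
    exact ⟨x, hx, fun t ht => hmax ht⟩
  choose x hx hmax using hmaxex
  -- the threshold
  obtain ⟨n₁, hn₁⟩ := exists_nat_ge (max V (n₀ + 3))
  have hn₁V : V ≤ n₁ := (le_max_left _ _).trans hn₁
  have hn₁0 : (n₀ : ℝ) + 3 ≤ n₁ := (le_max_right _ _).trans hn₁
  -- the windows
  have hwin : ∀ n : ℕ, ∃ k : ℤ, (n₁ ≤ n ∧ x n ^ (2 * e) < Z (x n)) → n₀ ≤ k ∧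
      ENNReal.ofReal δ ≤ volume (Near (2 * e) (x n) ∩ Icc (k : ℝ) (k + 1)) := by
    intro n
    by_cases hn : n₁ ≤ n ∧ x n ^ (2 * e) < Z (x n)
    · have hnR : (n₁ : ℝ) ≤ n := by exact_mod_cast hn.1
      have h1 := hper (x n) (by linarith [(hx n).1]) hn.2
      obtain ⟨k, hk1, _, hk3⟩ := split_unit (E := Near (2 * e) (x n)) (T := x n) (a := δ)
        (fun y hy => hy.1) hδ.le h1
      refine ⟨k, fun _ => ⟨?_, hk3⟩⟩
      have : (n₀ : ℝ) ≤ k := by linarith [(hx n).1]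
      exact_mod_cast this
    · exact ⟨0, fun h => absurd h hn⟩
  choose k hk using hwin
  set E : ℕ → Set ℝ := fun n => Near (2 * e) (x n) ∩ Icc (k n : ℝ) (k n + 1) with hE
  have hEm : ∀ n, MeasurableSet (E n) := fun n => (Near_meas _ _).inter measurableSet_Icc
  set A : ℕ → Set Ω := fun n => {ω | ∃ j, X j ω ∈ E n} with hA
  have hAm : ∀ n, MeasurableSet (A n) := fun n => hit_meas hX (hEm n)
  set c' : ℝ := min c 1 with hc'
  set δ' : ℝ := min δ 1 with hδ'
  have hc'0 : 0 < c' := lt_min hc one_pos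
  have hδ'0 : 0 < δ' := lt_min hδ one_pos
  set q : ℝ := c' * δ' with hq
  have hq0 : 0 < q := by positivity
  have hq1 : q ≤ 1 := by
    have h1 : c' ≤ 1 := min_le_right _ _
    have h2 : δ' ≤ 1 := min_le_right _ _
    calc q = c' * δ' := rfl
      _ ≤ 1 * 1 := mul_le_mul h1 h2 hδ'0.le zero_le_one
      _ = 1 := one_mul 1
  have hAp : ∀ n : ℕ, (n₁ ≤ n ∧ x n ^ (2 * e) < Z (x n)) → ENNReal.ofReal q ≤ P (A n) := by
    intro n hn
    obtain ⟨h1, h2⟩ := hk n hn
    refine le_trans ?_ (hit (k n) h1 (E n) (hEm n) inter_subset_right)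
    rw [hq, ENNReal.ofReal_mul hc'0.le]
    gcongr
    · exact min_le_left _ _
    · refine le_trans ?_ h2
      exact ENNReal.ofReal_le_ofReal (min_le_left _ _)
  classical
  set D : ℕ → Finset ℕ := fun N => (Finset.range N).filter fun n => n₁ ≤ n ∧ x n ^ (2 * e) < Z (x n) with hD
  set C₁ : ℝ := ∑ n ∈ Finset.range n₁, Z (x n) ^ p with hC₁
  have hw0 : ∀ n, 0 ≤ Z (x n) ^ p := fun n => Real.rpow_nonneg (Z_nonneg _) p
  have hC₁0 : 0 ≤ C₁ := Finset.sum_nonneg fun n _ => hw0 n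
  -- splitting the sum of the maxima
  have hsplit : ∀ N : ℕ, 1 ≤ N → ∑ n ∈ Finset.range N, Z (x n) ^ p ≤
      C₁ + (N : ℝ) * (N : ℝ) ^ (ε / 4) + ∑ n ∈ D N, Z (x n) ^ p := by
    intro N hN
    have hNR : (1 : ℝ) ≤ N := by exact_mod_cast hN
    have h1 : ∀ n ∈ Finset.range N, Z (x n) ^ p ≤
        (if n < n₁ then Z (x n) ^ p else 0) + (N : ℝ) ^ (ε / 4) +
          (if n₁ ≤ n ∧ x n ^ (2 * e) < Z (x n) then Z (x n) ^ p else 0) := by
      intro n hn
      have hpos : (0 : ℝ) ≤ (N : ℝ) ^ (ε / 4) := by positivity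
      by_cases h2 : n < n₁
      · have h3 : ¬ (n₁ ≤ n ∧ x n ^ (2 * e) < Z (x n)) := fun h => absurd h.1 (not_le.2 h2)
        simp only [h2, h3, if_true, if_false]
        linarith
      · by_cases h3 : x n ^ (2 * e) < Z (x n)
        · have h4 : n₁ ≤ n ∧ x n ^ (2 * e) < Z (x n) := ⟨not_lt.1 h2, h3⟩
          simp only [h2, h4, if_true, if_false, and_self]
          linarith
        · have h4 : ¬ (n₁ ≤ n ∧ x n ^ (2 * e) < Z (x n)) := fun h => h3 h.2
          simp only [h2, h4, if_false]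
          have h5 : Z (x n) ≤ x n ^ (2 * e) := not_lt.1 h3
          have hx0 : 0 ≤ x n := (Nat.cast_nonneg n).trans (hx n).1
          have h6 : Z (x n) ^ p ≤ (x n ^ (2 * e)) ^ p := Real.rpow_le_rpow (Z_nonneg _) h5 hp.le
          rw [← Real.rpow_mul hx0, hep] at h6
          have h7 : x n ≤ N := by
            have : (n : ℝ) + 1 ≤ N := by exact_mod_cast Finset.mem_range.1 hn
            linarith [(hx n).2]
          have h8 : x n ^ (ε / 4) ≤ (N : ℝ) ^ (ε / 4) := Real.rpow_le_rpow hx0 h7 (by positivity)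
          linarith
    refine (Finset.sum_le_sum h1).trans ?_
    rw [Finset.sum_add_distrib, Finset.sum_add_distrib, Finset.sum_const, Finset.card_range, nsmul_eq_mul,
      ← Finset.sum_filter, ← Finset.sum_filter]
    have h2 : ∑ n ∈ (Finset.range N).filter (fun n => n < n₁), Z (x n) ^ p ≤ C₁ := by
      refine Finset.sum_le_sum_of_subset_of_nonneg ?_ fun n _ _ => hw0 n
      intro n hn
      exact Finset.mem_range.2 (Finset.mem_filter.1 hn).2
    linarith
  -- the bad heights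
  have hbad : ∀ i : ℕ, ∃ N : ℕ, 1 ≤ N ∧ ((i : ℝ) + 1) * (N : ℝ) ^ (m + ε) ≤ ∑ n ∈ D N, Z (x n) ^ p := by
    intro i
    obtain ⟨T, hT1, hT⟩ := hcon ((2 : ℝ) ^ (m + ε) * (i + 2 + C₁))
    set N : ℕ := ⌈T⌉₊ with hN
    have hTN : T ≤ N := Nat.le_ceil T
    have hN1 : 1 ≤ N := by
      have : (1 : ℝ) ≤ N := hT1.trans hTN
      exact_mod_cast this
    have hN2 : (N : ℝ) ≤ 2 * T := by
      have := Nat.ceil_lt_add_one (by linarith : (0 : ℝ) ≤ T)
      linarith
    have hNR : (1 : ℝ) ≤ N := by exact_mod_cast hN1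
    refine ⟨N, hN1, ?_⟩
    have h1 := int_le_sum hp hmax (by linarith : (0 : ℝ) ≤ T) hTN
    have h2 := hsplit N hN1
    have h3 : (N : ℝ) ^ (m + ε) ≤ 2 ^ (m + ε) * T ^ (m + ε) := by
      rw [← Real.mul_rpow (by norm_num) (by linarith)]
      exact Real.rpow_le_rpow (by positivity) hN2 (by linarith)
    have h4 : (N : ℝ) * (N : ℝ) ^ (ε / 4) ≤ (N : ℝ) ^ (m + ε) := by
      calc (N : ℝ) * (N : ℝ) ^ (ε / 4) = (N : ℝ) ^ (1 + ε / 4) := by
            rw [Real.rpow_add (by linarith), Real.rpow_one]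
        _ ≤ (N : ℝ) ^ (m + ε) := Real.rpow_le_rpow_of_exponent_le hNR (by linarith)
    have h5 : 1 ≤ (N : ℝ) ^ (m + ε) := Real.one_le_rpow hNR (by linarith)
    have h6 : C₁ ≤ C₁ * (N : ℝ) ^ (m + ε) := le_mul_of_one_le_right hC₁0 h5
    have h7 : ((i : ℝ) + 2 + C₁) * (N : ℝ) ^ (m + ε) ≤ (2 : ℝ) ^ (m + ε) * (i + 2 + C₁) * T ^ (m + ε) := by
      have h8 : (0 : ℝ) ≤ (i : ℝ) + 2 + C₁ := by positivity
      calc ((i : ℝ) + 2 + C₁) * (N : ℝ) ^ (m + ε) ≤ ((i : ℝ) + 2 + C₁) * (2 ^ (m + ε) * T ^ (m + ε)) :=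
            mul_le_mul_of_nonneg_left h3 h8
        _ = _ := by ring
    nlinarith
  choose N hN1 hNbad using hbad
  -- the events
  set F : ℕ → Set Ω := fun i => {ω | ENNReal.ofReal q / 2 * ∑ n ∈ D (N i), ENNReal.ofReal (Z (x n) ^ p) ≤
    ∑ n ∈ D (N i), (A n).indicator (fun _ => ENNReal.ofReal (Z (x n) ^ p)) ω} with hF
  have hFr : ∀ i, MeasurableSet (F i) ∧ ENNReal.ofReal q / 2 ≤ P (F i) := by
    intro i
    refine frac (D (N i)) (fun n => ENNReal.ofReal (Z (x n) ^ p)) ?_ (fun n _ => hAm n) ?_ ?_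
    · rw [← ENNReal.ofReal_sum_of_nonneg fun n _ => hw0 n]
      exact ENNReal.ofReal_ne_top
    · rw [← ENNReal.ofReal_one]
      exact ENNReal.ofReal_le_ofReal hq1
    · intro n hn
      exact hAp n (Finset.mem_filter.1 hn).2
  have hqpos : 0 < ENNReal.ofReal q / 2 := ENNReal.half_pos (by simpa using hq0)
  obtain ⟨ω, hω, hfr⟩ := exists_freq (fun i => (hFr i).1) hqpos (fun i => (hFr i).2) h
  obtain ⟨B, hB⟩ := hω (ε / 2) (by linarith)
  set K : ℝ := 6 * |B| * 2 ^ (m + ε / 2) / q with hK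
  obtain ⟨i₁, hi₁⟩ := exists_nat_ge K
  obtain ⟨i, hiF, hi⟩ := (hfr.and_eventually (eventually_ge_atTop i₁)).exists
  have hNR : (1 : ℝ) ≤ N i := by exact_mod_cast hN1 i
  have h1 : ENNReal.ofReal q / 2 * ∑ n ∈ D (N i), ENNReal.ofReal (Z (x n) ^ p) ≤
      ENNReal.ofReal ((N i : ℝ) ^ (2 * e * p)) * (3 * SS p X ω (N i + 1)) := by
    refine le_trans hiF ?_
    refine point hp he0 hx (D (N i)) ?_ ?_ ω
    · intro n hn
      obtain ⟨h2, h3, _⟩ := Finset.mem_filter.1 hn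
      refine ⟨Finset.mem_range.1 h2, ?_⟩
      have : (1 : ℝ) ≤ n := by
        have : (n₁ : ℝ) ≤ n := by exact_mod_cast h3
        linarith
      exact_mod_cast this
    · rintro n _ ω' ⟨j, hj⟩
      exact ⟨j, hj.1⟩
  have h2 := hB (N i + 1) (by linarith)
  rw [hep] at h1
  have h3 : ENNReal.ofReal (q / 2 * ∑ n ∈ D (N i), Z (x n) ^ p) ≤
      ENNReal.ofReal ((N i : ℝ) ^ (ε / 4) * (3 * (|B| * ((N i : ℝ) + 1) ^ (m + ε / 2)))) := by
    rw [ENNReal.ofReal_mul (by positivity), ENNReal.ofReal_sum_of_nonneg fun n _ => hw0 n,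
      ENNReal.ofReal_mul (by positivity), ENNReal.ofReal_mul (by norm_num : (0 : ℝ) ≤ 3)]
    have e1 : ENNReal.ofReal (q / 2) = ENNReal.ofReal q / 2 := by
      rw [ENNReal.ofReal_div_of_pos (by norm_num)]
      simp
    have e2 : ENNReal.ofReal 3 = 3 := by simp
    rw [e1, e2]
    refine h1.trans ?_
    gcongr
    refine h2.trans ?_
    apply ENNReal.ofReal_le_ofReal
    exact mul_le_mul_of_nonneg_right (le_abs_self B) (by positivity)
  rw [ENNReal.ofReal_le_ofReal_iff (by positivity)] at h3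
  have h4 := hNbad i
  have h5 : ((N i : ℝ) + 1) ^ (m + ε / 2) ≤ 2 ^ (m + ε / 2) * (N i : ℝ) ^ (m + ε / 2) := by
    rw [← Real.mul_rpow (by norm_num) (by linarith)]
    exact Real.rpow_le_rpow (by positivity) (by linarith) (by linarith)
  have h6 : (N i : ℝ) ^ (ε / 4) * (N i : ℝ) ^ (m + ε / 2) ≤ (N i : ℝ) ^ (m + ε) := by
    rw [← Real.rpow_add (by linarith)]
    exact Real.rpow_le_rpow_of_exponent_le hNR (by linarith)
  have h7 : (N i : ℝ) ^ (ε / 4) * (3 * (|B| * ((N i : ℝ) + 1) ^ (m + ε / 2))) ≤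
      3 * |B| * 2 ^ (m + ε / 2) * (N i : ℝ) ^ (m + ε) := by
    calc (N i : ℝ) ^ (ε / 4) * (3 * (|B| * ((N i : ℝ) + 1) ^ (m + ε / 2)))
        ≤ (N i : ℝ) ^ (ε / 4) * (3 * (|B| * (2 ^ (m + ε / 2) * (N i : ℝ) ^ (m + ε / 2)))) := by gcongr
      _ = 3 * |B| * 2 ^ (m + ε / 2) * ((N i : ℝ) ^ (ε / 4) * (N i : ℝ) ^ (m + ε / 2)) := by ring
      _ ≤ _ := by gcongr
  have h8 : q / 2 * (((i : ℝ) + 1) * (N i : ℝ) ^ (m + ε)) ≤ 3 * |B| * 2 ^ (m + ε / 2) * (N i : ℝ) ^ (m + ε) :=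
    (mul_le_mul_of_nonneg_left h4 (by positivity)).trans (h3.trans h7)
  have hpos : (0 : ℝ) < (N i : ℝ) ^ (m + ε) := by positivity
  have h9 : q / 2 * ((i : ℝ) + 1) ≤ 3 * |B| * 2 ^ (m + ε / 2) := by
    rw [← mul_assoc] at h8
    exact le_of_mul_le_mul_right h8 hpos
  have h10 : K < (i : ℝ) + 1 := by
    have : (i₁ : ℝ) ≤ i := by exact_mod_cast hi
    linarith
  rw [hK, div_lt_iff₀ hq0] at h10
  nlinarith

end Pool.Agent.Q231.RS
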