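import Pool.Agent.Q231.RS.LLN
import Pool.Agent.Q231.RS.Mom2

/-!
# The law of large numbers for `|ζ(1/2 + it)|^β` at random points
-/

set_option autoImplicit false

open MeasureTheory ProbabilityTheory Filter Topology Set

namespace Pool.Agent.Q231.RS

open Pool.Agent.W188.Mom

/-- `T (log T)^A` -/
noncomputable def gA (A : ℝ) (T : ℝ) : ℝ := T * Real.log T ^ A

lemma gA_pos {A T : ℝ} (hT : 1 < T) : 0 < gA A T :=
  mul_pos (by linarith) (Real.rpow_pos_of_pos (Real.log_pos hT) _)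

lemma gA_mono {A : ℝ} (hA : 0 ≤ A) {S T : ℝ} (hS : 1 < S) (h : S ≤ T) : gA A S ≤ gA A T := by
  unfold gA
  have h1 : Real.log S ≤ Real.log T := Real.log_le_log (by linarith) h
  have h2 : 0 ≤ Real.log S := (Real.log_pos hS).le
  exact mul_le_mul h (Real.rpow_le_rpow h2 h1 hA) (Real.rpow_nonneg h2 _) (by linarith)

lemma gA_ratio (A : ℝ) : Tendsto (fun N : ℕ => gA A ((N : ℝ) + 1) / gA A N) atTop (𝓝 1) := by
  have h1 : Tendsto (fun N : ℕ => ((N : ℝ) + 1) / N) atTop (𝓝 1) := by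
    have h2 : Tendsto (fun N : ℕ => 1 + 1 / (N : ℝ)) atTop (𝓝 (1 + 0)) :=
      tendsto_const_nhds.add (tendsto_const_nhds.div_atTop tendsto_natCast_atTop_atTop)
    rw [add_zero] at h2
    refine h2.congr' ?_
    filter_upwards [eventually_ge_atTop 1] with N hN
    have : (N : ℝ) ≠ 0 := by positivity
    field_simp
  have h2 : Tendsto (fun N : ℕ => Real.log ((N : ℝ) + 1) / Real.log N) atTop (𝓝 1) := by
    have h3 := Real.tendsto_log_nat_add_one_sub_log
    have h4 : Tendsto (fun N : ℕ => Real.log (N : ℝ)) atTop atTop :=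
      Real.tendsto_log_atTop.comp tendsto_natCast_atTop_atTop
    have h5 : Tendsto (fun N : ℕ => 1 + (Real.log ((N : ℝ) + 1) - Real.log N) / Real.log N) atTop (𝓝 (1 + 0)) :=
      tendsto_const_nhds.add (h3.div_atTop h4)
    rw [add_zero] at h5
    refine h5.congr' ?_
    filter_upwards [eventually_ge_atTop 2] with N hN
    have hNR : (1 : ℝ) < N := by exact_mod_cast hN
    have : Real.log N ≠ 0 := (Real.log_pos hNR).ne'
    field_simp
    ring
  have h3 : Tendsto (fun N : ℕ => (((N : ℝ) + 1) / N) * (Real.log ((N : ℝ) + 1) / Real.log N) ^ A) atTop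
      (𝓝 (1 * 1 ^ A)) := h1.mul (h2.rpow_const (Or.inl one_ne_zero))
  rw [Real.one_rpow, mul_one] at h3
  refine h3.congr' ?_
  filter_upwards [eventually_ge_atTop 2] with N hN
  have hNR : (1 : ℝ) < N := by exact_mod_cast hN
  have hl : 0 < Real.log N := Real.log_pos hNR
  have hl1 : 0 ≤ Real.log ((N : ℝ) + 1) := Real.log_nonneg (by linarith)
  unfold gA
  rw [Real.div_rpow hl1 hl.le, div_mul_div_comm]

/-- an asymptotic formula at the integers and at all reals -/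
lemma real_iff {f : ℝ → ℝ} (hf : Continuous f) (hf0 : ∀ t, 0 ≤ f t) {A c : ℝ} (hA : 0 ≤ A) :
    Tendsto (fun T : ℝ => (∫ t in (0 : ℝ)..T, f t) / gA A T) atTop (𝓝 c) ↔
      Tendsto (fun N : ℕ => MI f N / gA A N) atTop (𝓝 c) := by
  constructor
  · intro h
    exact h.comp tendsto_natCast_atTop_atTop
  intro h
  have hr := gA_ratio A
  have hfl : Tendsto (fun T : ℝ => ⌊T⌋₊) atTop atTop := tendsto_nat_floor_atTop
  -- the upper function
  have hup : Tendsto (fun N : ℕ => MI f (N + 1) / gA A N) atTop (𝓝 c) := by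
    have h1 := ((tendsto_add_atTop_iff_nat 1).2 h).mul hr
    rw [mul_one] at h1
    refine h1.congr' ?_
    filter_upwards [eventually_ge_atTop 2] with N hN
    have hNR : (1 : ℝ) < N := by exact_mod_cast hN
    have h2 : gA A ((N : ℝ) + 1) ≠ 0 := (gA_pos (by linarith)).ne'
    push_cast
    rw [div_mul_div_cancel₀ h2]
  have hlo : Tendsto (fun N : ℕ => MI f N / gA A ((N : ℝ) + 1)) atTop (𝓝 c) := by
    have h1 := h.div hr one_ne_zero
    rw [div_one] at h1
    refine h1.congr' ?_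
    filter_upwards [eventually_ge_atTop 2] with N hN
    have hNR : (1 : ℝ) < N := by exact_mod_cast hN
    have h2 : gA A ((N : ℝ) + 1) ≠ 0 := (gA_pos (by linarith)).ne'
    have h3 : gA A (N : ℝ) ≠ 0 := (gA_pos hNR).ne'
    simp only [Pi.div_apply]
    field_simp
  have hmono : ∀ a b : ℝ, 0 ≤ a → a ≤ b → ∫ t in (0 : ℝ)..a, f t ≤ ∫ t in (0 : ℝ)..b, f t := by
    intro a b ha hab
    exact intervalIntegral.integral_mono_interval le_rfl ha hab (Eventually.of_forall fun t => hf0 t)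
      (hf.intervalIntegrable _ _)
  refine tendsto_of_tendsto_of_tendsto_of_le_of_le' (hlo.comp hfl) (hup.comp hfl) ?_ ?_
  · filter_upwards [eventually_ge_atTop (2 : ℝ)] with T hT
    have hN2 : 2 ≤ ⌊T⌋₊ := Nat.le_floor (by exact_mod_cast hT)
    have hNR : (1 : ℝ) < (⌊T⌋₊ : ℝ) := by exact_mod_cast hN2
    have h1 : (⌊T⌋₊ : ℝ) ≤ T := Nat.floor_le (by linarith)
    have h2 : T ≤ (⌊T⌋₊ : ℝ) + 1 := (Nat.lt_floor_add_one T).le
    simp only [Function.comp]
    have h3 : MI f ⌊T⌋₊ ≤ ∫ t in (0 : ℝ)..T, f t := hmono _ _ (by positivity) h1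
    have h4 : 0 ≤ MI f ⌊T⌋₊ := by
      have := MI_mono hf hf0 (Nat.zero_le ⌊T⌋₊)
      rwa [MI_zero] at this
    exact div_le_div₀ (h4.trans h3) h3 (gA_pos (by linarith)) (gA_mono hA (by linarith) h2)
  · filter_upwards [eventually_ge_atTop (2 : ℝ)] with T hT
    have hN2 : 2 ≤ ⌊T⌋₊ := Nat.le_floor (by exact_mod_cast hT)
    have hNR : (1 : ℝ) < (⌊T⌋₊ : ℝ) := by exact_mod_cast hN2
    have h1 : (⌊T⌋₊ : ℝ) ≤ T := Nat.floor_le (by linarith)
    have h2 : T ≤ (⌊T⌋₊ : ℝ) + 1 := (Nat.lt_floor_add_one T).le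
    simp only [Function.comp]
    have h3 : ∫ t in (0 : ℝ)..T, f t ≤ MI f (⌊T⌋₊ + 1) := by
      unfold MI
      push_cast
      exact hmono _ _ (by linarith) h2
    have h4 : 0 ≤ MI f (⌊T⌋₊ + 1) := by
      have := MI_mono hf hf0 (Nat.zero_le (⌊T⌋₊ + 1))
      rwa [MI_zero] at this
    exact div_le_div₀ h4 h3 (gA_pos hNR) (gA_mono hA hNR h1)

variable {Ω : Type*} [MeasurableSpace Ω] {P : Measure Ω} {X : ℕ → Ω → ℝ}

/-- equivalence of the asymptotic formulas along a sample with the law of large numbers -/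
lemma asy_iff {f : ℝ → ℝ} {ω : Ω} {A c : ℝ}
    (hMp : ∀ᶠ N : ℕ in atTop, 0 < MI f N)
    (h : Tendsto (fun N : ℕ => (∑ n ∈ Finset.range N, f (X n ω)) / MI f N) atTop (𝓝 1)) :
    Tendsto (fun N : ℕ => MI f N / gA A N) atTop (𝓝 c) ↔
      Tendsto (fun N : ℕ => (∑ n ∈ Finset.range N, f (X n ω)) / gA A N) atTop (𝓝 c) := by
  constructor
  · intro h1
    have h2 := h.mul h1
    rw [one_mul] at h2
    refine h2.congr' ?_
    filter_upwards [hMp] with N hN
    rw [div_mul_div_cancel₀ hN.ne']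
  · intro h1
    have h2 := h1.div h one_ne_zero
    rw [div_one] at h2
    refine h2.congr' ?_
    have h3 : ∀ᶠ N : ℕ in atTop, (∑ n ∈ Finset.range N, f (X n ω)) / MI f N ≠ 0 :=
      h.eventually (isOpen_ne.mem_nhds one_ne_zero)
    filter_upwards [hMp, h3] with N hN hN3
    simp only [Pi.div_apply]
    have h4 : ∑ n ∈ Finset.range N, f (X n ω) ≠ 0 := by
      intro h0
      rw [h0, zero_div] at hN3
      exact hN3 rfl
    field_simp

/-- **law of large numbers for zeta**, from an upper bound with the exponent `θ`, `β θ < 1` -/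
theorem lln_exp [IsProbabilityMeasure P] (h : UPts P X) {β θ : ℝ} (hβ : 0 < β) (hθ : 0 ≤ θ) (hβθ : β * θ < 1)
    (hZ : ∀ ε : ℝ, 0 < ε → ∃ C : ℝ, ∀ t : ℝ, 0 ≤ t → Z t ≤ C * (1 + t) ^ (θ + ε))
    {c : ℝ} (hc : 0 < c) (hlow : ∀ᶠ N : ℕ in atTop, c * N ≤ MI (fun t => Z t ^ β) N) :
    ∀ᵐ ω ∂P, Tendsto (fun N : ℕ => (∑ n ∈ Finset.range N, Z (X n ω) ^ β) / MI (fun t => Z t ^ β) N) atTop
      (𝓝 1) := by
  obtain ⟨ε, hε⟩ : ∃ ε : ℝ, ε = (1 - β * θ) / (2 * β) := ⟨_, rfl⟩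
  have hε0 : 0 < ε := by
    rw [hε]
    have : 0 < 1 - β * θ := by linarith
    positivity
  obtain ⟨C, hC⟩ := hZ ε hε0
  set ρ : ℝ := (θ + ε) * β with hρ
  have hρ1 : ρ < 1 := by
    have h1 : ε * β = (1 - β * θ) / 2 := by rw [hε]; field_simp
    have h2 : ρ = β * θ + ε * β := by rw [hρ]; ring
    rw [h2, h1]
    linarith
  have hρ0 : 0 ≤ ρ := by rw [hρ]; positivity
  have hM : Tendsto (MI fun t => Z t ^ β) atTop atTop := by
    refine tendsto_atTop_mono' atTop hlow ?_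
    exact tendsto_natCast_atTop_atTop.const_mul_atTop hc
  set D : ℝ := |C| ^ β * 2 ^ ρ + 1 with hD
  have hD1 : 1 ≤ D := by
    have : 0 ≤ |C| ^ β * 2 ^ ρ := by positivity
    linarith
  -- the bound of the function
  have hs : ∀ N : ℕ, ∀ t ∈ Icc (0 : ℝ) N, Z t ^ β ≤ |C| ^ β * (1 + (N : ℝ)) ^ ρ := by
    intro N t ht
    have h1 : Z t ≤ |C| * (1 + t) ^ (θ + ε) := by
      have h0 := ht.1
      exact (hC t ht.1).trans (mul_le_mul_of_nonneg_right (le_abs_self C) (by positivity))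
    have h2 : Z t ^ β ≤ (|C| * (1 + t) ^ (θ + ε)) ^ β := Real.rpow_le_rpow (Z_nonneg t) h1 hβ.le
    have h0 : 0 ≤ t := ht.1
    rw [Real.mul_rpow (abs_nonneg C) (by positivity), ← Real.rpow_mul (by linarith)] at h2
    refine h2.trans ?_
    have h3 : (1 + t) ^ ((θ + ε) * β) ≤ (1 + (N : ℝ)) ^ ρ := Real.rpow_le_rpow (by linarith) (by linarith [ht.2]) hρ0
    exact mul_le_mul_of_nonneg_left h3 (by positivity)
  refine lln (f := fun t => Z t ^ β) h (Zp_cont hβ) (fun t => Real.rpow_nonneg (Z_nonneg t) β) hs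
    (C := D * (1 / c)) ?_ hM
  -- the logarithm of the integral is small
  have hlogs : ∀ᶠ N : ℕ in atTop, (Real.log D + 2 * Real.log N) ^ 2 ≤ (N : ℝ) ^ (1 - ρ) := by
    have h1 : Tendsto (fun x : ℝ => (Real.log D + 2 * Real.log x) / x ^ ((1 - ρ) / 2)) atTop (𝓝 0) := by
      have e1 : (1 - ρ) / 2 > 0 := by linarith
      have h2 : Tendsto (fun x : ℝ => Real.log D / x ^ ((1 - ρ) / 2)) atTop (𝓝 0) :=
        tendsto_const_nhds.div_atTop (tendsto_rpow_atTop e1)
      have h3 : Tendsto (fun x : ℝ => Real.log x / x ^ ((1 - ρ) / 2)) atTop (𝓝 0) :=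
        (isLittleO_log_rpow_atTop e1).tendsto_div_nhds_zero
      have h4 := h2.add (h3.const_mul 2)
      rw [mul_zero, add_zero] at h4
      refine h4.congr fun x => ?_
      ring
    have h2 := (h1.comp tendsto_natCast_atTop_atTop).eventually (Ioo_mem_nhds (by norm_num : (-1 : ℝ) < 0)
      (by norm_num : (0 : ℝ) < 1))
    filter_upwards [h2, eventually_ge_atTop 1] with N hN hN1
    have hNp : (0 : ℝ) < N := by exact_mod_cast hN1
    have hp : (0 : ℝ) < (N : ℝ) ^ ((1 - ρ) / 2) := by positivity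
    simp only [Function.comp] at hN
    have h3 : |Real.log D + 2 * Real.log N| ≤ (N : ℝ) ^ ((1 - ρ) / 2) := by
      rw [abs_le]
      constructor
      · have := hN.1
        rw [lt_div_iff₀ hp] at this
        linarith
      · have := hN.2
        rw [div_lt_iff₀ hp] at this
        linarith
    have h4 : (N : ℝ) ^ (1 - ρ) = ((N : ℝ) ^ ((1 - ρ) / 2)) ^ 2 := by
      rw [← Real.rpow_natCast, ← Real.rpow_mul hNp.le]
      congr 1
      push_cast
      ring
    rw [h4, ← sq_abs]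
    exact pow_le_pow_left₀ (abs_nonneg _) h3 2
  filter_upwards [hlow, hlogs, eventually_ge_atTop 1, hM.eventually_ge_atTop 1] with N hN hlN hN1 hM1
  have hNR : (1 : ℝ) ≤ N := by exact_mod_cast hN1
  have hNp : (0 : ℝ) < N := by linarith
  have hsN : |C| ^ β * (1 + (N : ℝ)) ^ ρ ≤ D * (N : ℝ) ^ ρ := by
    have h1 : (1 + (N : ℝ)) ^ ρ ≤ 2 ^ ρ * (N : ℝ) ^ ρ := by
      rw [← Real.mul_rpow (by norm_num) hNp.le]
      exact Real.rpow_le_rpow (by linarith) (by linarith) hρ0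
    calc |C| ^ β * (1 + (N : ℝ)) ^ ρ ≤ |C| ^ β * (2 ^ ρ * (N : ℝ) ^ ρ) := by gcongr
      _ = |C| ^ β * 2 ^ ρ * (N : ℝ) ^ ρ := by ring
      _ ≤ D * (N : ℝ) ^ ρ := mul_le_mul_of_nonneg_right (by rw [hD]; linarith) (by positivity)
  have hMup : MI (fun t => Z t ^ β) N ≤ D * (N : ℝ) ^ (2 : ℝ) := by
    have h1 := intervalIntegral.integral_mono_on (μ := volume) (a := 0) (b := (N : ℝ)) (f := fun t => Z t ^ β)
      (g := fun _ => D * (N : ℝ) ^ ρ) hNp.le (Zp_int hβ _ _) intervalIntegrable_const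
      (fun t ht => (hs N t ht).trans hsN)
    rw [intervalIntegral.integral_const, smul_eq_mul, sub_zero] at h1
    refine h1.trans ?_
    calc (N : ℝ) * (D * (N : ℝ) ^ ρ) = D * ((N : ℝ) * (N : ℝ) ^ ρ) := by ring
      _ = D * (N : ℝ) ^ (1 + ρ) := by rw [Real.rpow_add hNp, Real.rpow_one]
      _ ≤ D * (N : ℝ) ^ (2 : ℝ) := by
          apply mul_le_mul_of_nonneg_left _ (by linarith)
          exact Real.rpow_le_rpow_of_exponent_le hNR (by linarith)
  have hlogM : Real.log (MI (fun t => Z t ^ β) N) ≤ Real.log D + 2 * Real.log N := by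
    have h1 := Real.log_le_log (by linarith) hMup
    rwa [Real.log_mul (by linarith) (by positivity), Real.log_rpow hNp] at h1
  have hlogM0 : 0 ≤ Real.log (MI (fun t => Z t ^ β) N) := Real.log_nonneg hM1
  have h2 : Real.log (MI (fun t => Z t ^ β) N) ^ 2 ≤ (N : ℝ) ^ (1 - ρ) :=
    (pow_le_pow_left₀ hlogM0 hlogM 2).trans hlN
  calc |C| ^ β * (1 + (N : ℝ)) ^ ρ * Real.log (MI (fun t => Z t ^ β) N) ^ 2
      ≤ (D * (N : ℝ) ^ ρ) * (N : ℝ) ^ (1 - ρ) := mul_le_mul hsN h2 (by positivity) (by positivity)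
    _ = D * N := by
        rw [mul_assoc, ← Real.rpow_add hNp]
        rw [show ρ + (1 - ρ) = 1 by ring, Real.rpow_one]
    _ = D * (1 / c) * (c * N) := by field_simp
    _ ≤ D * (1 / c) * MI (fun t => Z t ^ β) N := mul_le_mul_of_nonneg_left hN (by positivity)

/-- the Lindelöf bound from all even moments -/
theorem lh_of_mom {k₀ : ℕ} (h : ∀ k : ℕ, k₀ ≤ k → 1 ≤ k → MomBd (2 * k) 1) (ε : ℝ) (hε : 0 < ε) :
    ∃ C : ℝ, ∀ t : ℝ, 0 ≤ t → Z t ≤ C * (1 + t) ^ (0 + ε) := by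
  obtain ⟨k, hk⟩ := exists_nat_ge (max (k₀ : ℝ) (max 1 (2 / ε)))
  have hk0 : k₀ ≤ k := by exact_mod_cast (le_max_left _ _).trans hk
  have hk1 : 1 ≤ k := by exact_mod_cast ((le_max_left _ _).trans (le_max_right _ _)).trans hk
  have hk2 : 2 / ε ≤ k := ((le_max_right _ _).trans (le_max_right _ _)).trans hk
  have hk1R : (1 : ℝ) ≤ k := by exact_mod_cast hk1
  set p : ℝ := 2 * k with hp
  have hp0 : 0 < p := by positivity
  obtain ⟨A, hA, hsm⟩ := sup_mean' hp0 (one_pos (α := ℝ))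
  obtain ⟨B, hB⟩ := h k hk0 hk1 1 one_pos
  obtain ⟨E, hE⟩ := (isCompact_Icc (a := (0 : ℝ)) (b := 100)).exists_bound_of_continuousOn
    Z_cont.continuousOn
  set D : ℝ := A * (1 + |B| * 4) with hD
  have hD1 : 1 ≤ D := by
    have := abs_nonneg B
    nlinarith
  refine ⟨|E| + D, fun t ht => ?_⟩
  have ht1 : (1 : ℝ) ≤ (1 + t) ^ (0 + ε) := Real.one_le_rpow (by linarith) (by linarith)
  rcases le_or_gt t 100 with h1 | h1
  · have h2 := (le_abs_self _).trans (hE t ⟨ht, h1⟩)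
    calc Z t ≤ |E| * 1 := by rw [mul_one]; exact h2.trans (le_abs_self E)
      _ ≤ (|E| + D) * (1 + t) ^ (0 + ε) := by
          apply mul_le_mul (by linarith) ht1 (by norm_num) (by positivity)
  · have h2 := hsm t h1.le
    have h3 : ∫ x in (t - 1)..(t + 1), Z x ^ p ≤ |B| * (t + 1) ^ (2 : ℝ) := by
      refine (mono_int hp0 (c := 0) (d := t + 1) (by linarith) (by linarith) le_rfl).trans ?_
      have h4 := hB (t + 1) (by linarith)
      refine h4.trans ?_
      rw [show (1 : ℝ) + 1 = 2 by norm_num]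
      exact mul_le_mul_of_nonneg_right (le_abs_self B) (by positivity)
    have ht0 : 0 < t := by linarith
    have h5 : Z t ^ p ≤ D * t ^ (3 : ℝ) := by
      rw [Real.rpow_one] at h2
      have h6 : (1 : ℝ) ≤ t ^ (2 : ℝ) := Real.one_le_rpow (by linarith) (by norm_num)
      have h7 : (t + 1) ^ (2 : ℝ) ≤ 4 * t ^ (2 : ℝ) := by
        have e1 : (4 : ℝ) * t ^ (2 : ℝ) = (2 * t) ^ (2 : ℝ) := by
          rw [Real.mul_rpow (by norm_num) ht0.le]
          norm_num
        rw [e1]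
        exact Real.rpow_le_rpow (by linarith) (by linarith) (by norm_num)
      have h8 : t ^ (3 : ℝ) = t * t ^ (2 : ℝ) := by
        rw [show (3 : ℝ) = 1 + 2 by norm_num, Real.rpow_add ht0, Real.rpow_one]
      have hB0 := abs_nonneg B
      have h9 : 1 + ∫ x in (t - 1)..(t + 1), Z x ^ p ≤ (1 + |B| * 4) * t ^ (2 : ℝ) := by
        have h10 := mul_le_mul_of_nonneg_left h7 hB0
        calc 1 + ∫ x in (t - 1)..(t + 1), Z x ^ p ≤ t ^ (2 : ℝ) + |B| * (4 * t ^ (2 : ℝ)) :=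
              add_le_add h6 (h3.trans h10)
          _ = (1 + |B| * 4) * t ^ (2 : ℝ) := by ring
      calc Z t ^ p ≤ A * t * (1 + ∫ x in (t - 1)..(t + 1), Z x ^ p) := h2
        _ ≤ A * t * ((1 + |B| * 4) * t ^ (2 : ℝ)) := mul_le_mul_of_nonneg_left h9 (by positivity)
        _ = D * t ^ (3 : ℝ) := by rw [h8, hD]; ring
    have h6 : Z t ≤ (D * t ^ (3 : ℝ)) ^ (1 / p) := by
      have h7 := Real.rpow_le_rpow (Real.rpow_nonneg (Z_nonneg t) p) h5 (by positivity : (0 : ℝ) ≤ 1 / p)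
      rwa [← Real.rpow_mul (Z_nonneg t), mul_one_div_cancel hp0.ne', Real.rpow_one] at h7
    rw [Real.mul_rpow (by linarith) (by positivity), ← Real.rpow_mul ht0.le] at h6
    have h7 : D ^ (1 / p) ≤ D := by
      conv_rhs => rw [← Real.rpow_one D]
      apply Real.rpow_le_rpow_of_exponent_le hD1
      rw [div_le_one hp0]
      linarith
    have h8 : t ^ (3 * (1 / p)) ≤ (1 + t) ^ (0 + ε) := by
      have h9 : 3 * (1 / p) ≤ 0 + ε := by
        rw [mul_one_div, div_le_iff₀ hp0, zero_add]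
        rw [div_le_iff₀ hε] at hk2
        nlinarith
      calc t ^ (3 * (1 / p)) ≤ (1 + t) ^ (3 * (1 / p)) := Real.rpow_le_rpow ht0.le (by linarith) (by positivity)
        _ ≤ _ := Real.rpow_le_rpow_of_exponent_le (by linarith) h9
    calc Z t ≤ D ^ (1 / p) * t ^ (3 * (1 / p)) := h6
      _ ≤ D * (1 + t) ^ (0 + ε) := mul_le_mul h7 h8 (by positivity) (by linarith)
      _ ≤ (|E| + D) * (1 + t) ^ (0 + ε) := mul_le_mul_of_nonneg_right (by linarith [abs_nonneg E]) (by positivity)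

end Pool.Agent.Q231.RS
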