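import Pool.Agent.Q231.RS.LL6

/-!
# All moments at random points
-/

set_option autoImplicit false

open MeasureTheory ProbabilityTheory Filter Topology Set

namespace Pool.Agent.Q231.RS

open Pool.Agent.W188.Mom

variable {Ω : Type*} [MeasurableSpace Ω] {P : Measure Ω} {X : ℕ → Ω → ℝ}

lemma gA_le (A ε : ℝ) (hA : 0 ≤ A) (hε : 0 < ε) : ∃ B : ℝ, 0 ≤ B ∧ ∀ T : ℝ, 1 ≤ T → gA A T ≤ B * T ^ (1 + ε) := by
  have h1 := (isLittleO_log_rpow_rpow_atTop A hε).bound (one_pos (α := ℝ))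
  obtain ⟨T₀, hT₀⟩ := eventually_atTop.1 h1
  set T₁ : ℝ := max T₀ 1 with hT₁
  refine ⟨1 + Real.log T₁ ^ A, by
    have : 0 ≤ Real.log T₁ ^ A := Real.rpow_nonneg (Real.log_nonneg (le_max_right _ _)) _
    linarith, fun T hT => ?_⟩
  have hT0 : 0 < T := by linarith
  have hl : 0 ≤ Real.log T := Real.log_nonneg hT
  have hl1 : 0 ≤ Real.log T₁ ^ A := Real.rpow_nonneg (Real.log_nonneg (le_max_right _ _)) _
  have hp : 1 ≤ T ^ ε := Real.one_le_rpow hT hε.le
  have h2 : Real.log T ^ A ≤ (1 + Real.log T₁ ^ A) * T ^ ε := by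
    rcases le_total T T₁ with h | h
    · have h3 : Real.log T ^ A ≤ Real.log T₁ ^ A := Real.rpow_le_rpow hl (Real.log_le_log hT0 h) hA
      nlinarith
    · have h3 := hT₀ T ((le_max_left _ _).trans h)
      rw [one_mul, Real.norm_of_nonneg (Real.rpow_nonneg hl _), Real.norm_of_nonneg (by positivity)] at h3
      nlinarith
  unfold gA
  rw [Real.rpow_add hT0, Real.rpow_one]
  calc T * Real.log T ^ A ≤ T * ((1 + Real.log T₁ ^ A) * T ^ ε) := by gcongr
    _ = _ := by ring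

/-- an asymptotic formula gives the bound with `ε` -/
lemma mom_of_asy {p A c : ℝ} (hp : 0 < p) (hA : 0 ≤ A)
    (h : Tendsto (fun T : ℝ => (∫ t in (0 : ℝ)..T, Z t ^ p) / gA A T) atTop (𝓝 c)) : MomBd p 1 := by
  intro ε hε
  obtain ⟨B, hB, hg⟩ := gA_le A ε hA hε
  have h1 := h.eventually (gt_mem_nhds (by linarith [le_abs_self c] : c < |c| + 1))
  obtain ⟨T₀, hT₀⟩ := eventually_atTop.1 h1
  set T₁ : ℝ := max T₀ 2 with hT₁
  set I : ℝ := ∫ t in (0 : ℝ)..T₁, Z t ^ p with hI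
  refine ⟨|I| + (|c| + 1) * B, fun T hT => ?_⟩
  have hp1 : 1 ≤ T ^ (1 + ε) := Real.one_le_rpow hT (by linarith)
  have hcB : 0 ≤ (|c| + 1) * B := by positivity
  rcases le_total T T₁ with h2 | h2
  · have h3 : ∫ t in (0 : ℝ)..T, Z t ^ p ≤ I := mono_int hp le_rfl (by linarith) h2
    calc ∫ t in (0 : ℝ)..T, Z t ^ p ≤ |I| * 1 := by rw [mul_one]; exact h3.trans (le_abs_self I)
      _ ≤ (|I| + (|c| + 1) * B) * T ^ (1 + ε) := mul_le_mul (by linarith) hp1 (by norm_num) (by positivity)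
  · have h3 := hT₀ T ((le_max_left _ _).trans h2)
    have hT2 : 2 ≤ T := (le_max_right _ _).trans h2
    rw [div_lt_iff₀ (gA_pos (by linarith))] at h3
    calc ∫ t in (0 : ℝ)..T, Z t ^ p ≤ (|c| + 1) * gA A T := h3.le
      _ ≤ (|c| + 1) * (B * T ^ (1 + ε)) := mul_le_mul_of_nonneg_left (hg T hT) (by positivity)
      _ ≤ (|I| + (|c| + 1) * B) * T ^ (1 + ε) := by
          have : 0 ≤ |I| * T ^ (1 + ε) := by positivity
          nlinarith

/-- the Lindelöf bound with the exponent `ε` from one even moment of large order -/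
theorem lh_of_one {ε : ℝ} (hε : 0 < ε) {k : ℕ} (hk1 : 1 ≤ k) (hk2 : 2 / ε ≤ k) (h : MomBd (2 * k) 1) :
    ∃ C : ℝ, ∀ t : ℝ, 0 ≤ t → Z t ≤ C * (1 + t) ^ (0 + ε) := by
  have hk1R : (1 : ℝ) ≤ k := by exact_mod_cast hk1
  set p : ℝ := 2 * k with hp
  have hp0 : 0 < p := by positivity
  obtain ⟨A, hA, hsm⟩ := sup_mean' hp0 (one_pos (α := ℝ))
  obtain ⟨B, hB⟩ := h 1 one_pos
  obtain ⟨E, hE⟩ := (isCompact_Icc (a := (0 : ℝ)) (b := 100)).exists_bound_of_continuousOn
    Z_cont.continuousOn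
  set D : ℝ := A * (1 + |B| * 4) with hD
  have hD1 : 1 ≤ D := by
    have := abs_nonneg B
    nlinarith
  refine ⟨|E| + D, fun t ht => ?_⟩
  have ht1 : (1 : ℝ) ≤ (1 + t) ^ (0 + ε) := Real.one_le_rpow (by linarith) (by linarith)
  rcases le_or_gt t 100 with h1 | h1
  · have h2 := (le_abs_self _).trans (hE t ⟨ht, h1⟩)
    calc Z t ≤ |E| * 1 := by rw [mul_one]; exact h2.trans (le_abs_self E)
      _ ≤ (|E| + D) * (1 + t) ^ (0 + ε) := by
          apply mul_le_mul (by linarith) ht1 (by norm_num) (by positivity)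
  · have h2 := hsm t h1.le
    have h3 : ∫ x in (t - 1)..(t + 1), Z x ^ p ≤ |B| * (t + 1) ^ (2 : ℝ) := by
      refine (mono_int hp0 (c := 0) (d := t + 1) (by linarith) (by linarith) le_rfl).trans ?_
      have h4 := hB (t + 1) (by linarith)
      refine h4.trans ?_
      rw [show (1 : ℝ) + 1 = 2 by norm_num]
      exact mul_le_mul_of_nonneg_right (le_abs_self B) (by positivity)
    have ht0 : 0 < t := by linarith
    have h5 : Z t ^ p ≤ D * t ^ (3 : ℝ) := by
      rw [Real.rpow_one] at h2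
      have h6 : (1 : ℝ) ≤ t ^ (2 : ℝ) := Real.one_le_rpow (by linarith) (by norm_num)
      have h7 : (t + 1) ^ (2 : ℝ) ≤ 4 * t ^ (2 : ℝ) := by
        have e1 : (4 : ℝ) * t ^ (2 : ℝ) = (2 * t) ^ (2 : ℝ) := by
          rw [Real.mul_rpow (by norm_num) ht0.le]
          norm_num
        rw [e1]
        exact Real.rpow_le_rpow (by linarith) (by linarith) (by norm_num)
      have h8 : t ^ (3 : ℝ) = t * t ^ (2 : ℝ) := by
        rw [show (3 : ℝ) = 1 + 2 by norm_num, Real.rpow_add ht0, Real.rpow_one]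
      have hB0 := abs_nonneg B
      have h9 : 1 + ∫ x in (t - 1)..(t + 1), Z x ^ p ≤ (1 + |B| * 4) * t ^ (2 : ℝ) := by
        have h10 := mul_le_mul_of_nonneg_left h7 hB0
        calc 1 + ∫ x in (t - 1)..(t + 1), Z x ^ p ≤ t ^ (2 : ℝ) + |B| * (4 * t ^ (2 : ℝ)) :=
              add_le_add h6 (h3.trans h10)
          _ = (1 + |B| * 4) * t ^ (2 : ℝ) := by ring
      calc Z t ^ p ≤ A * t * (1 + ∫ x in (t - 1)..(t + 1), Z x ^ p) := h2
        _ ≤ A * t * ((1 + |B| * 4) * t ^ (2 : ℝ)) := mul_le_mul_of_nonneg_left h9 (by positivity)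
        _ = D * t ^ (3 : ℝ) := by rw [h8, hD]; ring
    have h6 : Z t ≤ (D * t ^ (3 : ℝ)) ^ (1 / p) := by
      have h7 := Real.rpow_le_rpow (Real.rpow_nonneg (Z_nonneg t) p) h5 (by positivity : (0 : ℝ) ≤ 1 / p)
      rwa [← Real.rpow_mul (Z_nonneg t), mul_one_div_cancel hp0.ne', Real.rpow_one] at h7
    rw [Real.mul_rpow (by linarith) (by positivity), ← Real.rpow_mul ht0.le] at h6
    have h7 : D ^ (1 / p) ≤ D := by
      conv_rhs => rw [← Real.rpow_one D]
      apply Real.rpow_le_rpow_of_exponent_le hD1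
      rw [div_le_one hp0]
      linarith
    have h8 : t ^ (3 * (1 / p)) ≤ (1 + t) ^ (0 + ε) := by
      have h9 : 3 * (1 / p) ≤ 0 + ε := by
        rw [mul_one_div, div_le_iff₀ hp0, zero_add]
        rw [div_le_iff₀ hε] at hk2
        nlinarith
      calc t ^ (3 * (1 / p)) ≤ (1 + t) ^ (3 * (1 / p)) := Real.rpow_le_rpow ht0.le (by linarith) (by positivity)
        _ ≤ _ := Real.rpow_le_rpow_of_exponent_le (by linarith) h9
    calc Z t ≤ D ^ (1 / p) * t ^ (3 * (1 / p)) := h6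
      _ ≤ D * (1 + t) ^ (0 + ε) := mul_le_mul h7 h8 (by positivity) (by linarith)
      _ ≤ (|E| + D) * (1 + t) ^ (0 + ε) := mul_le_mul_of_nonneg_right (by linarith [abs_nonneg E]) (by positivity)


/-- pairwise independent points fall infinitely often into sets whose measure is bounded from below -/
theorem pw_bc [IsProbabilityMeasure P] (h : UPts P X) {n : ℕ → ℕ} (hn : StrictMono n) {E : ℕ → Set ℝ}
    (hEm : ∀ j, MeasurableSet (E j)) (hE : ∀ j, E j ⊆ Icc (n j : ℝ) (n j + 1)) {a : ℝ} (ha : 0 < a)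
    (hv : ∀ j, ENNReal.ofReal a ≤ volume (E j)) : ∀ᵐ ω ∂P, ∃ᶠ j in atTop, X (n j) ω ∈ E j := by
  set F : ℕ → ℝ → ℝ := fun j => (E j).indicator fun _ => (1 : ℝ) with hF
  have hFm : ∀ j, Measurable (F j) := fun j => measurable_const.indicator (hEm j)
  have hF0 : ∀ j x, 0 ≤ F j x := fun j x => indicator_nonneg (fun _ _ => zero_le_one) x
  have hF1 : ∀ j x, F j x ≤ 1 := fun j x => indicator_le_self' (fun _ _ => zero_le_one) x
  set Y : ℕ → Ω → ℝ := fun j ω => F j (X (n j) ω) with hY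
  have hYm : ∀ j, Measurable (Y j) := fun j => (hFm j).comp (h.meas (n j))
  have hLp : ∀ j, MemLp (Y j) 2 P := fun j => by
    refine MemLp.of_bound (hYm j).aestronglyMeasurable 1 (Eventually.of_forall fun ω => ?_)
    rw [Real.norm_of_nonneg (hF0 j _)]
    exact hF1 j _
  have hmean : ∀ j, a ≤ ∫ ω, Y j ω ∂P := by
    intro j
    have h1 : ∫ ω, Y j ω ∂P = ∫ x, F j x ∂(P.map (X (n j))) :=
      (integral_map (h.meas (n j)).aemeasurable (hFm j).aestronglyMeasurable).symm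
    rw [h1, h.law, hF]
    simp only
    rw [integral_indicator_const _ (hEm j), smul_eq_mul, mul_one, measureReal_def, Measure.restrict_apply (hEm j),
      inter_eq_left.2 (hE j)]
    have h2 : volume (E j) ≠ ⊤ := by
      refine ne_top_of_le_ne_top ?_ (measure_mono (hE j))
      simp
    exact (ENNReal.ofReal_le_iff_le_toReal h2).1 (hv j)
  have hvar : ∀ j, variance (Y j) P ≤ 1 := by
    intro j
    refine (variance_le_expectation_sq (μ := P) (hLp j).aestronglyMeasurable).trans ?_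
    have h1 : ∫ ω, (Y j ^ 2) ω ∂P ≤ ∫ _, (1 : ℝ) ∂P := by
      refine integral_mono_of_nonneg (Eventually.of_forall fun ω => sq_nonneg (Y j ω)) (integrable_const _)
        (Eventually.of_forall fun ω => ?_)
      simp only [Pi.pow_apply]
      exact pow_le_one₀ (hF0 j _) (hF1 j _)
    simpa using h1
  -- Chebyshev
  have hcheb : ∀ J : ℕ, 0 < J → P {ω | ∑ j ∈ Finset.range J, Y j ω ≤ a * J / 2} ≤
      ENNReal.ofReal (4 / (a ^ 2 * J)) := by
    intro J hJ
    have hJR : (0 : ℝ) < J := by exact_mod_cast hJ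
    have hSLp : MemLp (∑ j ∈ Finset.range J, Y j) 2 P := memLp_finsetSum' _ fun j _ => hLp j
    have h3 := meas_ge_le_variance_div_sq hSLp (show 0 < a * J / 2 by positivity)
    have e1 : ∫ ω, (∑ j ∈ Finset.range J, Y j) ω ∂P = ∑ j ∈ Finset.range J, ∫ ω, Y j ω ∂P := by
      simp only [Finset.sum_apply]
      exact integral_finsetSum _ fun j _ => (hLp j).integrable (by norm_num)
    have h4 : a * J ≤ ∫ ω, (∑ j ∈ Finset.range J, Y j) ω ∂P := by
      rw [e1]
      calc a * J = ∑ _j ∈ Finset.range J, a := by simp [mul_comm]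
        _ ≤ _ := Finset.sum_le_sum fun j _ => hmean j
    have h5 : variance (∑ j ∈ Finset.range J, Y j) P ≤ J := by
      rw [IndepFun.variance_sum (fun j _ => hLp j) (fun i _ j _ hij =>
        (h.ind (fun he => hij (hn.injective he))).comp (hFm i) (hFm j))]
      calc ∑ j ∈ Finset.range J, variance (Y j) P ≤ ∑ _j ∈ Finset.range J, (1 : ℝ) :=
            Finset.sum_le_sum fun j _ => hvar j
        _ = J := by simp
    refine (measure_mono ?_).trans (h3.trans (ENNReal.ofReal_le_ofReal ?_))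
    · intro ω hω
      simp only [mem_ofPred_eq] at hω ⊢
      rw [abs_sub_comm]
      refine le_trans ?_ (le_abs_self _)
      have e2 : (∑ j ∈ Finset.range J, Y j) ω = ∑ j ∈ Finset.range J, Y j ω := by simp
      rw [e2]
      linarith
    · rw [div_le_div_iff₀ (by positivity) (by positivity)]
      calc variance (∑ j ∈ Finset.range J, Y j) P * (a ^ 2 * J) ≤ J * (a ^ 2 * J) :=
            mul_le_mul_of_nonneg_right h5 (by positivity)
        _ = 4 * (a * J / 2) ^ 2 := by ring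
  have hnull : ∀ m : ℕ, P {ω | ∀ j, m ≤ j → X (n j) ω ∉ E j} = 0 := by
    intro m
    have hle : ∀ J : ℕ, ⌈2 * m / a⌉₊ + 1 ≤ J → P {ω | ∀ j, m ≤ j → X (n j) ω ∉ E j} ≤
        ENNReal.ofReal (4 / (a ^ 2 * J)) := by
      intro J hJ
      have hJ0 : 0 < J := by omega
      refine (measure_mono ?_).trans (hcheb J hJ0)
      intro ω hω
      simp only [mem_ofPred_eq] at hω ⊢
      have h1 : ∑ j ∈ Finset.range J, Y j ω ≤ m := by
        calc ∑ j ∈ Finset.range J, Y j ω ≤ ∑ j ∈ Finset.range J, (if j < m then (1 : ℝ) else 0) := by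
              refine Finset.sum_le_sum fun j _ => ?_
              by_cases hj : j < m
              · rw [if_pos hj]
                exact hF1 j _
              · rw [if_neg hj]
                exact (indicator_of_notMem (hω j (not_lt.1 hj)) _).le
          _ = (((Finset.range J).filter fun j => j < m).card : ℝ) := by
              rw [← Finset.sum_filter, Finset.sum_const, nsmul_eq_mul, mul_one]
          _ ≤ m := by
              have : ((Finset.range J).filter fun j => j < m).card ≤ (Finset.range m).card :=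
                Finset.card_le_card fun j hj => Finset.mem_range.2 (Finset.mem_filter.1 hj).2
              rw [Finset.card_range] at this
              exact_mod_cast this
      have h2 : 2 * m / a ≤ J := (Nat.le_ceil _).trans (by exact_mod_cast (Nat.le_succ _).trans hJ)
      rw [div_le_iff₀ ha] at h2
      linarith
    have hlim : Tendsto (fun J : ℕ => ENNReal.ofReal (4 / (a ^ 2 * J))) atTop (𝓝 0) := by
      rw [← ENNReal.ofReal_zero]
      refine ENNReal.tendsto_ofReal ?_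
      have h1 : Tendsto (fun J : ℕ => (a ^ 2 * (J : ℝ))) atTop atTop :=
        tendsto_natCast_atTop_atTop.const_mul_atTop (by positivity)
      exact h1.const_div_atTop 4
    exact le_antisymm (ge_of_tendsto hlim (eventually_atTop.2 ⟨_, hle⟩)) zero_le
  have h1 : ∀ᵐ ω ∂P, ∀ m : ℕ, ¬ ∀ j, m ≤ j → X (n j) ω ∉ E j := by
    rw [ae_all_iff]
    intro m
    rw [ae_iff]
    simpa using hnull m
  filter_upwards [h1] with ω hω
  rw [frequently_atTop]
  intro m
  have h2 := hω m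
  push Not at h2
  exact h2

open Pool.Agent.H983R4.LH in
/-- if the Lindelöf hypothesis is false, then almost surely some fixed power is exceeded infinitely often -/
theorem large_ae [IsProbabilityMeasure P] (h : UPts P X) (hLH : ¬ Adm 0) :
    ∃ κ : ℝ, 0 < κ ∧ ∀ᵐ ω ∂P, ∃ᶠ m : ℕ in atTop, (m : ℝ) ^ κ ≤ Z (X m ω) := by
  obtain ⟨ε, hε, hbig⟩ := large_of_not hLH le_rfl
  obtain ⟨δ, hδ, T₀, hT₀, hper⟩ := main_local (κ := ε / 2) (μ := 0 + ε) (by linarith) (by linarith)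
  choose t hRt hLt using fun j : ℕ => hbig (T₀ + j)
  have hwin : ∀ j : ℕ, ∃ m : ℕ, t j - 3 / 2 ≤ m ∧ (m : ℝ) ≤ t j + 1 / 2 ∧ ENNReal.ofReal (δ / 4) ≤
      volume (Ex (ε / 2) (t j) (1 / 2) ∩ Icc (m : ℝ) (m + 1)) := by
    intro j
    have h0 : (0 : ℝ) ≤ (j : ℝ) := Nat.cast_nonneg _
    have h1 : T₀ ≤ t j := by linarith [hRt j]
    have h2 := hper (t j) h1 (1 / 2) (by norm_num) (by norm_num) (hLt j)
    obtain ⟨m, hm1, hm2, h3⟩ := split_unit (E := Ex (ε / 2) (t j) (1 / 2))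
      (T := t j) (a := δ / 4) (fun x hx => hx.1) (by positivity)
      (by convert h2 using 2; ring)
    have hm0 : 0 ≤ m := by
      have : (0 : ℝ) ≤ m := by linarith
      exact_mod_cast this
    obtain ⟨m', rfl⟩ := Int.eq_ofNat_of_zero_le hm0
    push_cast at hm1 hm2 h3
    exact ⟨m', hm1, hm2, h3⟩
  choose m hm1 hm2 hm using hwin
  have hmt : Tendsto m atTop atTop := by
    refine tendsto_atTop_mono (f := fun j : ℕ => j) (fun j => ?_) tendsto_id
    have h1 : (j : ℝ) ≤ m j := by linarith [hRt j, hm1 j]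
    exact_mod_cast h1
  obtain ⟨φ, hφ, hmφ⟩ := strictMono_subseq_of_tendsto_atTop hmt
  have hbc := pw_bc h (n := m ∘ φ) hmφ (E := fun j => Ex (ε / 2) (t (φ j)) (1 / 2) ∩
    Icc (m (φ j) : ℝ) (m (φ j) + 1)) (fun j => (Ex_meas _ _ _).inter measurableSet_Icc)
    (fun j => inter_subset_right) (a := δ / 4) (by positivity) (fun j => hm (φ j))
  refine ⟨ε / 4, by positivity, ?_⟩
  filter_upwards [hbc] with ω hω
  rw [frequently_atTop] at hω ⊢
  intro N
  obtain ⟨j, hj, hjE⟩ := hω N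
  refine ⟨(m ∘ φ) j, hj.trans (hmφ.id_le j), ?_⟩
  obtain ⟨⟨_, h2⟩, _⟩ := hjE
  set i := φ j with hi
  have hti : 8 ≤ t i := by
    have h0 : (0 : ℝ) ≤ (i : ℝ) := Nat.cast_nonneg _
    linarith [hRt i]
  have h3 : (m i : ℝ) ≤ t i ^ 2 := by nlinarith [hm2 i]
  have h4 : (m i : ℝ) ^ (ε / 4) ≤ t i ^ (ε / 2) := by
    calc (m i : ℝ) ^ (ε / 4) ≤ (t i ^ 2) ^ (ε / 4) := Real.rpow_le_rpow (Nat.cast_nonneg _) h3 (by positivity)
      _ = t i ^ (ε / 2) := by
          rw [← Real.rpow_natCast, ← Real.rpow_mul (by linarith)]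
          congr 1
          push_cast
          ring
  exact h4.trans h2.le

/-- the asymptotic formula for the `2k`-th moment -/
def AsyM (k : ℕ) (c : ℝ) : Prop :=
  Tendsto (fun T : ℝ => (∫ t in (0 : ℝ)..T, Z t ^ (2 * (k : ℝ))) / gA ((k : ℝ) ^ 2) T) atTop (𝓝 c)

/-- the asymptotic formula for the `2k`-th moment at the sample -/
def AsyS (X : ℕ → Ω → ℝ) (k : ℕ) (c : ℝ) (ω : Ω) : Prop :=
  Tendsto (fun N : ℕ => (∑ n ∈ Finset.range N, Z (X n ω) ^ (2 * (k : ℝ))) / gA ((k : ℝ) ^ 2) N) atTop (𝓝 c)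

omit [MeasurableSpace Ω] in
/-- no asymptotic formula for large `k` if some fixed power is exceeded infinitely often -/
theorem not_asyS {ω : Ω} {κ : ℝ} (hκ : 0 < κ) (hω : ∃ᶠ m : ℕ in atTop, (m : ℝ) ^ κ ≤ Z (X m ω)) {k : ℕ}
    (hk1 : 1 ≤ k) (hk : 1 / κ ≤ k) (c : ℝ) : ¬ AsyS X k c ω := by
  intro h
  obtain ⟨B, hB, hg⟩ := gA_le ((k : ℝ) ^ 2) (1 / 2) (by positivity) (by norm_num)
  have h1 : ∀ᶠ N : ℕ in atTop, (∑ n ∈ Finset.range N, Z (X n ω) ^ (2 * (k : ℝ))) / gA ((k : ℝ) ^ 2) N < |c| + 1 :=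
    h.eventually (gt_mem_nhds (by linarith [le_abs_self c] : c < |c| + 1))
  set D : ℝ := (|c| + 1) * B * 4 with hD
  have hD0 : 0 ≤ D := by positivity
  have h2 : ∀ᶠ N : ℕ in atTop, D < (N : ℝ) ^ (1 / 2 : ℝ) := by
    have := (tendsto_rpow_atTop (show (0 : ℝ) < 1 / 2 by norm_num)).comp tendsto_natCast_atTop_atTop
    exact this.eventually_gt_atTop D
  have h1' := (tendsto_add_atTop_nat 1).eventually h1
  obtain ⟨N, hN, h3, h4, hN1⟩ := (hω.and_eventually (h1'.and (h2.and (eventually_ge_atTop 1)))).exists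
  have hNR : (1 : ℝ) ≤ N := by exact_mod_cast hN1
  have hk0 : (0 : ℝ) < k := by exact_mod_cast hk1
  rw [div_lt_iff₀ (gA_pos (by push_cast; linarith))] at h3
  have h5 : Z (X N ω) ^ (2 * (k : ℝ)) ≤ ∑ n ∈ Finset.range (N + 1), Z (X n ω) ^ (2 * (k : ℝ)) :=
    Finset.single_le_sum (f := fun n => Z (X n ω) ^ (2 * (k : ℝ)))
      (fun n _ => Real.rpow_nonneg (Z_nonneg _) _) (Finset.mem_range.2 (Nat.lt_succ_self N))
  have h6 : (N : ℝ) ^ (2 : ℝ) ≤ Z (X N ω) ^ (2 * (k : ℝ)) := by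
    calc (N : ℝ) ^ (2 : ℝ) ≤ (N : ℝ) ^ (κ * (2 * (k : ℝ))) := by
          apply Real.rpow_le_rpow_of_exponent_le hNR
          rw [div_le_iff₀ hκ] at hk
          nlinarith
      _ = ((N : ℝ) ^ κ) ^ (2 * (k : ℝ)) := Real.rpow_mul (by linarith) _ _
      _ ≤ _ := Real.rpow_le_rpow (by positivity) hN (by positivity)
  have h7 : gA ((k : ℝ) ^ 2) ((N + 1 : ℕ) : ℝ) ≤ B * (4 * (N : ℝ) ^ (3 / 2 : ℝ)) := by
    refine (hg _ (by push_cast; linarith)).trans (mul_le_mul_of_nonneg_left ?_ hB)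
    calc ((N + 1 : ℕ) : ℝ) ^ (1 + 1 / 2 : ℝ) ≤ (2 * (N : ℝ)) ^ (1 + 1 / 2 : ℝ) :=
          Real.rpow_le_rpow (by positivity) (by push_cast; linarith) (by norm_num)
      _ = 2 ^ (1 + 1 / 2 : ℝ) * (N : ℝ) ^ (1 + 1 / 2 : ℝ) := Real.mul_rpow (by norm_num) (by linarith)
      _ ≤ 4 * (N : ℝ) ^ (3 / 2 : ℝ) := by
          rw [show (1 : ℝ) + 1 / 2 = 3 / 2 by norm_num]
          apply mul_le_mul_of_nonneg_right _ (by positivity)
          calc (2 : ℝ) ^ (3 / 2 : ℝ) ≤ 2 ^ (2 : ℝ) := Real.rpow_le_rpow_of_exponent_le (by norm_num) (by norm_num)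
            _ = 4 := by norm_num
  have h8 : (N : ℝ) ^ (2 : ℝ) = (N : ℝ) ^ (1 / 2 : ℝ) * (N : ℝ) ^ (3 / 2 : ℝ) := by
    rw [← Real.rpow_add (by linarith)]
    norm_num
  have h9 : (N : ℝ) ^ (1 / 2 : ℝ) * (N : ℝ) ^ (3 / 2 : ℝ) < D * (N : ℝ) ^ (3 / 2 : ℝ) := by
    calc (N : ℝ) ^ (1 / 2 : ℝ) * (N : ℝ) ^ (3 / 2 : ℝ) = (N : ℝ) ^ (2 : ℝ) := h8.symm
      _ ≤ ∑ n ∈ Finset.range (N + 1), Z (X n ω) ^ (2 * (k : ℝ)) := h6.trans h5
      _ < (|c| + 1) * gA ((k : ℝ) ^ 2) ((N + 1 : ℕ) : ℝ) := h3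
      _ ≤ (|c| + 1) * (B * (4 * (N : ℝ) ^ (3 / 2 : ℝ))) := mul_le_mul_of_nonneg_left h7 (by positivity)
      _ = D * (N : ℝ) ^ (3 / 2 : ℝ) := by rw [hD]; ring
  have h10 := lt_of_mul_lt_mul_right h9 (by positivity)
  linarith

/-- the Lindelöf hypothesis -/
def LH : Prop := ∀ ε : ℝ, 0 < ε → ∃ C : ℝ, ∀ t : ℝ, 0 ≤ t → Z t ≤ C * (1 + t) ^ (0 + ε)

open Pool.Agent.H983R4.LH in
lemma adm_of (h : LH) : Adm 0 := by
  intro ε hε
  obtain ⟨C, hC⟩ := h ε hε
  refine ⟨C, fun t => ?_⟩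
  have h1 := hC |t| (abs_nonneg t)
  have h2 : ‖riemannZeta (1 / 2 + ((|t| : ℝ) : ℂ) * Complex.I)‖ = ‖riemannZeta (1 / 2 + t * Complex.I)‖ := by
    rcases abs_choice t with h4 | h4
    · rw [h4]
    · rw [h4, zeta_line_neg]
  unfold Z at h1
  rwa [h2] at h1

/-- asymptotic formulas for infinitely many even moments imply the Lindelöf hypothesis -/
theorem lh_of_inf {K : Set ℕ} (hK : K.Infinite) (hK1 : ∀ k ∈ K, 1 ≤ k) {c : ℕ → ℝ} (h : ∀ k ∈ K, AsyM k (c k)) :
    LH := by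
  intro ε hε
  obtain ⟨k, hk, hk2⟩ := hK.exists_gt ⌈2 / ε⌉₊
  have hk3 : 2 / ε ≤ k := (Nat.le_ceil _).trans (by exact_mod_cast hk2.le)
  have hk0 : (0 : ℝ) < k := by exact_mod_cast hK1 k hk
  exact lh_of_one hε (hK1 k hk) hk3 (mom_of_asy (by positivity) (by positivity) (h k hk))

/-- under the Lindelöf hypothesis the law of large numbers holds for all orders -/
theorem lln_of_lh [IsProbabilityMeasure P] (h : UPts P X) (hLH : LH) {β : ℝ} (hβ : 1 ≤ β) :
    ∀ᵐ ω ∂P, Tendsto (fun N : ℕ => (∑ n ∈ Finset.range N, Z (X n ω) ^ β) / MI (fun t => Z t ^ β) N) atTop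
      (𝓝 1) :=
  lln_exp h (by linarith) le_rfl (by linarith) hLH one_pos (low_lin hβ)

/-- **All moments at random points.** -/
theorem all_ae [IsProbabilityMeasure P] (h : UPts P X) : ∀ᵐ ω ∂P, ∀ K : Set ℕ, K.Infinite → (∀ k ∈ K, 1 ≤ k) →
    ∀ c : ℕ → ℝ, (∀ k ∈ K, AsyM k (c k)) ↔ ∀ k ∈ K, AsyS X k (c k) ω := by
  by_cases hLH : LH
  · have hall : ∀ k : ℕ, 1 ≤ k → ∀ᵐ ω ∂P, ∀ c : ℝ, AsyM k c ↔ AsyS X k c ω := by
      intro k hk1
      have hk1R : (1 : ℝ) ≤ k := by exact_mod_cast hk1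
      have hMp : ∀ᶠ N : ℕ in atTop, 0 < MI (fun t => Z t ^ (2 * (k : ℝ))) N := by
        filter_upwards [low_lin (β := 2 * (k : ℝ)) (by linarith), eventually_gt_atTop 0] with N h1 h2
        have : (0 : ℝ) < N := by exact_mod_cast h2
        linarith
      filter_upwards [lln_of_lh h hLH (β := 2 * (k : ℝ)) (by linarith)] with ω hω c
      unfold AsyM AsyS
      rw [real_iff (Zp_cont (by positivity)) (fun t => Real.rpow_nonneg (Z_nonneg t) _) (by positivity)]
      exact asy_iff hMp hω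
    have h2 := ae_all_iff.2 fun k : ℕ => (show ∀ᵐ ω ∂P, 1 ≤ k → ∀ c : ℝ, AsyM k c ↔ AsyS X k c ω by
      by_cases hk : 1 ≤ k
      · filter_upwards [hall k hk] with ω hω _
        exact hω
      · exact Eventually.of_forall fun ω hk' => absurd hk' hk)
    filter_upwards [h2] with ω hω K _ hK1 c
    exact forall₂_congr fun k hk => hω k (hK1 k hk) (c k)
  · obtain ⟨κ, hκ, hl⟩ := large_ae h fun hadm => hLH fun ε hε => by
      obtain ⟨C, hC⟩ := hadm ε hε
      refine ⟨C, fun t ht => ?_⟩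
      have h1 := hC t
      rwa [abs_of_nonneg ht] at h1
    filter_upwards [hl] with ω hω K hK hK1 c
    constructor
    · intro hM
      exact absurd (lh_of_inf hK hK1 hM) hLH
    · intro hS
      exfalso
      obtain ⟨k, hk, hk2⟩ := hK.exists_gt ⌈1 / κ⌉₊
      have hk3 : 1 / κ ≤ k := (Nat.le_ceil _).trans (by exact_mod_cast hk2.le)
      exact not_asyS hκ hω (hK1 k hk) hk3 (c k) (hS k hk)

end Pool.Agent.Q231.RS
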