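import Mathlib

/-!
# A strong law of large numbers for non-negative pairwise independent random variables of growing size
-/

set_option autoImplicit false

open MeasureTheory ProbabilityTheory Filter Topology Set

namespace Pool.Agent.Q231.RS

variable {Ω : Type*} [MeasurableSpace Ω]

/-- the sum of the means -/
noncomputable def EE (P : Measure Ω) (W : ℕ → Ω → ℝ) (N : ℕ) : ℝ := ∑ n ∈ Finset.range N, ∫ ω, W n ω ∂P

/-- the sum of the second moments -/
noncomputable def VV (P : Measure Ω) (W : ℕ → Ω → ℝ) (N : ℕ) : ℝ := ∑ n ∈ Finset.range N, ∫ ω, W n ω ^ 2 ∂P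

variable {P : Measure Ω} {W : ℕ → Ω → ℝ}

lemma EE_mono (h0 : ∀ n ω, 0 ≤ W n ω) : Monotone (EE P W) := by
  apply monotone_nat_of_le_succ
  intro N
  unfold EE
  rw [Finset.sum_range_succ]
  have := integral_nonneg (μ := P) (f := W N) (h0 N)
  linarith

lemma VV_mono : Monotone (VV P W) := by
  apply monotone_nat_of_le_succ
  intro N
  unfold VV
  rw [Finset.sum_range_succ]
  have := integral_nonneg (μ := P) (f := fun ω => W N ω ^ 2) (fun ω => sq_nonneg _)
  linarith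

/-- Chebyshev's inequality -/
lemma dev_abs [IsProbabilityMeasure P] (hW : ∀ n, MemLp (W n) 2 P) (hind : Pairwise fun i j => W i ⟂ᵢ[P] W j) {N : ℕ}
    {η : ℝ} (hη : 0 < η) (hM : 0 < EE P W N) :
    P {ω | η * EE P W N ≤ |∑ n ∈ Finset.range N, W n ω - EE P W N|} ≤
      ENNReal.ofReal (VV P W N / (η * EE P W N) ^ 2) := by
  have hmean : ∫ ω, (∑ n ∈ Finset.range N, W n) ω ∂P = EE P W N := by
    unfold EE
    simp only [Finset.sum_apply]
    exact integral_finsetSum _ fun n _ => (hW n).integrable (by norm_num)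
  have hvar : variance (∑ n ∈ Finset.range N, W n) P ≤ VV P W N := by
    rw [IndepFun.variance_sum (fun n _ => hW n) (fun i _ j _ hij => hind hij)]
    refine Finset.sum_le_sum fun n _ => ?_
    exact variance_le_expectation_sq (μ := P) (hW n).aestronglyMeasurable
  have hSLp : MemLp (∑ n ∈ Finset.range N, W n) 2 P := memLp_finsetSum' _ fun n _ => hW n
  have h3 := meas_ge_le_variance_div_sq hSLp (mul_pos hη hM)
  rw [hmean] at h3
  have e2 : {ω | η * EE P W N ≤ |(∑ n ∈ Finset.range N, W n) ω - EE P W N|} =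
      {ω | η * EE P W N ≤ |∑ n ∈ Finset.range N, W n ω - EE P W N|} := by
    ext ω
    simp [Finset.sum_apply]
  rw [e2] at h3
  exact h3.trans (ENNReal.ofReal_le_ofReal (div_le_div_of_nonneg_right hvar (by positivity)))

/-- the mean is at most the root of the second moment -/
lemma mean_le [IsProbabilityMeasure P] (hW : ∀ n, MemLp (W n) 2 P) (n : ℕ) :
    (∫ ω, W n ω ∂P) ^ 2 ≤ ∫ ω, W n ω ^ 2 ∂P := by
  have h1 := variance_nonneg (W n) P
  rw [variance_eq_sub (hW n)] at h1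
  have e : ∫ ω, (W n ^ 2) ω ∂P = ∫ ω, W n ω ^ 2 ∂P := rfl
  linarith

/-- **Law of large numbers** -/
theorem lln_abs [IsProbabilityMeasure P] (hW : ∀ n, MemLp (W n) 2 P) (h0 : ∀ n ω, 0 ≤ W n ω)
    (hind : Pairwise fun i j => W i ⟂ᵢ[P] W j) {C : ℝ}
    (hC : ∀ᶠ N : ℕ in atTop, VV P W N * Real.log (EE P W N) ^ 2 ≤ C * EE P W N ^ 2)
    (hM : Tendsto (EE P W) atTop atTop) :
    ∀ᵐ ω ∂P, Tendsto (fun N : ℕ => (∑ n ∈ Finset.range N, W n ω) / EE P W N) atTop (𝓝 1) := by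
  have hmono : Monotone (EE P W) := EE_mono h0
  have hV0 : ∀ N, 0 ≤ VV P W N := fun N => Finset.sum_nonneg fun n _ =>
    integral_nonneg (f := fun ω => W n ω ^ 2) (fun ω => sq_nonneg _)
  set e : ℕ → ℝ := fun j => Real.exp ((j : ℝ) ^ (3 / 4 : ℝ)) with he
  have he1 : ∀ j, 1 ≤ e j := fun j => Real.one_le_exp (by positivity)
  have hex : ∀ j, ∃ N, e j ≤ EE P W N := fun j => (hM.eventually_ge_atTop (e j)).exists
  classical
  set nn : ℕ → ℕ := fun j => Nat.find (hex j) with hnn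
  have hnn1 : ∀ j, e j ≤ EE P W (nn j) := fun j => Nat.find_spec (hex j)
  have hnnmin : ∀ j N, e j ≤ EE P W N → nn j ≤ N := fun j N hN => Nat.find_min' (hex j) hN
  have hnn2 : ∀ j, EE P W (nn j) ≤ e j + Real.sqrt (VV P W (nn j)) := by
    intro j
    have hpos : nn j ≠ 0 := by
      intro h0
      have h1 := hnn1 j
      rw [h0] at h1
      have h2 : EE P W 0 = 0 := by simp [EE]
      linarith [he1 j]
    obtain ⟨m, hm⟩ := Nat.exists_eq_succ_of_ne_zero hpos
    have hlt : EE P W m < e j := by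
      by_contra hcon
      push Not at hcon
      have := hnnmin j m hcon
      omega
    rw [hm, Nat.succ_eq_add_one]
    have h2 : ∫ ω, W m ω ∂P ≤ Real.sqrt (VV P W (m + 1)) := by
      apply Real.le_sqrt_of_sq_le
      refine (mean_le hW m).trans ?_
      unfold VV
      rw [Finset.sum_range_succ]
      have := hV0 m
      unfold VV at this
      linarith
    have h3 : EE P W (m + 1) = EE P W m + ∫ ω, W m ω ∂P := by
      unfold EE
      rw [Finset.sum_range_succ]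
    linarith
  have hj34 : Tendsto (fun j : ℕ => (j : ℝ) ^ (3 / 4 : ℝ)) atTop atTop :=
    (tendsto_rpow_atTop (by norm_num)).comp tendsto_natCast_atTop_atTop
  have hetop : Tendsto e atTop atTop := Real.tendsto_exp_atTop.comp hj34
  have hnntop : Tendsto nn atTop atTop := by
    rw [tendsto_atTop]
    intro K
    filter_upwards [hetop.eventually_gt_atTop (EE P W K)] with j hj
    by_contra hcon
    push Not at hcon
    have h1 := hmono hcon.le
    linarith [hnn1 j]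
  -- the relative size of the variance
  have hrel : ∀ᶠ j : ℕ in atTop, VV P W (nn j) ≤ |C| / (j : ℝ) ^ (3 / 2 : ℝ) * EE P W (nn j) ^ 2 := by
    filter_upwards [hnntop.eventually hC, eventually_ge_atTop 1] with j hj hj1
    have hj1R : (1 : ℝ) ≤ j := by exact_mod_cast hj1
    have h1 : (j : ℝ) ^ (3 / 4 : ℝ) ≤ Real.log (EE P W (nn j)) := by
      rw [Real.le_log_iff_exp_le (by linarith [hnn1 j, he1 j])]
      exact hnn1 j
    have h2 : (j : ℝ) ^ (3 / 2 : ℝ) ≤ Real.log (EE P W (nn j)) ^ 2 := by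
      have h3 : (j : ℝ) ^ (3 / 2 : ℝ) = ((j : ℝ) ^ (3 / 4 : ℝ)) ^ 2 := by
        rw [← Real.rpow_natCast, ← Real.rpow_mul (by linarith)]
        norm_num
      rw [h3]
      exact pow_le_pow_left₀ (by positivity) h1 2
    have hp : (0 : ℝ) < (j : ℝ) ^ (3 / 2 : ℝ) := by positivity
    rw [div_mul_eq_mul_div, le_div_iff₀ hp]
    calc VV P W (nn j) * (j : ℝ) ^ (3 / 2 : ℝ) ≤ VV P W (nn j) * Real.log (EE P W (nn j)) ^ 2 :=
          mul_le_mul_of_nonneg_left h2 (hV0 _)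
      _ ≤ C * EE P W (nn j) ^ 2 := hj
      _ ≤ |C| * EE P W (nn j) ^ 2 := mul_le_mul_of_nonneg_right (le_abs_self C) (by positivity)
  -- Borel-Cantelli
  have hBC : ∀ κ : ℝ, 0 < κ → ∀ᵐ ω ∂P, ∀ᶠ j : ℕ in atTop,
      |∑ n ∈ Finset.range (nn j), W n ω - EE P W (nn j)| < κ * EE P W (nn j) := by
    intro κ hκ
    obtain ⟨J₀, hJ₀⟩ := eventually_atTop.1 (hrel.and (eventually_ge_atTop 1))
    set A : ℕ → Set Ω := fun j => {ω | κ * EE P W (nn (j + J₀)) ≤
      |∑ n ∈ Finset.range (nn (j + J₀)), W n ω - EE P W (nn (j + J₀))|} with hA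
    have hsum : ∑' j, P (A j) ≠ ⊤ := by
      have h1 : ∀ j, P (A j) ≤ ENNReal.ofReal (|C| / κ ^ 2 * (1 / ((j + J₀ : ℕ) : ℝ) ^ (3 / 2 : ℝ))) := by
        intro j
        obtain ⟨h2, h3⟩ := hJ₀ (j + J₀) (by omega)
        have hMp : 0 < EE P W (nn (j + J₀)) := by linarith [hnn1 (j + J₀), he1 (j + J₀)]
        have h3R : (1 : ℝ) ≤ ((j + J₀ : ℕ) : ℝ) := by exact_mod_cast h3
        refine (dev_abs hW hind hκ hMp).trans (ENNReal.ofReal_le_ofReal ?_)
        rw [div_le_iff₀ (by positivity)]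
        refine h2.trans (le_of_eq ?_)
        field_simp
      refine ne_top_of_le_ne_top ?_ (ENNReal.tsum_le_tsum h1)
      have h2 : Summable fun j : ℕ => 1 / ((j + J₀ : ℕ) : ℝ) ^ (3 / 2 : ℝ) :=
        (summable_nat_add_iff (f := fun n : ℕ => 1 / (n : ℝ) ^ (3 / 2 : ℝ)) J₀).2
          (Real.summable_one_div_nat_rpow.2 (by norm_num))
      exact (h2.mul_left (|C| / κ ^ 2)).tsum_ofReal_ne_top
    filter_upwards [ae_eventually_notMem hsum] with ω hω
    obtain ⟨J₁, hJ₁⟩ := eventually_atTop.1 hω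
    filter_upwards [eventually_ge_atTop (J₁ + J₀)] with j hj
    have h1 := hJ₁ (j - J₀) (by omega)
    have e1 : j - J₀ + J₀ = j := by omega
    simp only [hA, mem_ofPred_eq, e1, not_le] at h1
    exact h1
  have hall := ae_all_iff.2 fun m : ℕ => hBC (1 / ((m : ℝ) + 2)) (by positivity)
  filter_upwards [hall] with ω hω
  set S : ℕ → ℝ := fun N => ∑ n ∈ Finset.range N, W n ω with hS
  have hSmono : Monotone S := by
    apply monotone_nat_of_le_succ
    intro N
    simp only [hS]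
    rw [Finset.sum_range_succ]
    linarith [h0 N ω]
  rw [Metric.tendsto_atTop]
  intro ε hε
  obtain ⟨m, hm⟩ := exists_nat_gt (7 / ε)
  set κ : ℝ := 1 / ((m : ℝ) + 2) with hκd
  have hκ0 : 0 < κ := by positivity
  have hκ1 : κ ≤ 1 / 2 := by
    rw [hκd]
    apply one_div_le_one_div_of_le (by norm_num)
    have : (0 : ℝ) ≤ (m : ℝ) := Nat.cast_nonneg m
    linarith
  have hκε : 7 * κ < ε := by
    rw [hκd, mul_one_div, div_lt_iff₀ (by positivity)]
    rw [div_lt_iff₀ hε] at hm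
    nlinarith
  have hF1 := hω m
  have hF2 : ∀ᶠ j : ℕ in atTop, EE P W (nn j) ≤ (1 + κ) * e j := by
    have h1 : Tendsto (fun j : ℕ => |C| / (j : ℝ) ^ (3 / 2 : ℝ)) atTop (𝓝 0) :=
      tendsto_const_nhds.div_atTop ((tendsto_rpow_atTop (by norm_num)).comp tendsto_natCast_atTop_atTop)
    have h2 : (0 : ℝ) < (κ / (1 + κ)) ^ 2 := by positivity
    filter_upwards [hrel, h1.eventually (gt_mem_nhds h2)] with j hj1 hj2
    have hMp : 0 < EE P W (nn j) := by linarith [hnn1 j, he1 j]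
    have h3 := hnn2 j
    have h4 : Real.sqrt (VV P W (nn j)) ≤ κ / (1 + κ) * EE P W (nn j) := by
      apply Real.sqrt_le_iff.2 ⟨by positivity, ?_⟩
      rw [mul_pow]
      exact hj1.trans (mul_le_mul_of_nonneg_right hj2.le (by positivity))
    have h5 : κ / (1 + κ) * EE P W (nn j) * (1 + κ) = κ * EE P W (nn j) := by field_simp
    nlinarith
  have hF3 : ∀ᶠ j : ℕ in atTop, e (j + 1) ≤ (1 + κ) * e j := by
    have h1 : Tendsto (fun j : ℕ => Real.exp ((j : ℝ) ^ (-(1 / 4) : ℝ))) atTop (𝓝 1) := by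
      have h2 : Tendsto (fun j : ℕ => (j : ℝ) ^ (-(1 / 4) : ℝ)) atTop (𝓝 0) :=
        (tendsto_rpow_neg_atTop (by norm_num)).comp tendsto_natCast_atTop_atTop
      have h3 := (Real.continuous_exp.tendsto 0).comp h2
      rw [Real.exp_zero] at h3
      exact h3
    filter_upwards [h1.eventually (gt_mem_nhds (by linarith : (1 : ℝ) < 1 + κ)), eventually_ge_atTop 1]
      with j hj hj1
    have hj1R : (1 : ℝ) ≤ j := by exact_mod_cast hj1
    have hjp : (0 : ℝ) < j := by linarith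
    have h2 : ((j + 1 : ℕ) : ℝ) ^ (3 / 4 : ℝ) ≤ (j : ℝ) ^ (3 / 4 : ℝ) + (j : ℝ) ^ (-(1 / 4) : ℝ) := by
      push_cast
      have e1 : ((j : ℝ) + 1) ^ (3 / 4 : ℝ) = ((j : ℝ) + 1) * ((j : ℝ) + 1) ^ (-(1 / 4) : ℝ) := by
        rw [show (3 / 4 : ℝ) = 1 + -(1 / 4) by norm_num, Real.rpow_add (by linarith), Real.rpow_one]
      have e2 : (j : ℝ) ^ (3 / 4 : ℝ) = (j : ℝ) * (j : ℝ) ^ (-(1 / 4) : ℝ) := by
        rw [show (3 / 4 : ℝ) = 1 + -(1 / 4) by norm_num, Real.rpow_add hjp, Real.rpow_one]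
      rw [e1, e2]
      have h3 : ((j : ℝ) + 1) ^ (-(1 / 4) : ℝ) ≤ (j : ℝ) ^ (-(1 / 4) : ℝ) :=
        Real.rpow_le_rpow_of_nonpos hjp (by linarith) (by norm_num)
      nlinarith
    calc e (j + 1) ≤ Real.exp ((j : ℝ) ^ (3 / 4 : ℝ) + (j : ℝ) ^ (-(1 / 4) : ℝ)) := Real.exp_le_exp.2 h2
      _ = Real.exp ((j : ℝ) ^ (-(1 / 4) : ℝ)) * e j := by rw [Real.exp_add, mul_comm]
      _ ≤ (1 + κ) * e j := mul_le_mul_of_nonneg_right hj.le (by linarith [he1 j])
  have hF : ∀ᶠ j : ℕ in atTop, (|S (nn j) - EE P W (nn j)| < κ * EE P W (nn j)) ∧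
      (|S (nn (j + 1)) - EE P W (nn (j + 1))| < κ * EE P W (nn (j + 1))) ∧ EE P W (nn (j + 1)) ≤ (1 + κ) * e (j + 1) ∧
      e (j + 1) ≤ (1 + κ) * e j := by
    have t1 := (tendsto_add_atTop_nat 1).eventually hF1
    have t2 := (tendsto_add_atTop_nat 1).eventually hF2
    filter_upwards [hF1, t1, t2, hF3] with j a1 a2 a3 a4
    exact ⟨a1, a2, a3, a4⟩
  have hjN : Tendsto (fun N : ℕ => ⌊Real.log (EE P W N) ^ (4 / 3 : ℝ)⌋₊) atTop atTop :=
    tendsto_nat_floor_atTop.comp ((tendsto_rpow_atTop (by norm_num)).comp (Real.tendsto_log_atTop.comp hM))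
  obtain ⟨N₀, hN₀⟩ := eventually_atTop.1 ((hjN.eventually hF).and (hM.eventually_ge_atTop 1))
  refine ⟨N₀, fun N hN => ?_⟩
  obtain ⟨⟨a1, a2, a3, a4⟩, hMN⟩ := hN₀ N hN
  set j : ℕ := ⌊Real.log (EE P W N) ^ (4 / 3 : ℝ)⌋₊ with hj
  have hMp : 0 < EE P W N := by linarith
  have hlog : 0 ≤ Real.log (EE P W N) := Real.log_nonneg hMN
  have hpow : (Real.log (EE P W N) ^ (4 / 3 : ℝ)) ^ (3 / 4 : ℝ) = Real.log (EE P W N) := by
    rw [← Real.rpow_mul hlog]
    norm_num
  have hj1 : e j ≤ EE P W N := by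
    have h1 : (j : ℝ) ≤ Real.log (EE P W N) ^ (4 / 3 : ℝ) := Nat.floor_le (by positivity)
    have h2 : (j : ℝ) ^ (3 / 4 : ℝ) ≤ Real.log (EE P W N) := by
      rw [← hpow]
      exact Real.rpow_le_rpow (Nat.cast_nonneg _) h1 (by norm_num)
    rwa [Real.le_log_iff_exp_le hMp] at h2
  have hj2 : EE P W N < e (j + 1) := by
    have h1 : Real.log (EE P W N) ^ (4 / 3 : ℝ) < ((j + 1 : ℕ) : ℝ) := by
      push_cast
      exact Nat.lt_floor_add_one _
    have h2 : Real.log (EE P W N) < ((j + 1 : ℕ) : ℝ) ^ (3 / 4 : ℝ) := by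
      calc Real.log (EE P W N) = (Real.log (EE P W N) ^ (4 / 3 : ℝ)) ^ (3 / 4 : ℝ) := hpow.symm
        _ < _ := Real.rpow_lt_rpow (by positivity) h1 (by norm_num)
    calc EE P W N = Real.exp (Real.log (EE P W N)) := (Real.exp_log hMp).symm
      _ < _ := Real.exp_lt_exp.2 h2
  have hle : nn j ≤ N := hnnmin j N hj1
  have hlt : N ≤ nn (j + 1) := by
    by_contra hcon
    push Not at hcon
    have h1 := hmono hcon.le
    linarith [hnn1 (j + 1)]
  have b1 := abs_lt.1 a1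
  have b2 := abs_lt.1 a2
  have hup : S N ≤ (1 + κ) ^ 3 * EE P W N := by
    have h1 := hSmono hlt
    have h2 : S (nn (j + 1)) ≤ (1 + κ) * EE P W (nn (j + 1)) := by linarith [b2.2]
    calc S N ≤ (1 + κ) * EE P W (nn (j + 1)) := h1.trans h2
      _ ≤ (1 + κ) * ((1 + κ) * ((1 + κ) * e j)) := by
          have h3 : EE P W (nn (j + 1)) ≤ (1 + κ) * ((1 + κ) * e j) :=
            a3.trans (mul_le_mul_of_nonneg_left a4 (by linarith))
          exact mul_le_mul_of_nonneg_left h3 (by linarith)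
      _ = (1 + κ) ^ 3 * e j := by ring
      _ ≤ _ := mul_le_mul_of_nonneg_left hj1 (by positivity)
  have hlow : (1 - κ) * EE P W N ≤ (1 + κ) * S N := by
    have h1 := hSmono hle
    have h2 : (1 - κ) * EE P W (nn j) ≤ S (nn j) := by linarith [b1.1]
    have h3 : (1 - κ) * e j ≤ S N :=
      (mul_le_mul_of_nonneg_left (hnn1 j) (by linarith)).trans (h2.trans h1)
    have h4 : EE P W N ≤ (1 + κ) * e j := hj2.le.trans a4
    calc (1 - κ) * EE P W N ≤ (1 - κ) * ((1 + κ) * e j) := mul_le_mul_of_nonneg_left h4 (by linarith)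
      _ = (1 + κ) * ((1 - κ) * e j) := by ring
      _ ≤ _ := mul_le_mul_of_nonneg_left h3 (by linarith)
  rw [Real.dist_eq, abs_lt]
  constructor
  · rw [lt_sub_iff_add_lt, lt_div_iff₀ hMp]
    have h1 : (1 + κ) * S N ≤ S N + κ * ((1 + κ) ^ 3 * EE P W N) := by
      have := mul_le_mul_of_nonneg_left hup hκ0.le
      linarith
    have h2 : (1 + κ) ^ 3 ≤ 4 := by nlinarith [sq_nonneg κ]
    have h3 : κ * ((1 + κ) ^ 3 * EE P W N) ≤ κ * (4 * EE P W N) := by
      apply mul_le_mul_of_nonneg_left _ hκ0.le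
      exact mul_le_mul_of_nonneg_right h2 hMp.le
    nlinarith
  · rw [sub_lt_iff_lt_add, div_lt_iff₀ hMp]
    have h2 : (1 + κ) ^ 3 ≤ 1 + 7 * κ := by nlinarith [sq_nonneg κ, mul_nonneg hκ0.le (sq_nonneg κ)]
    have h3 := mul_le_mul_of_nonneg_right h2 hMp.le
    nlinarith

end Pool.Agent.Q231.RS
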