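import Pool.Agent.Q231.RS.LLgen

/-!
# Stratified random points
-/

set_option autoImplicit false

open MeasureTheory ProbabilityTheory Filter Topology Set

namespace Pool.Agent.Q231.RS

variable {Ω : Type*} [MeasurableSpace Ω]

/-- pairwise independent points, the `n`-th one uniformly distributed on `[a n, a (n + 1)]` -/
structure SPts (a : ℕ → ℝ) (P : Measure Ω) (X : ℕ → Ω → ℝ) : Prop where
  meas : ∀ n, Measurable (X n)
  law : ∀ n : ℕ, P.map (X n) = (ENNReal.ofReal (a (n + 1) - a n))⁻¹ • volume.restrict (Icc (a n) (a (n + 1)))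
  ind : Pairwise fun i j => X i ⟂ᵢ[P] X j

variable {P : Measure Ω} {X : ℕ → Ω → ℝ} {f : ℝ → ℝ} {a : ℕ → ℝ}

lemma SPts.mem (h : SPts a P X) (n : ℕ) : ∀ᵐ ω ∂P, X n ω ∈ Icc (a n) (a (n + 1)) := by
  have h1 : ∀ᵐ x ∂(P.map (X n)), x ∈ Icc (a n) (a (n + 1)) := by
    rw [h.law]
    exact Measure.ae_smul_measure (ae_restrict_mem measurableSet_Icc) _
  exact ae_of_ae_map (h.meas n).aemeasurable h1

lemma SPts.int (h : SPts a P X) (ha : StrictMono a) {g : ℝ → ℝ} (hg : Continuous g) (n : ℕ) :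
    (a (n + 1) - a n) * ∫ ω, g (X n ω) ∂P = ∫ t in (a n)..(a (n + 1)), g t := by
  have hl : 0 < a (n + 1) - a n := by linarith [ha (Nat.lt_succ_self n)]
  rw [← integral_map (h.meas n).aemeasurable hg.aestronglyMeasurable, h.law, integral_smul_measure,
    intervalIntegral.integral_of_le (by linarith), integral_Icc_eq_integral_Ioc, ENNReal.toReal_inv,
    ENNReal.toReal_ofReal hl.le, smul_eq_mul, ← mul_assoc, mul_inv_cancel₀ hl.ne', one_mul]

lemma SPts.memLp [IsProbabilityMeasure P] (h : SPts a P X) {g : ℝ → ℝ} (hg : Continuous g) (n : ℕ) :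
    MemLp (fun ω => g (X n ω)) 2 P := by
  obtain ⟨C, hC⟩ := (isCompact_Icc (a := a n) (b := a (n + 1))).exists_bound_of_continuousOn hg.continuousOn
  refine MemLp.of_bound (hg.measurable.comp (h.meas n)).aestronglyMeasurable C ?_
  filter_upwards [h.mem n] with ω hω
  exact hC _ hω

/-- the weighted values -/
noncomputable def WW (a : ℕ → ℝ) (f : ℝ → ℝ) (X : ℕ → Ω → ℝ) (n : ℕ) (ω : Ω) : ℝ := (a (n + 1) - a n) * f (X n ω)

lemma WW_mean (h : SPts a P X) (ha : StrictMono a) (hf : Continuous f) (n : ℕ) :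
    ∫ ω, WW a f X n ω ∂P = ∫ t in (a n)..(a (n + 1)), f t := by
  unfold WW
  rw [integral_const_mul, h.int ha hf]

lemma WW_sq (h : SPts a P X) (ha : StrictMono a) (hf : Continuous f) (n : ℕ) :
    ∫ ω, WW a f X n ω ^ 2 ∂P = (a (n + 1) - a n) * ∫ t in (a n)..(a (n + 1)), f t ^ 2 := by
  unfold WW
  simp_rw [mul_pow]
  rw [integral_const_mul, ← h.int ha (g := fun t => f t ^ 2) (by fun_prop)]
  ring

lemma EE_WW (h : SPts a P X) (ha : StrictMono a) (hf : Continuous f) (N : ℕ) :
    EE P (WW a f X) N = ∫ t in (a 0)..(a N), f t := by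
  unfold EE
  simp_rw [WW_mean h ha hf]
  exact intervalIntegral.sum_integral_adjacent_intervals (μ := volume) (f := f)
    (a := a) (n := N) (fun k _ => hf.intervalIntegrable _ _)

/-- **the law of large numbers for stratified random points** -/
theorem lln_strata [IsProbabilityMeasure P] (h : SPts a P X) (ha : StrictMono a) (hf : Continuous f)
    (hf0 : ∀ t, 0 ≤ f t) {V : ℕ → ℝ}
    (hV : ∀ᶠ N : ℕ in atTop, ∑ n ∈ Finset.range N, (a (n + 1) - a n) * ∫ t in (a n)..(a (n + 1)), f t ^ 2 ≤ V N) {C : ℝ}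
    (hC : ∀ᶠ N : ℕ in atTop, V N * Real.log (∫ t in (a 0)..(a N), f t) ^ 2 ≤ C * (∫ t in (a 0)..(a N), f t) ^ 2)
    (hM : Tendsto (fun N => ∫ t in (a 0)..(a N), f t) atTop atTop) :
    ∀ᵐ ω ∂P, Tendsto (fun N : ℕ => (∑ n ∈ Finset.range N, (a (n + 1) - a n) * f (X n ω)) /
      ∫ t in (a 0)..(a N), f t) atTop (𝓝 1) := by
  have hE : EE P (WW a f X) = fun N => ∫ t in (a 0)..(a N), f t := funext fun N => EE_WW h ha hf N
  have hm : ∀ n, Measurable fun x : ℝ => (a (n + 1) - a n) * f x := fun n => by fun_prop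
  have key := lln_abs (P := P) (W := WW a f X) (C := C)
    (fun n => h.memLp (g := fun x => (a (n + 1) - a n) * f x) (by fun_prop) n)
    (fun n ω => mul_nonneg (by linarith [ha (Nat.lt_succ_self n)]) (hf0 _))
    (fun i j hij => (h.ind hij).comp (hm i) (hm j)) ?_ ?_
  · rw [hE] at key
    exact key
  · filter_upwards [hV, hC] with N h1 h2
    have e1 : VV P (WW a f X) N = ∑ n ∈ Finset.range N, (a (n + 1) - a n) * ∫ t in (a n)..(a (n + 1)), f t ^ 2 := by
      unfold VV
      exact Finset.sum_congr rfl fun n _ => WW_sq h ha hf n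
    rw [e1, hE]
    exact (mul_le_mul_of_nonneg_right h1 (sq_nonneg _)).trans h2
  · rw [hE]
    exact hM

/-- the sum of the second moments in terms of an upper bound for the products -/
lemma V_A (ha : StrictMono a) (hf : Continuous f) (hf0 : ∀ t, 0 ≤ f t) {s : ℝ} {N : ℕ}
    (hs : ∀ n < N, ∀ t ∈ Icc (a n) (a (n + 1)), (a (n + 1) - a n) * f t ≤ s) :
    ∑ n ∈ Finset.range N, (a (n + 1) - a n) * ∫ t in (a n)..(a (n + 1)), f t ^ 2 ≤ s * ∫ t in (a 0)..(a N), f t := by
  rw [← intervalIntegral.sum_integral_adjacent_intervals (μ := volume) (f := f)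
    (a := a) (n := N) (fun k _ => hf.intervalIntegrable _ _), Finset.mul_sum]
  refine Finset.sum_le_sum fun n hn => ?_
  have hl := ha (Nat.lt_succ_self n)
  rw [← intervalIntegral.integral_const_mul, ← intervalIntegral.integral_const_mul]
  refine intervalIntegral.integral_mono_on hl.le ((by fun_prop : Continuous fun t => (a (n + 1) - a n) * f t ^ 2).intervalIntegrable _ _)
    ((hf.const_mul s).intervalIntegrable _ _) fun t ht => ?_
  have h1 := hs n (Finset.mem_range.1 hn) t ht
  calc (a (n + 1) - a n) * f t ^ 2 = ((a (n + 1) - a n) * f t) * f t := by ring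
    _ ≤ s * f t := mul_le_mul_of_nonneg_right h1 (hf0 t)

/-- the sum of the second moments in terms of the longest stratum -/
lemma V_B (ha : StrictMono a) (hf : Continuous f) {L : ℝ} {N : ℕ} (hL : ∀ n < N, a (n + 1) - a n ≤ L) :
    ∑ n ∈ Finset.range N, (a (n + 1) - a n) * ∫ t in (a n)..(a (n + 1)), f t ^ 2 ≤
      L * ∫ t in (a 0)..(a N), f t ^ 2 := by
  rw [← intervalIntegral.sum_integral_adjacent_intervals (μ := volume) (f := fun t => f t ^ 2)
    (a := a) (n := N) (fun k _ => (by fun_prop : Continuous fun t => f t ^ 2).intervalIntegrable _ _), Finset.mul_sum]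
  refine Finset.sum_le_sum fun n hn => ?_
  have hl := ha (Nat.lt_succ_self n)
  refine mul_le_mul_of_nonneg_right (hL n (Finset.mem_range.1 hn)) ?_
  exact intervalIntegral.integral_nonneg hl.le fun t _ => sq_nonneg _

end Pool.Agent.Q231.RS
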