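import Pool.Agent.Q231.RS.Unif

/-!
# Random sampling of the moments of zeta
-/

set_option autoImplicit false

open MeasureTheory Filter Topology Set Real

namespace Pool.Agent.Q231.RS

open Pool.Agent.W188.Mom

/-- the integral of `|ζ|^p` over `[0, T]` is `O(T^(m + ε))` -/
def MomBd (p m : ℝ) : Prop := ∀ ε : ℝ, 0 < ε → ∃ B : ℝ, ∀ T : ℝ, 1 ≤ T →
  ∫ t in (0 : ℝ)..T, Z t ^ p ≤ B * T ^ (m + ε)

/-- `|ζ|^p` on `[0, T]` -/
noncomputable def gT (p T : ℝ) : ℝ → ENNReal := (Icc (0 : ℝ) T).indicator fun t => ENNReal.ofReal (Z t ^ p)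

lemma gT_meas {p : ℝ} (hp : 0 < p) (T : ℝ) : Measurable (gT p T) :=
  (Zp_cont hp).measurable.ennreal_ofReal.indicator measurableSet_Icc

lemma gT_mono (p : ℝ) {S T : ℝ} (h : S ≤ T) (t : ℝ) : gT p S t ≤ gT p T t := by
  unfold gT
  exact indicator_le_indicator_of_subset (Icc_subset_Icc_right h) (fun _ => bot_le) t

variable {Ω : Type*} [MeasurableSpace Ω] {J : Type*}

/-- the sum of `|ζ|^p` over the sample points in `[0, T]` -/
noncomputable def SS (p : ℝ) (X : J → Ω → ℝ) (ω : Ω) (T : ℝ) : ENNReal := ∑' j, gT p T (X j ω)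

lemma SS_mono (p : ℝ) (X : J → Ω → ℝ) (ω : Ω) {S T : ℝ} (h : S ≤ T) : SS p X ω S ≤ SS p X ω T :=
  ENNReal.tsum_le_tsum fun _ => gT_mono p h _

/-- the sum over the sample is `O(T^(m + ε))` -/
def SampBd (p m : ℝ) (X : J → Ω → ℝ) (ω : Ω) : Prop := ∀ ε : ℝ, 0 < ε → ∃ B : ℝ, ∀ T : ℝ, 1 ≤ T →
  SS p X ω T ≤ ENNReal.ofReal (B * T ^ (m + ε))

/-- the mean number of the sample points in a subset `E` of `[0, ∞)` is at most `C |E|` -/
def Sparse (P : Measure Ω) (X : J → Ω → ℝ) (C : ℝ) : Prop :=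
  ∀ E : Set ℝ, MeasurableSet E → E ⊆ Ici 0 → ∑' j, P (X j ⁻¹' E) ≤ ENNReal.ofReal C * volume E

lemma lint_gT {p : ℝ} (hp : 0 < p) {T : ℝ} (hT : 0 ≤ T) :
    ∫⁻ t, gT p T t = ENNReal.ofReal (∫ t in (0 : ℝ)..T, Z t ^ p) := by
  unfold gT
  rw [lintegral_indicator measurableSet_Icc, intervalIntegral.integral_of_le hT,
    ← integral_Icc_eq_integral_Ioc, ofReal_integral_eq_lintegral_ofReal]
  · exact (Zp_cont hp).continuousOn.integrableOn_compact isCompact_Icc
  · exact Eventually.of_forall fun t => Real.rpow_nonneg (Z_nonneg t) p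

lemma mean_SS [Countable J] {P : Measure Ω} {p : ℝ} (hp : 0 < p) {X : J → Ω → ℝ} (hX : ∀ j, Measurable (X j))
    {C : ℝ} (hsp : Sparse P X C) {T : ℝ} (hT : 0 ≤ T) :
    ∫⁻ ω, SS p X ω T ∂P ≤ ENNReal.ofReal C * ENNReal.ofReal (∫ t in (0 : ℝ)..T, Z t ^ p) := by
  unfold SS
  rw [lintegral_tsum (f := fun j ω => gT p T (X j ω)) fun j => ((gT_meas hp T).comp (hX j)).aemeasurable]
  have h1 : ∀ j, ∫⁻ ω, gT p T (X j ω) ∂P = ∫⁻ t, gT p T t ∂(P.map (X j)) := fun j =>
    (lintegral_map (gT_meas hp T) (hX j)).symm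
  simp_rw [h1]
  rw [← lintegral_sum_measure, ← lint_gT hp hT]
  set μ := Measure.sum fun j => P.map (X j) with hμ
  have h2 : μ.restrict (Icc 0 T) ≤ (ENNReal.ofReal C • (volume : Measure ℝ)).restrict (Icc 0 T) := by
    rw [Measure.le_iff]
    intro E hE
    rw [Measure.restrict_apply hE, Measure.restrict_apply hE, hμ,
      Measure.sum_apply _ (hE.inter measurableSet_Icc), Measure.smul_apply, smul_eq_mul]
    have h3 := hsp (E ∩ Icc 0 T) (hE.inter measurableSet_Icc) (fun x hx => hx.2.1)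
    refine le_trans (le_of_eq ?_) h3
    congr 1
    funext j
    rw [Measure.map_apply (hX j) (hE.inter measurableSet_Icc)]
  have h4 : ∀ ν : Measure ℝ, ∫⁻ t, gT p T t ∂ν = ∫⁻ t in Icc 0 T, ENNReal.ofReal (Z t ^ p) ∂ν := by
    intro ν
    unfold gT
    rw [lintegral_indicator measurableSet_Icc]
  rw [h4, h4]
  refine (lintegral_mono' h2 le_rfl).trans (le_of_eq ?_)
  rw [Measure.restrict_smul, lintegral_smul_measure, smul_eq_mul]

/-- **from the moment to the samples** -/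
theorem samp_of_mom [Countable J] {P : Measure Ω} {p m : ℝ} (hp : 0 < p) {X : J → Ω → ℝ}
    (hX : ∀ j, Measurable (X j)) {C : ℝ} (hsp : Sparse P X C) (h : MomBd p m) (hm : 0 ≤ m) :
    ∀ᵐ ω ∂P, SampBd p m X ω := by
  -- one exponent
  have key : ∀ e : ℝ, 0 < e → ∀ᵐ ω ∂P, ∃ B : ℝ, ∀ T : ℝ, 1 ≤ T →
      SS p X ω T ≤ ENNReal.ofReal (B * T ^ (m + e)) := by
    intro e he
    obtain ⟨B, hB⟩ := h (e / 2) (by linarith)
    set b : ℝ := m + e with hb
    have hb0 : 0 < b := by rw [hb]; linarith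
    set Y : Ω → ENNReal := fun ω => ∑' k : ℕ, ENNReal.ofReal ((2 : ℝ) ^ (-(b * k))) * SS p X ω (2 ^ k) with hY
    have hSm : ∀ T, Measurable fun ω => SS p X ω T := fun T =>
      Measurable.ennreal_tsum fun j => (gT_meas hp T).comp (hX j)
    have hYint : ∫⁻ ω, Y ω ∂P ≠ ⊤ := by
      rw [hY]
      rw [lintegral_tsum fun k => ((hSm _).const_mul _).aemeasurable]
      have h1 : ∀ k : ℕ, ∫⁻ ω, ENNReal.ofReal ((2 : ℝ) ^ (-(b * k))) * SS p X ω (2 ^ k) ∂P ≤
          ENNReal.ofReal (|C| * |B|) * ENNReal.ofReal ((2 : ℝ) ^ (-(e / 2))) ^ k := by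
        intro k
        rw [lintegral_const_mul _ (hSm _)]
        have h2 : (1 : ℝ) ≤ 2 ^ k := one_le_pow₀ (by norm_num)
        have h3 := mean_SS (P := P) hp hX hsp (T := 2 ^ k) (by positivity)
        have h4 := hB (2 ^ k) h2
        have h5 : ∫ t in (0 : ℝ)..(2 ^ k), Z t ^ p ≤ |B| * ((2 : ℝ) ^ k) ^ (m + e / 2) :=
          h4.trans (mul_le_mul_of_nonneg_right (le_abs_self B) (by positivity))
        calc ENNReal.ofReal ((2 : ℝ) ^ (-(b * k))) * ∫⁻ ω, SS p X ω (2 ^ k) ∂P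
            ≤ ENNReal.ofReal ((2 : ℝ) ^ (-(b * k))) * (ENNReal.ofReal |C| *
              ENNReal.ofReal (|B| * ((2 : ℝ) ^ k) ^ (m + e / 2))) := by
              gcongr
              refine h3.trans ?_
              gcongr
              exact le_abs_self C
          _ = ENNReal.ofReal (|C| * |B|) * ENNReal.ofReal ((2 : ℝ) ^ (-(e / 2))) ^ k := by
              rw [← ENNReal.ofReal_mul (abs_nonneg C), ← ENNReal.ofReal_mul (by positivity),
                ← ENNReal.ofReal_pow (by positivity), ← ENNReal.ofReal_mul (by positivity)]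
              congr 1
              have e1 : ((2 : ℝ) ^ k) ^ (m + e / 2) = (2 : ℝ) ^ ((k : ℝ) * (m + e / 2)) := by
                rw [← Real.rpow_natCast, ← Real.rpow_mul (by norm_num)]
              have e2 : ((2 : ℝ) ^ (-(e / 2))) ^ k = (2 : ℝ) ^ (-(e / 2) * k) := by
                rw [← Real.rpow_natCast, ← Real.rpow_mul (by norm_num)]
              rw [e1, e2]
              have e3 : (2 : ℝ) ^ (-(b * k)) * (|C| * (|B| * (2 : ℝ) ^ ((k : ℝ) * (m + e / 2)))) =
                  |C| * |B| * ((2 : ℝ) ^ (-(b * k)) * (2 : ℝ) ^ ((k : ℝ) * (m + e / 2))) := by ring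
              rw [e3, ← Real.rpow_add (by norm_num)]
              congr 2
              rw [hb]
              ring
      refine ne_top_of_le_ne_top ?_ (ENNReal.tsum_le_tsum h1)
      rw [ENNReal.tsum_mul_left]
      refine ENNReal.mul_ne_top ENNReal.ofReal_ne_top ?_
      have h2 : ENNReal.ofReal ((2 : ℝ) ^ (-(e / 2))) < 1 := by
        rw [ENNReal.ofReal_lt_one]
        exact Real.rpow_lt_one_of_one_lt_of_neg (by norm_num) (by linarith)
      rw [ENNReal.tsum_geometric]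
      exact ENNReal.inv_ne_top.2 (tsub_pos_of_lt h2).ne'
    have hYm : Measurable Y := Measurable.ennreal_tsum fun k => (hSm _).const_mul _
    filter_upwards [ae_lt_top hYm hYint] with ω hω
    refine ⟨(2 : ℝ) ^ b * (Y ω).toReal, fun T hT => ?_⟩
    -- the dyadic scale
    set k : ℕ := ⌈Real.logb 2 T⌉₊ with hk
    have hlog : 0 ≤ Real.logb 2 T := Real.logb_nonneg (by norm_num) hT
    have h1 : T ≤ 2 ^ k := by
      have h2 : Real.logb 2 T ≤ k := Nat.le_ceil _
      rw [Real.logb_le_iff_le_rpow (by norm_num) (by linarith)] at h2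
      rwa [Real.rpow_natCast] at h2
    have h2 : (2 : ℝ) ^ k ≤ 2 * T := by
      have h3 : (k : ℝ) < Real.logb 2 T + 1 := Nat.ceil_lt_add_one hlog
      have h4 : (k : ℝ) ≤ Real.logb 2 (2 * T) := by
        rw [Real.logb_mul (by norm_num) (by linarith), Real.logb_self_eq_one (by norm_num)]
        linarith
      rw [Real.le_logb_iff_rpow_le (by norm_num) (by linarith)] at h4
      rwa [Real.rpow_natCast] at h4
    have h3 : ENNReal.ofReal ((2 : ℝ) ^ (-(b * k))) * SS p X ω (2 ^ k) ≤ Y ω :=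
      ENNReal.le_tsum (f := fun k : ℕ => ENNReal.ofReal ((2 : ℝ) ^ (-(b * k))) * SS p X ω (2 ^ k)) k
    have hpos : (0 : ℝ) < 2 ^ (b * (k : ℝ)) := by positivity
    have h4 : SS p X ω (2 ^ k) ≤ ENNReal.ofReal ((2 : ℝ) ^ (b * (k : ℝ))) * Y ω := by
      calc SS p X ω (2 ^ k) = ENNReal.ofReal ((2 : ℝ) ^ (b * (k : ℝ))) *
            (ENNReal.ofReal ((2 : ℝ) ^ (-(b * k))) * SS p X ω (2 ^ k)) := by
            rw [← mul_assoc, ← ENNReal.ofReal_mul hpos.le, ← Real.rpow_add (by norm_num), add_neg_cancel,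
              Real.rpow_zero, ENNReal.ofReal_one, one_mul]
        _ ≤ _ := by gcongr
    have h5 : (2 : ℝ) ^ (b * (k : ℝ)) ≤ 2 ^ b * T ^ b := by
      rw [← Real.mul_rpow (by norm_num) (by linarith), mul_comm b, Real.rpow_mul (by norm_num),
        Real.rpow_natCast]
      exact Real.rpow_le_rpow (by positivity) h2 hb0.le
    calc SS p X ω T ≤ SS p X ω (2 ^ k) := SS_mono p X ω h1
      _ ≤ ENNReal.ofReal ((2 : ℝ) ^ (b * (k : ℝ))) * Y ω := h4
      _ ≤ ENNReal.ofReal (2 ^ b * T ^ b) * ENNReal.ofReal (Y ω).toReal := by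
          rw [ENNReal.ofReal_toReal hω.ne]
          gcongr
      _ = ENNReal.ofReal (2 ^ b * (Y ω).toReal * T ^ b) := by
          rw [← ENNReal.ofReal_mul (by positivity)]
          congr 1
          ring
  have hall := ae_all_iff.2 fun q : ℕ => key (1 / ((q : ℝ) + 1)) (by positivity)
  filter_upwards [hall] with ω hω ε hε
  obtain ⟨q, hq⟩ := exists_nat_one_div_lt hε
  obtain ⟨B, hB⟩ := hω q
  refine ⟨|B|, fun T hT => (hB T hT).trans ?_⟩
  apply ENNReal.ofReal_le_ofReal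
  refine (mul_le_mul_of_nonneg_right (le_abs_self B) (by positivity)).trans ?_
  refine mul_le_mul_of_nonneg_left ?_ (abs_nonneg B)
  exact Real.rpow_le_rpow_of_exponent_le hT (by linarith)

end Pool.Agent.Q231.RS
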