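import Pool.Agent.Q231.RS.Mom2
import Pool.Agent.Q231.RS.Dil

/-!
# Translates and dilates of the integers: sparsity, and the sums over them
-/

set_option autoImplicit false

open MeasureTheory Filter Topology Set Real

namespace Pool.Agent.Q231.RS

open Pool.Agent.W188.Mom

/-- translates of the natural numbers are sparse -/
lemma sparse_translate : Sparse (volume.restrict (Icc (0 : ℝ) 1)) (fun (n : ℕ) θ => (n : ℝ) + θ) 1 := by
  intro E hE _
  rw [ENNReal.ofReal_one, one_mul]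
  have h1 : ∀ n : ℕ, (volume.restrict (Icc (0 : ℝ) 1)) ((fun θ : ℝ => (n : ℝ) + θ) ⁻¹' E) ≤
      volume (E ∩ Ico (n : ℝ) (n + 1)) := by
    intro n
    have hm : MeasurableSet ((fun θ : ℝ => (n : ℝ) + θ) ⁻¹' E) :=
      (by fun_prop : Measurable fun θ : ℝ => (n : ℝ) + θ) hE
    rw [Measure.restrict_apply hm]
    have h2 : (fun θ : ℝ => (n : ℝ) + θ) ⁻¹' E ∩ Icc 0 1 ⊆
        (fun θ : ℝ => (n : ℝ) + θ) ⁻¹' (E ∩ Ico (n : ℝ) (n + 1)) ∪ {1} := by
      rintro θ ⟨h3, h4⟩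
      rcases h4.2.lt_or_eq with h5 | h5
      · exact Or.inl ⟨h3, by simp only; linarith [h4.1], by simp only; linarith⟩
      · exact Or.inr h5
    refine (measure_mono h2).trans ((measure_union_le _ _).trans ?_)
    rw [measure_preimage_add, Real.volume_singleton, add_zero]
  refine (ENNReal.tsum_le_tsum h1).trans ?_
  have hdisj : Pairwise (Function.onFun Disjoint fun n : ℕ => E ∩ Ico (n : ℝ) (n + 1)) := by
    have key : ∀ i j : ℕ, i < j → Disjoint (E ∩ Ico (i : ℝ) (i + 1)) (E ∩ Ico (j : ℝ) (j + 1)) := by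
      intro i j hij
      rw [Set.disjoint_left]
      rintro x ⟨_, h2⟩ ⟨_, h3⟩
      have : (i : ℝ) + 1 ≤ j := by exact_mod_cast hij
      linarith [h2.2, h3.1]
    intro i j hij
    rcases lt_or_gt_of_ne hij with h | h
    · exact key i j h
    · exact (key j i h).symm
  rw [← measure_iUnion hdisj fun n => hE.inter measurableSet_Ico]
  exact measure_mono (iUnion_subset fun n => inter_subset_left)

/-- dilates of the positive integers are sparse -/
lemma sparse_dilate {a : ℝ} (ha : 0 < a) :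
    Sparse (volume.restrict (Icc a (2 * a))) (fun (k : ℕ) α => α * ((k : ℝ) + 1)) 2 := by
  intro E hE _
  set I : ℕ → Set ℝ := fun k => Icc (a * ((k : ℝ) + 1)) (2 * a * ((k : ℝ) + 1)) with hI
  have hIm : ∀ k, MeasurableSet (I k) := fun k => measurableSet_Icc
  have h1 : ∀ k : ℕ, (volume.restrict (Icc a (2 * a))) ((fun α : ℝ => α * ((k : ℝ) + 1)) ⁻¹' E) ≤
      ∫⁻ t in E, (I k).indicator (fun _ => ENNReal.ofReal (1 / ((k : ℝ) + 1))) t := by
    intro k
    have hk : (0 : ℝ) < (k : ℝ) + 1 := by positivity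
    have hm : MeasurableSet ((fun α : ℝ => α * ((k : ℝ) + 1)) ⁻¹' E) :=
      (by fun_prop : Measurable fun α : ℝ => α * ((k : ℝ) + 1)) hE
    rw [Measure.restrict_apply hm]
    have h2 : (fun α : ℝ => α * ((k : ℝ) + 1)) ⁻¹' E ∩ Icc a (2 * a) ⊆
        (fun α : ℝ => α * ((k : ℝ) + 1)) ⁻¹' (E ∩ I k) := by
      rintro α ⟨h3, h4⟩
      exact ⟨h3, mul_le_mul_of_nonneg_right h4.1 hk.le, mul_le_mul_of_nonneg_right h4.2 hk.le⟩
    refine (measure_mono h2).trans (le_of_eq ?_)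
    rw [Real.volume_preimage_mul_right hk.ne', lintegral_indicator (hIm k), Measure.restrict_restrict (hIm k),
      setLIntegral_const, abs_of_pos (by positivity), one_div, inter_comm]
  refine (ENNReal.tsum_le_tsum h1).trans ?_
  rw [← lintegral_tsum fun k => (measurable_const.indicator (hIm k)).aemeasurable]
  have h2 : ∀ t : ℝ, ∑' k : ℕ, (I k).indicator (fun _ => ENNReal.ofReal (1 / ((k : ℝ) + 1))) t ≤
      ENNReal.ofReal 2 := by
    intro t
    set M : ℕ := ⌊t / a⌋₊ with hM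
    have hsupp : ∀ k ∉ Finset.range M,
        (I k).indicator (fun _ => ENNReal.ofReal (1 / ((k : ℝ) + 1))) t = 0 := by
      intro k hk
      apply indicator_of_notMem
      intro hmem
      apply hk
      rw [Finset.mem_range, hM]
      have h3 : ((k + 1 : ℕ) : ℝ) ≤ t / a := by
        rw [le_div_iff₀ ha]
        push_cast
        linarith [hmem.1]
      exact Nat.le_floor h3
    rw [tsum_eq_sum hsupp]
    have h3 : ∀ k ∈ Finset.range M, (I k).indicator (fun _ => ENNReal.ofReal (1 / ((k : ℝ) + 1))) t ≤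
        ENNReal.ofReal (2 / M) := by
      intro k hk
      have hM0 : 0 < M := lt_of_le_of_lt (Nat.zero_le _) (Finset.mem_range.1 hk)
      have hM0R : (0 : ℝ) < M := by exact_mod_cast hM0
      by_cases hmem : t ∈ I k
      · rw [indicator_of_mem hmem]
        apply ENNReal.ofReal_le_ofReal
        have h4 : (M : ℝ) ≤ t / a := Nat.floor_le (by
          have : 0 ≤ a * ((k : ℝ) + 1) := by positivity
          exact div_nonneg (this.trans hmem.1) ha.le)
        have h5 : t / a ≤ 2 * ((k : ℝ) + 1) := by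
          rw [div_le_iff₀ ha]
          linarith [hmem.2]
        rw [div_le_div_iff₀ (by positivity) hM0R]
        linarith
      · rw [indicator_of_notMem hmem]
        exact bot_le
    refine (Finset.sum_le_sum h3).trans ?_
    rw [Finset.sum_const, Finset.card_range, nsmul_eq_mul, ← ENNReal.ofReal_natCast,
      ← ENNReal.ofReal_mul (Nat.cast_nonneg _)]
    apply ENNReal.ofReal_le_ofReal
    rcases Nat.eq_zero_or_pos M with h0 | h0
    · rw [h0]; simp
    · have : (M : ℝ) ≠ 0 := by positivity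
      rw [mul_div_cancel₀ _ this]
  refine (lintegral_mono h2).trans ?_
  rw [setLIntegral_const]

/-- dilates of the positive integers hit every subset of a unit interval -/
lemma hits_dilate' : Hits (volume.restrict (Icc (1 : ℝ) 2)) (fun (k : ℕ) α => α * ((k : ℝ) + 1)) (1 / 4)
    (fun n => 2 ≤ n) := by
  intro n hn E hE hsub
  refine (hits_dilate n hn E hE hsub).trans (measure_mono ?_)
  rintro α ⟨k, hk⟩
  have h1 := (hsub hk).1
  have h2 : (2 : ℝ) ≤ n := by exact_mod_cast hn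
  rcases Nat.eq_zero_or_pos k with h0 | h0
  · rw [h0] at h1
    simp only [Nat.cast_zero, mul_zero] at h1
    linarith
  · obtain ⟨j, rfl⟩ := Nat.exists_eq_succ_of_ne_zero h0.ne'
    refine ⟨j, ?_⟩
    have hk' : α * ((j.succ : ℕ) : ℝ) ∈ E := hk
    have : α * ((j.succ : ℕ) : ℝ) = α * ((j : ℝ) + 1) := by push_cast; ring
    rw [this] at hk'
    exact hk'

lemma ofReal_sum_range (f : ℕ → ℝ) (hf : ∀ n, 0 ≤ f n) (N : ℕ) :
    ∑ n ∈ Finset.range N, ENNReal.ofReal (f n) = ENNReal.ofReal (∑ n ∈ Finset.range N, f n) :=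
  (ENNReal.ofReal_sum_of_nonneg fun n _ => hf n).symm

lemma SS_translate {p θ : ℝ} (h0 : 0 < θ) (h1 : θ ≤ 1) (N : ℕ) :
    SS p (fun (n : ℕ) (θ : ℝ) => (n : ℝ) + θ) θ N = ENNReal.ofReal (∑ n ∈ Finset.range N, Z (n + θ) ^ p) := by
  unfold SS
  rw [tsum_eq_sum (s := Finset.range N)]
  · rw [← ofReal_sum_range _ fun n => Real.rpow_nonneg (Z_nonneg _) p]
    refine Finset.sum_congr rfl fun n hn => ?_
    have h2 : (n : ℝ) + 1 ≤ N := by exact_mod_cast Finset.mem_range.1 hn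
    exact indicator_of_mem (show (n : ℝ) + θ ∈ Icc (0 : ℝ) N from ⟨by positivity, by linarith⟩) _
  · intro n hn
    apply indicator_of_notMem
    intro hmem
    apply hn
    rw [Finset.mem_range]
    have h2 : (n : ℝ) < N := by linarith [hmem.2]
    exact_mod_cast h2

lemma SS_dilate {p α : ℝ} (h0 : 0 < α) (N : ℕ) :
    SS p (fun (k : ℕ) (α : ℝ) => α * ((k : ℝ) + 1)) α (α * N) =
      ENNReal.ofReal (∑ n ∈ Finset.range N, Z (α * ((n : ℝ) + 1)) ^ p) := by
  unfold SS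
  rw [tsum_eq_sum (s := Finset.range N)]
  · rw [← ofReal_sum_range _ fun n => Real.rpow_nonneg (Z_nonneg _) p]
    refine Finset.sum_congr rfl fun n hn => ?_
    have h2 : (n : ℝ) + 1 ≤ N := by exact_mod_cast Finset.mem_range.1 hn
    exact indicator_of_mem (show α * ((n : ℝ) + 1) ∈ Icc (0 : ℝ) (α * N) from
      ⟨by positivity, mul_le_mul_of_nonneg_left h2 h0.le⟩) _
  · intro n hn
    apply indicator_of_notMem
    intro hmem
    apply hn
    rw [Finset.mem_range]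
    have h2 := le_of_mul_le_mul_left hmem.2 h0
    have h3 : ((n + 1 : ℕ) : ℝ) ≤ N := by push_cast; exact h2
    exact_mod_cast h3

/-- the sample of the translates -/
lemma samp_translate {p m θ : ℝ} (hm : 0 ≤ m) (h0 : 0 < θ) (h1 : θ ≤ 1) :
    SampBd p m (fun (n : ℕ) (θ : ℝ) => (n : ℝ) + θ) θ ↔ ∀ ε : ℝ, 0 < ε → ∃ B : ℝ, ∀ N : ℕ, 1 ≤ N →
      ∑ n ∈ Finset.range N, Z (n + θ) ^ p ≤ B * (N : ℝ) ^ (m + ε) := by
  constructor
  · intro h ε hε
    obtain ⟨B, hB⟩ := h ε hε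
    refine ⟨|B|, fun N hN => ?_⟩
    have hNR : (1 : ℝ) ≤ N := by exact_mod_cast hN
    have h2 := hB N hNR
    rw [SS_translate h0 h1] at h2
    have h3 := h2.trans (ENNReal.ofReal_le_ofReal (mul_le_mul_of_nonneg_right (le_abs_self B)
      (by positivity : (0 : ℝ) ≤ (N : ℝ) ^ (m + ε))))
    rwa [ENNReal.ofReal_le_ofReal_iff (by positivity)] at h3
  · intro h ε hε
    obtain ⟨B, hB⟩ := h ε hε
    refine ⟨|B| * 2 ^ (m + ε), fun T hT => ?_⟩
    have h2 : T ≤ (⌈T⌉₊ : ℝ) := Nat.le_ceil T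
    have h3 : (⌈T⌉₊ : ℝ) ≤ 2 * T := by
      have := Nat.ceil_lt_add_one (by linarith : (0 : ℝ) ≤ T)
      linarith
    have hN1 : 1 ≤ ⌈T⌉₊ := by
      have : (1 : ℝ) ≤ (⌈T⌉₊ : ℝ) := hT.trans h2
      exact_mod_cast this
    refine (SS_mono p _ θ h2).trans ?_
    rw [SS_translate h0 h1]
    apply ENNReal.ofReal_le_ofReal
    refine (hB _ hN1).trans ?_
    have h4 : (⌈T⌉₊ : ℝ) ^ (m + ε) ≤ 2 ^ (m + ε) * T ^ (m + ε) := by
      rw [← Real.mul_rpow (by norm_num) (by linarith)]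
      exact Real.rpow_le_rpow (by positivity) h3 (by linarith)
    calc B * (⌈T⌉₊ : ℝ) ^ (m + ε) ≤ |B| * (⌈T⌉₊ : ℝ) ^ (m + ε) :=
          mul_le_mul_of_nonneg_right (le_abs_self B) (by positivity)
      _ ≤ |B| * (2 ^ (m + ε) * T ^ (m + ε)) := mul_le_mul_of_nonneg_left h4 (abs_nonneg B)
      _ = _ := by ring

/-- the sample of the dilates -/
lemma samp_dilate {p m α : ℝ} (hm : 0 ≤ m) (h0 : 0 < α) :
    SampBd p m (fun (k : ℕ) (α : ℝ) => α * ((k : ℝ) + 1)) α ↔ ∀ ε : ℝ, 0 < ε → ∃ B : ℝ, ∀ N : ℕ, 1 ≤ N →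
      ∑ n ∈ Finset.range N, Z (α * ((n : ℝ) + 1)) ^ p ≤ B * (N : ℝ) ^ (m + ε) := by
  constructor
  · intro h ε hε
    obtain ⟨B, hB⟩ := h ε hε
    set b : ℝ := max 1 α with hb
    have hb1 : 1 ≤ b := le_max_left _ _
    have hbα : α ≤ b := le_max_right _ _
    refine ⟨|B| * b ^ (m + ε), fun N hN => ?_⟩
    have hNR : (1 : ℝ) ≤ N := by exact_mod_cast hN
    have h2 := hB (b * N) (by nlinarith)
    have h3 := SS_mono p (fun (k : ℕ) (α : ℝ) => α * ((k : ℝ) + 1)) α
      (mul_le_mul_of_nonneg_right hbα (by linarith : (0 : ℝ) ≤ N))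
    rw [SS_dilate h0] at h3
    have h4 := h3.trans (h2.trans (ENNReal.ofReal_le_ofReal (mul_le_mul_of_nonneg_right (le_abs_self B)
      (by positivity : (0 : ℝ) ≤ (b * N) ^ (m + ε)))))
    rw [ENNReal.ofReal_le_ofReal_iff (by positivity), Real.mul_rpow (by linarith) (by linarith)] at h4
    rw [mul_assoc]
    exact h4
  · intro h ε hε
    obtain ⟨B, hB⟩ := h ε hε
    refine ⟨|B| * (1 / α + 1) ^ (m + ε), fun T hT => ?_⟩
    have hTα : 0 < T / α := div_pos (by linarith) h0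
    have h2 : T / α ≤ (⌈T / α⌉₊ : ℝ) := Nat.le_ceil _
    have h3 : (⌈T / α⌉₊ : ℝ) ≤ (1 / α + 1) * T := by
      have := Nat.ceil_lt_add_one hTα.le
      have e1 : T / α = 1 / α * T := by ring
      nlinarith
    have hN1 : 1 ≤ ⌈T / α⌉₊ := Nat.ceil_pos.2 hTα
    have h5 : T ≤ α * (⌈T / α⌉₊ : ℝ) := by
      rw [div_le_iff₀ h0] at h2
      linarith
    refine (SS_mono p _ α h5).trans ?_
    rw [SS_dilate h0]
    apply ENNReal.ofReal_le_ofReal
    refine (hB _ hN1).trans ?_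
    have h4 : (⌈T / α⌉₊ : ℝ) ^ (m + ε) ≤ (1 / α + 1) ^ (m + ε) * T ^ (m + ε) := by
      rw [← Real.mul_rpow (by positivity) (by linarith)]
      exact Real.rpow_le_rpow (by positivity) h3 (by linarith)
    calc B * (⌈T / α⌉₊ : ℝ) ^ (m + ε) ≤ |B| * (⌈T / α⌉₊ : ℝ) ^ (m + ε) :=
          mul_le_mul_of_nonneg_right (le_abs_self B) (by positivity)
      _ ≤ |B| * ((1 / α + 1) ^ (m + ε) * T ^ (m + ε)) := mul_le_mul_of_nonneg_left h4 (abs_nonneg B)
      _ = _ := by ring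

/-- **translates** -/
theorem mom_translate {p m : ℝ} (hp : 0 < p) (hm : 1 ≤ m) : MomBd p m ↔
    ∀ᵐ θ : ℝ, 0 < θ → θ < 1 → ∀ ε : ℝ, 0 < ε → ∃ B : ℝ, ∀ N : ℕ, 1 ≤ N →
      ∑ n ∈ Finset.range N, Z (n + θ) ^ p ≤ B * (N : ℝ) ^ (m + ε) := by
  constructor
  · intro h
    have h1 := samp_of_mom (P := volume.restrict (Icc (0 : ℝ) 1)) hp (X := fun (n : ℕ) θ => (n : ℝ) + θ)
      (fun n => by fun_prop) sparse_translate h (by linarith)
    rw [ae_restrict_iff' measurableSet_Icc] at h1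
    filter_upwards [h1] with θ hθ h0 h2
    exact (samp_translate (by linarith) h0 h2.le).1 (hθ ⟨h0.le, h2.le⟩)
  · intro h
    have : IsProbabilityMeasure (volume.restrict (Icc (0 : ℝ) 1)) := ⟨by simp⟩
    have hhit : Hits (volume.restrict (Icc (0 : ℝ) 1)) (fun (n : ℕ) θ => (n : ℝ) + θ) 1 (fun n => (0 : ℤ) ≤ n) := by
      intro n hn E hE hsub
      refine (hits_translate (fun _ => True) n trivial E hE hsub).trans ?_
      have hm1 : MeasurableSet {β : ℝ | ∃ k : ℤ, (k : ℝ) + β ∈ E} :=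
        hit_meas (V := fun (k : ℤ) β => (k : ℝ) + β) (fun k => by fun_prop) hE
      have hm2 : MeasurableSet {β : ℝ | ∃ k : ℕ, (k : ℝ) + β ∈ E} :=
        hit_meas (V := fun (k : ℕ) β => (k : ℝ) + β) (fun k => by fun_prop) hE
      rw [Measure.restrict_apply hm1, Measure.restrict_apply hm2]
      have hsub' : {β : ℝ | ∃ k : ℤ, (k : ℝ) + β ∈ E} ∩ Icc 0 1 ⊆
          ({β : ℝ | ∃ k : ℕ, (k : ℝ) + β ∈ E} ∩ Icc 0 1) ∪ {1} := by
        rintro β ⟨⟨k, hk⟩, hβ⟩
        rcases hβ.2.lt_or_eq with h5 | h5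
        · refine Or.inl ⟨?_, hβ⟩
          have h6 := hsub hk
          have h7 : (0 : ℝ) ≤ n := by exact_mod_cast hn
          have h8 : (-1 : ℝ) < k := by linarith [h6.1]
          have h9 : -1 < k := by exact_mod_cast h8
          refine ⟨k.toNat, ?_⟩
          have : ((k.toNat : ℕ) : ℝ) = (k : ℝ) := by
            have : ((k.toNat : ℕ) : ℤ) = k := Int.toNat_of_nonneg (by omega)
            exact_mod_cast this
          rw [this]
          exact hk
        · exact Or.inr h5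
      refine (measure_mono hsub').trans ((measure_union_le _ _).trans ?_)
      rw [Real.volume_singleton, add_zero]
    refine mom_of_samp (P := volume.restrict (Icc (0 : ℝ) 1)) hp hm (X := fun (n : ℕ) θ => (n : ℝ) + θ)
      (fun n => by fun_prop) one_pos hhit ?_
    rw [ae_restrict_iff' measurableSet_Icc]
    have hne : ∀ᵐ θ : ℝ, θ ≠ 0 ∧ θ ≠ 1 := by
      rw [ae_iff]
      have : {θ : ℝ | ¬ (θ ≠ 0 ∧ θ ≠ 1)} ⊆ {0, 1} := by
        intro θ hθ
        simp only [mem_setOf_eq, not_and_or, not_not] at hθ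
        simpa using hθ
      exact measure_mono_null this ((Set.toFinite _).measure_zero _)
    filter_upwards [h, hne] with θ hθ hne hmem
    have h0 : 0 < θ := lt_of_le_of_ne hmem.1 (Ne.symm hne.1)
    have h1 : θ < 1 := lt_of_le_of_ne hmem.2 hne.2
    exact (samp_translate (by linarith) h0 h1.le).2 (hθ h0 h1)

/-- **dilates** -/
theorem mom_dilate {p m : ℝ} (hp : 0 < p) (hm : 1 ≤ m) : MomBd p m ↔
    ∀ᵐ α : ℝ, 0 < α → ∀ ε : ℝ, 0 < ε → ∃ B : ℝ, ∀ N : ℕ, 1 ≤ N →
      ∑ n ∈ Finset.range N, Z (α * ((n : ℝ) + 1)) ^ p ≤ B * (N : ℝ) ^ (m + ε) := by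
  constructor
  · intro h
    have h1 : ∀ i : ℤ, ∀ᵐ α : ℝ, α ∈ Icc ((2 : ℝ) ^ i) (2 * 2 ^ i) →
        SampBd p m (fun (k : ℕ) (α : ℝ) => α * ((k : ℝ) + 1)) α := by
      intro i
      have h2 := samp_of_mom (P := volume.restrict (Icc ((2 : ℝ) ^ i) (2 * 2 ^ i))) hp
        (X := fun (k : ℕ) α => α * ((k : ℝ) + 1)) (fun n => by fun_prop) (sparse_dilate (by positivity)) h
        (by linarith)
      rwa [ae_restrict_iff' measurableSet_Icc] at h2
    filter_upwards [ae_all_iff.2 h1] with α hα h0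
    obtain ⟨i, hi⟩ := exists_mem_Ico_zpow h0 (one_lt_two (α := ℝ))
    refine (samp_dilate (by linarith) h0).1 (hα i ⟨hi.1, ?_⟩)
    have := hi.2
    rw [zpow_add_one₀ (by norm_num)] at this
    linarith
  · intro h
    have : IsProbabilityMeasure (volume.restrict (Icc (1 : ℝ) 2)) := ⟨by simp; norm_num⟩
    refine mom_of_samp (P := volume.restrict (Icc (1 : ℝ) 2)) hp hm (X := fun (k : ℕ) α => α * ((k : ℝ) + 1))
      (fun n => by fun_prop) (by norm_num : (0 : ℝ) < 1 / 4) hits_dilate' ?_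
    rw [ae_restrict_iff' measurableSet_Icc]
    filter_upwards [h] with α hα hmem
    have h0 : 0 < α := by linarith [hmem.1]
    exact (samp_dilate (by linarith) h0).2 (hα h0)

/-- the bound for the averages, for any shift `x` -/
theorem mom_shift {p κ : ℝ} (hp : 0 < p) (hκ : 0 ≤ κ) (x : ℝ) :
    (∀ ε : ℝ, 0 < ε → ∃ B : ℝ, ∀ T : ℝ, 1 ≤ T → ∫ u in (0 : ℝ)..1, Z (x + u * T) ^ p ≤ B * T ^ (κ + ε)) ↔
      MomBd p (1 + κ) := by
  have heq : ∀ T : ℝ, 1 ≤ T → ∫ u in (0 : ℝ)..1, Z (x + u * T) ^ p = T⁻¹ * ∫ t in x..(x + T), Z t ^ p := by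
    intro T hT
    have h5 := intervalIntegral.integral_comp_mul_add (a := (0:ℝ)) (b := 1)
      (fun t => Z t ^ p) (by linarith : T ≠ 0) x
    rw [mul_zero, zero_add, mul_one, smul_eq_mul] at h5
    rw [show x + T = T + x by ring, ← h5]
    refine intervalIntegral.integral_congr fun u _ => ?_
    show Z (x + u * T) ^ p = Z (T * u + x) ^ p
    congr 2
    ring
  have hx0 := abs_nonneg x
  have hsc : ∀ T e : ℝ, 1 ≤ T → 0 ≤ e → (T + |x|) ^ e ≤ (1 + |x|) ^ e * T ^ e := by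
    intro T e hT he
    rw [← Real.mul_rpow (by linarith) (by linarith)]
    exact Real.rpow_le_rpow (by linarith) (by nlinarith) he
  constructor
  · intro h ε hε
    obtain ⟨B, hB⟩ := h ε hε
    set C : ℝ := ∫ t in (0 : ℝ)..x, Z t ^ p with hC
    refine ⟨|C| + |B| * (1 + |x|) ^ (1 + κ + ε), fun T hT => ?_⟩
    have h1 : ∫ t in (0 : ℝ)..T, Z t ^ p ≤ ∫ t in (0 : ℝ)..(x + (T + |x|)), Z t ^ p :=
      mono_int hp le_rfl (by linarith) (by linarith [neg_abs_le x])
    have h2 : ∫ t in (0 : ℝ)..(x + (T + |x|)), Z t ^ p = C + ∫ t in x..(x + (T + |x|)), Z t ^ p :=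
      (intervalIntegral.integral_add_adjacent_intervals (Zp_int hp _ _) (Zp_int hp _ _)).symm
    have hT' : 1 ≤ T + |x| := by linarith
    have h3 := hB (T + |x|) hT'
    rw [heq _ hT'] at h3
    have h4 : ∫ t in x..(x + (T + |x|)), Z t ^ p ≤ |B| * (T + |x|) ^ (1 + κ + ε) := by
      rw [inv_mul_le_iff₀ (by linarith)] at h3
      refine h3.trans ?_
      have e1 : (T + |x|) ^ (1 + κ + ε) = (T + |x|) * (T + |x|) ^ (κ + ε) := by
        rw [show 1 + κ + ε = 1 + (κ + ε) by ring, Real.rpow_add (by linarith), Real.rpow_one]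
      rw [e1]
      have : (T + |x|) * (B * (T + |x|) ^ (κ + ε)) = B * ((T + |x|) * (T + |x|) ^ (κ + ε)) := by ring
      rw [this]
      exact mul_le_mul_of_nonneg_right (le_abs_self B) (by positivity)
    have h5 := hsc T (1 + κ + ε) hT (by linarith)
    have h6 : 1 ≤ T ^ (1 + κ + ε) := Real.one_le_rpow hT (by linarith)
    calc ∫ t in (0 : ℝ)..T, Z t ^ p ≤ C + |B| * (T + |x|) ^ (1 + κ + ε) := by linarith
      _ ≤ |C| * T ^ (1 + κ + ε) + |B| * ((1 + |x|) ^ (1 + κ + ε) * T ^ (1 + κ + ε)) :=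
          add_le_add ((le_abs_self C).trans (le_mul_of_one_le_right (abs_nonneg C) h6))
            (mul_le_mul_of_nonneg_left h5 (abs_nonneg B))
      _ = _ := by ring
  · intro h ε hε
    obtain ⟨B, hB⟩ := h ε hε
    set C : ℝ := ∫ t in (-|x|)..(0 : ℝ), Z t ^ p with hC
    refine ⟨|C| + |B| * (1 + |x|) ^ (1 + κ + ε), fun T hT => ?_⟩
    rw [heq T hT, inv_mul_le_iff₀ (by linarith)]
    have h1 : ∫ t in x..(x + T), Z t ^ p ≤ ∫ t in (-|x|)..(T + |x|), Z t ^ p :=
      mono_int hp (neg_abs_le x) (by linarith) (by linarith [le_abs_self x])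
    have h2 : ∫ t in (-|x|)..(T + |x|), Z t ^ p = C + ∫ t in (0 : ℝ)..(T + |x|), Z t ^ p :=
      (intervalIntegral.integral_add_adjacent_intervals (Zp_int hp _ _) (Zp_int hp _ _)).symm
    have h3 := hB (T + |x|) (by linarith)
    have h4 : ∫ t in (0 : ℝ)..(T + |x|), Z t ^ p ≤ |B| * (T + |x|) ^ (1 + κ + ε) :=
      h3.trans (mul_le_mul_of_nonneg_right (le_abs_self B) (by positivity))
    have h5 := hsc T (1 + κ + ε) hT (by linarith)
    have h6 : 1 ≤ T ^ (1 + κ + ε) := Real.one_le_rpow hT (by linarith)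
    have e1 : T ^ (1 + κ + ε) = T * T ^ (κ + ε) := by
      rw [show 1 + κ + ε = 1 + (κ + ε) by ring, Real.rpow_add (by linarith), Real.rpow_one]
    calc ∫ t in x..(x + T), Z t ^ p ≤ C + |B| * (T + |x|) ^ (1 + κ + ε) := by linarith
      _ ≤ |C| * T ^ (1 + κ + ε) + |B| * ((1 + |x|) ^ (1 + κ + ε) * T ^ (1 + κ + ε)) :=
          add_le_add ((le_abs_self C).trans (le_mul_of_one_le_right (abs_nonneg C) h6))
            (mul_le_mul_of_nonneg_left h5 (abs_nonneg B))
      _ = _ := by rw [e1]; ring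

end Pool.Agent.Q231.RS
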