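import Pool.Agent.H983R4.LH.P5
import Pool.Agent.Q231.RS.Base

/-!
# Random sampling of the zeta function
-/

set_option autoImplicit false

open MeasureTheory Filter Topology Set Real

namespace Pool.Agent.Q231.RS

open Pool.Agent.H983R4.LH

lemma Ex_meas (κ T h : ℝ) : MeasurableSet (Ex κ T h) := by
  have h1 : MeasurableSet {x : ℝ | |x - T| ≤ h} :=
    measurableSet_le (by fun_prop) measurable_const
  have h2 : MeasurableSet {x : ℝ | T ^ κ < ‖riemannZeta (1 / 2 + x * Complex.I)‖} :=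
    measurableSet_lt measurable_const zeta_line_cont.norm.measurable
  exact h1.inter h2

/-- arbitrarily large values if the exponent is not admissible -/
lemma large_of_not {κ₀ : ℝ} (h : ¬ Adm κ₀) (hκ : 0 ≤ κ₀) : ∃ ε : ℝ, 0 < ε ∧ ∀ R : ℝ, ∃ T : ℝ, R < T ∧
    T ^ (κ₀ + ε) ≤ ‖riemannZeta (1 / 2 + T * Complex.I)‖ := by
  unfold Adm at h
  push Not at h
  obtain ⟨ε, hε, h⟩ := h
  refine ⟨ε, hε, fun R => ?_⟩
  by_contra hcon
  push Not at hcon
  obtain ⟨C, hC⟩ := lh_of (ε := κ₀ + ε) (T₁ := max (R + 1) 1) (by linarith) fun T hT => by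
    have h1 : R < T := by
      have := (le_max_left (R + 1) 1).trans hT
      linarith
    have h2 : 1 ≤ T := (le_max_right _ _).trans hT
    refine (hcon T h1).le.trans ?_
    exact Real.rpow_le_rpow (by linarith) (by linarith) (by linarith)
  obtain ⟨t, ht⟩ := h C
  exact absurd (hC t) (not_le.2 ht)

variable {Ω : Type*} [MeasurableSpace Ω]

/-- the bound with the exponent `κ₀` at the points of a set -/
def AdmAt (κ₀ : ℝ) (S : Set ℝ) : Prop := ∀ ε : ℝ, 0 < ε → ∃ C : ℝ, ∀ t ∈ S,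
  ‖riemannZeta (1 / 2 + t * Complex.I)‖ ≤ C * (1 + |t|) ^ (κ₀ + ε)

/-- **Random sampling of zeta.** -/
theorem zsample {κ₀ : ℝ} (hκ : 0 ≤ κ₀) {P : Measure Ω} [IsFiniteMeasure P] {J : Type*} [Countable J]
    {V : J → Ω → ℝ} (hV : ∀ k, Measurable (V k)) {c : ℝ} (hc : 0 < c) {n₀ : ℤ}
    (hit : Hits P V c (fun n => n₀ ≤ n)) :
    Adm κ₀ ↔ ∀ᵐ ω ∂P, AdmAt κ₀ {t | ∃ k, t = V k ω} := by
  constructor
  · intro h
    refine Eventually.of_forall fun ω ε hε => ?_
    obtain ⟨C, hC⟩ := h ε hε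
    exact ⟨C, fun t _ => hC t⟩
  intro hae
  by_contra hcon
  obtain ⟨ε, hε, hbig⟩ := large_of_not hcon hκ
  obtain ⟨δ, hδ, T₀, hT₀, hper⟩ := main_local (κ := κ₀ + ε / 2) (μ := κ₀ + ε) (by linarith) (by linarith)
  set R₀ : ℝ := max T₀ (n₀ + 2) with hR₀
  choose t hRt hLt using fun j : ℕ => hbig (R₀ + j)
  have ht8 : ∀ j, 8 ≤ t j := fun j => by
    have h1 := hRt j
    have h2 : T₀ ≤ R₀ := le_max_left _ _
    have : (0 : ℝ) ≤ (j : ℝ) := Nat.cast_nonneg _
    linarith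
  have hwin : ∀ j : ℕ, ∃ n : ℤ, n₀ ≤ n ∧ ENNReal.ofReal (δ / 4) ≤
      volume (Ex (κ₀ + ε / 2) (t j) (1 / 2) ∩ Icc (n : ℝ) (n + 1)) := by
    intro j
    have h0 : (0 : ℝ) ≤ (j : ℝ) := Nat.cast_nonneg _
    have h1 : T₀ ≤ t j := by
      have h1 := hRt j
      have h2 : T₀ ≤ R₀ := le_max_left _ _
      linarith
    have h2 := hper (t j) h1 (1 / 2) (by norm_num) (by norm_num) (hLt j)
    obtain ⟨n, hn1, _, h3⟩ := split_unit (E := Ex (κ₀ + ε / 2) (t j) (1 / 2))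
      (T := t j) (a := δ / 4) (fun x hx => hx.1) (by positivity)
      (by convert h2 using 2; ring)
    refine ⟨n, ?_, h3⟩
    have h4 : (n₀ : ℝ) + 2 ≤ R₀ := le_max_right _ _
    have h5 := hRt j
    have h6 : (n₀ : ℝ) ≤ n := by linarith
    exact_mod_cast h6
  choose n hn0 hn using hwin
  set E : ℕ → Set ℝ := fun j => Ex (κ₀ + ε / 2) (t j) (1 / 2) ∩ Icc (n j : ℝ) (n j + 1) with hE
  have hEm : ∀ j, MeasurableSet (E j) := fun j => (Ex_meas _ _ _).inter measurableSet_Icc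
  set A : ℕ → Set Ω := fun j => {ω | ∃ k, V k ω ∈ E j} with hA
  have hAm : ∀ j, MeasurableSet (A j) := fun j => hit_meas hV (hEm j)
  have hAp : ∀ j, ENNReal.ofReal c * ENNReal.ofReal (δ / 4) ≤ P (A j) := by
    intro j
    refine le_trans ?_ (hit (n j) (hn0 j) (E j) (hEm j) inter_subset_right)
    gcongr
    exact hn j
  have hpos : 0 < ENNReal.ofReal c * ENNReal.ofReal (δ / 4) :=
    ENNReal.mul_pos (by simpa using hc) (by simpa using hδ)
  obtain ⟨ω, hω, hfr⟩ := exists_freq hAm hpos hAp hae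
  obtain ⟨B, hB⟩ := hω (ε / 4) (by linarith)
  set e : ℝ := κ₀ + ε / 4 with he
  have he0 : 0 < e := by rw [he]; linarith
  set D : ℝ := |B| * 2 ^ e with hD
  have hD0 : 0 ≤ D := by positivity
  obtain ⟨j₁, hj₁⟩ := exists_nat_ge ((D + 1) ^ (4 / ε))
  obtain ⟨j, hjA, hj⟩ := (hfr.and_eventually (eventually_ge_atTop j₁)).exists
  obtain ⟨k, hk⟩ := hjA
  obtain ⟨⟨hk1, hk2⟩, _⟩ := hk
  set x := V k ω with hx
  have hT8 := ht8 j
  have h1 := hB x ⟨k, rfl⟩
  have h2 : 1 + |x| ≤ 2 * t j := by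
    have := abs_sub_abs_le_abs_sub x (t j)
    rw [abs_of_pos (show (0:ℝ) < t j by linarith)] at this
    linarith
  have h4 : (1 + |x|) ^ e ≤ 2 ^ e * t j ^ e := by
    rw [← Real.mul_rpow (by norm_num) (by linarith)]
    exact Real.rpow_le_rpow (by positivity) h2 he0.le
  have h5 : t j ^ (κ₀ + ε / 2) < D * t j ^ e := by
    calc t j ^ (κ₀ + ε / 2) < ‖riemannZeta (1 / 2 + x * Complex.I)‖ := hk2
      _ ≤ B * (1 + |x|) ^ e := h1
      _ ≤ |B| * (1 + |x|) ^ e :=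
          mul_le_mul_of_nonneg_right (le_abs_self B) (by positivity)
      _ ≤ |B| * (2 ^ e * t j ^ e) := mul_le_mul_of_nonneg_left h4 (abs_nonneg B)
      _ = D * t j ^ e := by rw [hD]; ring
  have hTp : 0 < t j := by linarith
  have h6 : t j ^ (κ₀ + ε / 2) = t j ^ (ε / 4) * t j ^ e := by
    rw [← Real.rpow_add hTp]; congr 1; rw [he]; ring
  rw [h6] at h5
  have h7 : t j ^ (ε / 4) < D := lt_of_mul_lt_mul_right h5 (by positivity)
  have h8 : (D + 1) ^ (4 / ε) ≤ t j := by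
    have h9 := hRt j
    have h10 : (j₁ : ℝ) ≤ j := by exact_mod_cast hj
    have h11 : T₀ ≤ R₀ := le_max_left _ _
    linarith
  have h9 : D + 1 ≤ t j ^ (ε / 4) := by
    have h10 := Real.rpow_le_rpow (by positivity) h8 (by linarith : 0 ≤ ε / 4)
    rw [← Real.rpow_mul (by linarith)] at h10
    have : 4 / ε * (ε / 4) = 1 := by field_simp
    rwa [this, Real.rpow_one] at h10
  linarith

end Pool.Agent.Q231.RS
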