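import Pool.Agent.H983R4.GL.Z3
import Pool.Agent.Q231.RS.Zeta

/-!
# Translates of the integers: sets of shifts of positive proportion
-/

set_option autoImplicit false

open MeasureTheory Filter Topology Set Real

namespace Pool.Agent.Q231.RS

open Pool.Agent.H983R4.LH Pool.Agent.H983R4.GL.Z

/-- a large set meets infinitely many large events -/
lemma exists_freq' {Ω : Type*} [MeasurableSpace Ω] {P : Measure Ω} [IsFiniteMeasure P] {A : ℕ → Set Ω}
    (hA : ∀ j, MeasurableSet (A j)) {p : ENNReal} (h : ∀ j, p ≤ P (A j)) {G : Set Ω}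
    (hG : P univ < P G + p) : ∃ ω ∈ G, ∃ᶠ j in atTop, ω ∈ A j := by
  set B : ℕ → Set Ω := fun N => ⋃ j ≥ N, A j with hB
  have hBm : ∀ N, MeasurableSet (B N) := fun N =>
    MeasurableSet.iUnion fun j => MeasurableSet.iUnion fun _ => hA j
  have hanti : Antitone B := by
    intro a b hab ω hω
    simp only [hB, mem_iUnion] at hω ⊢
    obtain ⟨j, hj, h1⟩ := hω
    exact ⟨j, hab.trans hj, h1⟩
  have hlim := tendsto_measure_iInter_atTop (μ := P) (fun N => (hBm N).nullMeasurableSet) hanti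
    ⟨0, measure_ne_top _ _⟩
  have hge : p ≤ P (⋂ N, B N) := by
    refine ge_of_tendsto' hlim fun N => ?_
    refine (h N).trans (measure_mono ?_)
    intro ω hω
    simp only [hB, mem_iUnion]
    exact ⟨N, le_rfl, hω⟩
  have hIm : MeasurableSet (⋂ N, B N) := MeasurableSet.iInter hBm
  by_contra hcon
  push Not at hcon
  have hsub : G ⊆ (⋂ N, B N)ᶜ := by
    intro ω hω hmem
    have h1 := hcon ω hω
    rw [eventually_atTop] at h1
    obtain ⟨N, hN⟩ := h1
    have h2 := mem_iInter.1 hmem N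
    simp only [hB, mem_iUnion] at h2
    obtain ⟨j, hj, h3⟩ := h2
    exact hN j hj h3
  have h5 : P G + p ≤ P univ := by
    calc P G + p ≤ P (⋂ N, B N)ᶜ + P (⋂ N, B N) := add_le_add (measure_mono hsub) hge
      _ = P univ := by rw [add_comm, measure_add_measure_compl hIm]
  exact absurd h5 (not_le.2 hG)

/-- a large value near a large height contradicts a bound with a smaller exponent -/
lemma clash {κ₁ κ₂ B : ℝ} (h0 : 0 ≤ κ₁) (h12 : κ₁ < κ₂) : ∃ R : ℝ, ∀ T x : ℝ, R ≤ T → |x - T| ≤ 1 / 2 →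
    T ^ κ₂ < ‖riemannZeta (1 / 2 + x * Complex.I)‖ →
    ¬ ‖riemannZeta (1 / 2 + x * Complex.I)‖ ≤ B * (1 + |x|) ^ κ₁ := by
  set D : ℝ := |B| * 2 ^ κ₁ with hD
  have hD0 : 0 ≤ D := by positivity
  refine ⟨max 2 ((D + 1) ^ (1 / (κ₂ - κ₁))), fun T x hT hx h1 h2 => ?_⟩
  have hT2 : 2 ≤ T := (le_max_left _ _).trans hT
  have hTD : (D + 1) ^ (1 / (κ₂ - κ₁)) ≤ T := (le_max_right _ _).trans hT
  have h3 : 1 + |x| ≤ 2 * T := by
    have := abs_sub_abs_le_abs_sub x T
    rw [abs_of_pos (show (0:ℝ) < T by linarith)] at this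
    linarith
  have h4 : (1 + |x|) ^ κ₁ ≤ 2 ^ κ₁ * T ^ κ₁ := by
    rw [← Real.mul_rpow (by norm_num) (by linarith)]
    exact Real.rpow_le_rpow (by positivity) h3 h0
  have h5 : T ^ κ₂ < D * T ^ κ₁ := by
    calc T ^ κ₂ < ‖riemannZeta (1 / 2 + x * Complex.I)‖ := h1
      _ ≤ B * (1 + |x|) ^ κ₁ := h2
      _ ≤ |B| * (1 + |x|) ^ κ₁ :=
          mul_le_mul_of_nonneg_right (le_abs_self B) (by positivity)
      _ ≤ |B| * (2 ^ κ₁ * T ^ κ₁) := mul_le_mul_of_nonneg_left h4 (abs_nonneg B)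
      _ = D * T ^ κ₁ := by rw [hD]; ring
  have hTp : 0 < T := by linarith
  have h6 : T ^ κ₂ = T ^ (κ₂ - κ₁) * T ^ κ₁ := by
    rw [← Real.rpow_add hTp]; congr 1; ring
  rw [h6] at h5
  have h7 : T ^ (κ₂ - κ₁) < D := lt_of_mul_lt_mul_right h5 (by positivity)
  have h9 : D + 1 ≤ T ^ (κ₂ - κ₁) := by
    have h10 := Real.rpow_le_rpow (by positivity) hTD (by linarith : 0 ≤ κ₂ - κ₁)
    rw [← Real.rpow_mul (by linarith)] at h10
    have : 1 / (κ₂ - κ₁) * (κ₂ - κ₁) = 1 := by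
      have : κ₂ - κ₁ ≠ 0 := by linarith
      field_simp
    rwa [this, Real.rpow_one] at h10
  linarith

/-- **Translates of the integers**: the exponent along `β + ℤ` for a set of shifts `β` that has a positive proportion in
every interval is an exponent. -/
theorem ztranslate {κ₀ : ℝ} (hκ : 0 ≤ κ₀) {c : ℝ} (hc : 0 < c) (hc1 : c ≤ 1)
    (hG : ∀ a b : ℝ, a < b → ENNReal.ofReal (c * (b - a)) ≤
      volume ({β : ℝ | AdmAt κ₀ {t | ∃ k : ℤ, t = k + β}} ∩ Icc a b)) : Adm κ₀ := by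
  obtain ⟨θ, hθ0, hθ, hmin⟩ := leastZ
  rcases le_or_gt θ κ₀ with hle | hlt
  · intro ε hε
    obtain ⟨C, hC⟩ := hθ ε hε
    refine ⟨|C|, fun t => (hC t).trans ?_⟩
    have h0 := abs_nonneg t
    exact (mul_le_mul_of_nonneg_right (le_abs_self C) (by positivity)).trans
      (mul_le_mul_of_nonneg_left (Real.rpow_le_rpow_of_exponent_le (by linarith) (by linarith)) (abs_nonneg C))
  exfalso
  have hpi3 := Real.pi_gt_three
  set κ' : ℝ := (κ₀ + θ) / 2 with hκ'
  set δ : ℝ := θ - κ' with hδ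
  have hδ0 : 0 < δ := by rw [hδ, hκ']; linarith
  set η : ℝ := c / 2 with hη
  have hη0 : 0 < η := by positivity
  have hsp := spreadZ hθ hmin (δ := δ) (η := η) hδ0 (by rw [hδ, hκ']; linarith) hη0 (by linarith)
  rw [show θ - δ = κ' by rw [hδ]; ring] at hsp
  unfold SomeZ at hsp
  push Not at hsp
  set h : ℝ := min (1 / 2) (η * δ / (10 * π)) with hh
  have hh0 : 0 < h := lt_min (by norm_num) (by positivity)
  have hh1 : h ≤ 1 / 2 := min_le_left _ _
  have hh2 : h ≤ η * δ / (10 * π) := min_le_right _ _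
  set s : ℝ := h / 2 with hs
  have hs0 : 0 < s := by positivity
  choose T hT hTs using fun j : ℕ => hsp (j : ℝ)
  have hSz : ∀ j, volume (Sz κ' (T j) h) < ENNReal.ofReal (η * (2 * h)) := fun j => hTs j h hh0 hh1 hh2
  -- the cells
  set K : ℕ := ⌈1 / s⌉₊ with hK
  set kk : ℕ → ℕ := fun j => ⌊Int.fract (T j) / s⌋₊ with hkk
  have hkK : ∀ j, kk j ∈ Finset.range (K + 1) := by
    intro j
    rw [Finset.mem_range, Nat.lt_succ_iff]
    have h1 : Int.fract (T j) / s ≤ 1 / s := by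
      gcongr
      exact (Int.fract_lt_one _).le
    exact (Nat.floor_le_floor h1).trans (Nat.floor_le_ceil _)
  have hpig : ∃ k : ℕ, ∃ᶠ j in atTop, kk j = k := by
    by_contra hno
    push Not at hno
    have h1 : ∀ᶠ j in atTop, ∀ k ∈ Finset.range (K + 1), kk j ≠ k :=
      (Filter.eventually_all_finset _).2 fun k _ => hno k
    obtain ⟨j, hj⟩ := h1.exists
    exact hj _ (hkK j) rfl
  obtain ⟨k, hk⟩ := hpig
  obtain ⟨φ, hφ, hφk⟩ := Filter.extraction_of_frequently_atTop hk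
  set W : Set ℝ := Icc (k * s - s) (k * s + 2 * s) with hW
  set G : Set ℝ := {β : ℝ | AdmAt κ₀ {t | ∃ k : ℤ, t = k + β}} with hGdef
  set A : ℕ → Set ℝ := fun j => {β : ℝ | ((⌊T (φ j)⌋ : ℤ) : ℝ) + β ∈ Ex κ' (T (φ j)) h} with hA
  have hAm : ∀ j, MeasurableSet (A j) := by
    intro j
    refine (?_ : Measurable fun β : ℝ => ((⌊T (φ j)⌋ : ℤ) : ℝ) + β) (Ex_meas _ _ _)
    fun_prop
  have hWA : ∀ j, volume (W \ A j) ≤ ENNReal.ofReal (η * (2 * h)) := by
    intro j
    have h1 : W \ A j ⊆ (fun β : ℝ => ((⌊T (φ j)⌋ : ℤ) : ℝ) + β) ⁻¹' (Sz κ' (T (φ j)) h) := by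
      rintro β ⟨hβ1, hβ2⟩
      have h2 : kk (φ j) = k := hφk j
      have h3 : (k : ℝ) ≤ Int.fract (T (φ j)) / s := by
        rw [← h2]
        exact Nat.floor_le (div_nonneg (Int.fract_nonneg _) hs0.le)
      have h4 : Int.fract (T (φ j)) / s < k + 1 := by
        rw [← h2]
        exact Nat.lt_floor_add_one _
      rw [le_div_iff₀ hs0] at h3
      rw [div_lt_iff₀ hs0] at h4
      have h5 : T (φ j) = ⌊T (φ j)⌋ + Int.fract (T (φ j)) := (Int.floor_add_fract _).symm
      have h6 : |(((⌊T (φ j)⌋ : ℤ) : ℝ) + β) - T (φ j)| ≤ h := by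
        rw [abs_le]
        have h7 : h = 2 * s := by rw [hs]; ring
        constructor
        · linarith [hβ1.1]
        · linarith [hβ1.2]
      refine ⟨h6, ?_⟩
      by_contra hcon
      push Not at hcon
      exact hβ2 ⟨h6, hcon⟩
    refine (measure_mono h1).trans ?_
    rw [measure_preimage_add]
    exact (hSz _).le
  have hWv : volume W = ENNReal.ofReal (3 * s) := by
    rw [hW, Real.volume_Icc]
    congr 1
    ring
  have hP : ∀ j, ENNReal.ofReal (3 * s - η * (2 * h)) ≤ (volume.restrict W) (A j) := by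
    intro j
    rw [Measure.restrict_apply (hAm j)]
    have h1 : volume W ≤ volume (A j ∩ W) + volume (W \ A j) := by
      rw [inter_comm]
      exact (measure_inter_add_diff W (hAm j)).ge
    have h2 : ENNReal.ofReal (3 * s) ≤ volume (A j ∩ W) + ENNReal.ofReal (η * (2 * h)) := by
      rw [← hWv]
      exact h1.trans (add_le_add le_rfl (hWA j))
    rw [ENNReal.ofReal_sub _ (by positivity)]
    exact tsub_le_iff_right.2 h2
  have hGW : (volume.restrict W) univ < (volume.restrict W) G + ENNReal.ofReal (3 * s - η * (2 * h)) := by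
    have hWm : MeasurableSet W := measurableSet_Icc
    rw [Measure.restrict_apply_univ, hWv, Measure.restrict_apply' hWm]
    have h1 := hG (k * s - s) (k * s + 2 * s) (by linarith)
    have h2 : ENNReal.ofReal (3 * s) < ENNReal.ofReal (c * (k * s + 2 * s - (k * s - s))) +
        ENNReal.ofReal (3 * s - η * (2 * h)) := by
      have h7 : h = 2 * s := by rw [hs]; ring
      rw [← ENNReal.ofReal_add]
      · rw [ENNReal.ofReal_lt_ofReal_iff]
        · rw [h7, hη]; nlinarith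
        · rw [h7, hη]; nlinarith
      · nlinarith
      · rw [h7, hη]; nlinarith
    exact h2.trans_le (add_le_add h1 le_rfl)
  have : IsFiniteMeasure (volume.restrict W) := ⟨by
    rw [Measure.restrict_apply_univ, hWv]; exact ENNReal.ofReal_lt_top⟩
  obtain ⟨β, hβ, hfr⟩ := exists_freq' hAm hP hGW
  set e : ℝ := (κ' - κ₀) / 2 with he
  have he0 : 0 < e := by rw [he, hκ']; linarith
  obtain ⟨B, hB⟩ := hβ e he0
  obtain ⟨R, hR⟩ := clash (κ₁ := κ₀ + e) (κ₂ := κ') (B := B) (by linarith) (by rw [he]; linarith)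
  obtain ⟨j₁, hj₁⟩ := exists_nat_ge R
  obtain ⟨j, hjA, hj⟩ := (hfr.and_eventually (eventually_ge_atTop j₁)).exists
  obtain ⟨hx1, hx2⟩ := hjA
  refine hR (T (φ j)) _ ?_ (hx1.trans hh1) hx2 (hB _ ⟨⌊T (φ j)⌋, rfl⟩)
  have h1 : j ≤ φ j := hφ.id_le j
  have h2 := hT (φ j)
  have h3 : (j₁ : ℝ) ≤ φ j := by exact_mod_cast hj.trans h1
  linarith

end Pool.Agent.Q231.RS
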