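import Pool.Agent.Q231.RS.LLgen

/-!
# A Rademacher-Menshov bound for sums of pairwise independent random variables
-/

set_option autoImplicit false

open MeasureTheory ProbabilityTheory Filter Topology Set

namespace Pool.Agent.Q231.RS

/-- the sum of the squares of all dyadic blocks of length at most `2^m` -/
noncomputable def QQ : ℕ → (ℕ → ℝ) → ℝ
  | 0, y => y 0 ^ 2
  | m + 1, y => (∑ i ∈ Finset.range (2 ^ (m + 1)), y i) ^ 2 + QQ m y + QQ m (fun i => y (2 ^ m + i))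

lemma QQ_nonneg (m : ℕ) : ∀ y : ℕ → ℝ, 0 ≤ QQ m y := by
  induction m with
  | zero => intro y; exact sq_nonneg _
  | succ m ih =>
    intro y
    have := ih y
    have := ih fun i => y (2 ^ m + i)
    unfold QQ
    positivity

lemma top_le (m : ℕ) (y : ℕ → ℝ) : (∑ i ∈ Finset.range (2 ^ m), y i) ^ 2 ≤ QQ m y := by
  cases m with
  | zero => simp [QQ]
  | succ m =>
    have := QQ_nonneg m y
    have := QQ_nonneg m fun i => y (2 ^ m + i)
    unfold QQ
    linarith

/-- the Rademacher-Menshov inequality -/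
lemma rm (m : ℕ) : ∀ (y : ℕ → ℝ) (n : ℕ), n ≤ 2 ^ m → (∑ i ∈ Finset.range n, y i) ^ 2 ≤ ((m : ℝ) + 1) * QQ m y := by
  induction m with
  | zero =>
    intro y n hn
    have h1 : n = 0 ∨ n = 1 := by
      rw [pow_zero] at hn
      omega
    rcases h1 with h1 | h1
    · subst h1
      simp only [Finset.range_zero, Finset.sum_empty]
      have := QQ_nonneg 0 y
      push_cast
      nlinarith
    · subst h1
      simp [QQ]
  | succ m ih =>
    intro y n hn
    have hq1 := QQ_nonneg m y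
    have hq2 := QQ_nonneg m fun i => y (2 ^ m + i)
    have hm : (0 : ℝ) ≤ m := Nat.cast_nonneg m
    have hQ : QQ m y + QQ m (fun i => y (2 ^ m + i)) ≤ QQ (m + 1) y := by
      conv_rhs => unfold QQ
      have := sq_nonneg (∑ i ∈ Finset.range (2 ^ (m + 1)), y i)
      linarith
    push_cast
    rcases le_total n (2 ^ m) with h | h
    · have h1 := ih y n h
      have h2 : ((m : ℝ) + 1) * QQ m y ≤ ((m : ℝ) + 1 + 1) * QQ (m + 1) y := by
        have : 0 ≤ QQ (m + 1) y := QQ_nonneg _ _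
        nlinarith
      linarith
    · obtain ⟨d, rfl⟩ := Nat.exists_eq_add_of_le h
      have hd : d ≤ 2 ^ m := by
        rw [pow_succ] at hn
        omega
      rw [Finset.sum_range_add]
      set A : ℝ := ∑ i ∈ Finset.range (2 ^ m), y i with hA
      set B : ℝ := ∑ i ∈ Finset.range d, y (2 ^ m + i) with hB
      have h1 : A ^ 2 ≤ QQ m y := top_le m y
      have h2 : B ^ 2 ≤ ((m : ℝ) + 1) * QQ m (fun i => y (2 ^ m + i)) := ih _ d hd
      have h3 : (A + B) ^ 2 ≤ ((m : ℝ) + 1 + 1) * (A ^ 2 + B ^ 2 / ((m : ℝ) + 1)) := by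
        have hp : (0 : ℝ) < (m : ℝ) + 1 := by positivity
        have e1 : ((m : ℝ) + 1 + 1) * (A ^ 2 + B ^ 2 / ((m : ℝ) + 1)) - (A + B) ^ 2 =
            (((m : ℝ) + 1) * A - B) ^ 2 / ((m : ℝ) + 1) := by
          field_simp
          ring
        have h4 : 0 ≤ (((m : ℝ) + 1) * A - B) ^ 2 / ((m : ℝ) + 1) := by positivity
        linarith
      have h5 : B ^ 2 / ((m : ℝ) + 1) ≤ QQ m (fun i => y (2 ^ m + i)) := by
        rw [div_le_iff₀ (by positivity)]
        linarith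
      calc (A + B) ^ 2 ≤ ((m : ℝ) + 1 + 1) * (A ^ 2 + B ^ 2 / ((m : ℝ) + 1)) := h3
        _ ≤ ((m : ℝ) + 1 + 1) * QQ (m + 1) y := by
            apply mul_le_mul_of_nonneg_left _ (by positivity)
            linarith

variable {Ω : Type*} [MeasurableSpace Ω] {P : Measure Ω}

/-- the mean of the sum of squares -/
lemma QQ_mean [IsProbabilityMeasure P] (m : ℕ) : ∀ W : ℕ → Ω → ℝ, (∀ n, MemLp (W n) 2 P) →
    (Pairwise fun i j => W i ⟂ᵢ[P] W j) →
    Integrable (fun ω => QQ m fun n => W n ω - ∫ ω', W n ω' ∂P) P ∧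
      ∫ ω, QQ m (fun n => W n ω - ∫ ω', W n ω' ∂P) ∂P ≤ ((m : ℝ) + 1) * VV P W (2 ^ m) := by
  have key : ∀ (n : ℕ) (W : ℕ → Ω → ℝ), (∀ n, MemLp (W n) 2 P) → (Pairwise fun i j => W i ⟂ᵢ[P] W j) →
      Integrable (fun ω => (∑ i ∈ Finset.range n, (W i ω - ∫ ω', W i ω' ∂P)) ^ 2) P ∧
        ∫ ω, (∑ i ∈ Finset.range n, (W i ω - ∫ ω', W i ω' ∂P)) ^ 2 ∂P ≤ VV P W n := by
    intro n W hW hind
    have hLp : MemLp (fun ω => ∑ i ∈ Finset.range n, (W i ω - ∫ ω', W i ω' ∂P)) 2 P :=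
      memLp_finsetSum _ fun i _ => (hW i).sub (memLp_const _)
    refine ⟨hLp.integrable_sq, ?_⟩
    have hSLp : MemLp (∑ i ∈ Finset.range n, W i) 2 P := memLp_finsetSum' _ fun i _ => hW i
    have hmean : ∫ ω, (∑ i ∈ Finset.range n, W i) ω ∂P = ∑ i ∈ Finset.range n, ∫ ω', W i ω' ∂P := by
      simp only [Finset.sum_apply]
      exact integral_finsetSum _ fun i _ => (hW i).integrable (by norm_num)
    have e1 : ∫ ω, (∑ i ∈ Finset.range n, (W i ω - ∫ ω', W i ω' ∂P)) ^ 2 ∂P =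
        variance (∑ i ∈ Finset.range n, W i) P := by
      rw [variance_eq_integral hSLp.aestronglyMeasurable.aemeasurable, hmean]
      refine integral_congr_ae (Eventually.of_forall fun ω => ?_)
      simp only [Finset.sum_apply, Finset.sum_sub_distrib]
    rw [e1, IndepFun.variance_sum (fun i _ => hW i) (fun i _ j _ hij => hind hij)]
    refine Finset.sum_le_sum fun i _ => ?_
    exact variance_le_expectation_sq (μ := P) (hW i).aestronglyMeasurable
  induction m with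
  | zero =>
    intro W hW hind
    obtain ⟨h1, h2⟩ := key 1 W hW hind
    simp only [Finset.sum_range_one] at h1 h2
    refine ⟨h1, ?_⟩
    simpa [QQ] using h2
  | succ m ih =>
    intro W hW hind
    obtain ⟨a1, a2⟩ := key (2 ^ (m + 1)) W hW hind
    obtain ⟨b1, b2⟩ := ih W hW hind
    have hW' : ∀ n, MemLp (W (2 ^ m + n)) 2 P := fun n => hW _
    have hind' : Pairwise fun i j => W (2 ^ m + i) ⟂ᵢ[P] W (2 ^ m + j) := fun i j hij =>
      hind (by omega)
    obtain ⟨c1, c2⟩ := ih (fun n => W (2 ^ m + n)) hW' hind'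
    have e1 : (fun ω => QQ (m + 1) fun n => W n ω - ∫ ω', W n ω' ∂P) = fun ω =>
        ((∑ i ∈ Finset.range (2 ^ (m + 1)), (W i ω - ∫ ω', W i ω' ∂P)) ^ 2 +
          QQ m (fun n => W n ω - ∫ ω', W n ω' ∂P)) +
          QQ m (fun n => W (2 ^ m + n) ω - ∫ ω', W (2 ^ m + n) ω' ∂P) := by
      funext ω
      conv_lhs => unfold QQ
    rw [e1]
    refine ⟨(a1.add b1).add c1, ?_⟩
    have e3 : ∫ ω, (((∑ i ∈ Finset.range (2 ^ (m + 1)), (W i ω - ∫ ω', W i ω' ∂P)) ^ 2 +
          QQ m (fun n => W n ω - ∫ ω', W n ω' ∂P)) +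
          QQ m (fun n => W (2 ^ m + n) ω - ∫ ω', W (2 ^ m + n) ω' ∂P)) ∂P =
        ∫ ω, (∑ i ∈ Finset.range (2 ^ (m + 1)), (W i ω - ∫ ω', W i ω' ∂P)) ^ 2 ∂P +
          ∫ ω, QQ m (fun n => W n ω - ∫ ω', W n ω' ∂P) ∂P +
          ∫ ω, QQ m (fun n => W (2 ^ m + n) ω - ∫ ω', W (2 ^ m + n) ω' ∂P) ∂P := by
      have h1 := integral_add (μ := P) (f := fun ω => (∑ i ∈ Finset.range (2 ^ (m + 1)), (W i ω - ∫ ω', W i ω' ∂P)) ^ 2 +
          QQ m (fun n => W n ω - ∫ ω', W n ω' ∂P))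
          (g := fun ω => QQ m (fun n => W (2 ^ m + n) ω - ∫ ω', W (2 ^ m + n) ω' ∂P)) (a1.add b1) c1
      have h2 := integral_add (μ := P) (f := fun ω => (∑ i ∈ Finset.range (2 ^ (m + 1)), (W i ω - ∫ ω', W i ω' ∂P)) ^ 2)
          (g := fun ω => QQ m (fun n => W n ω - ∫ ω', W n ω' ∂P)) a1 b1
      rw [h1, h2]
    rw [e3]
    have hV : VV P W (2 ^ (m + 1)) = VV P W (2 ^ m) + VV P (fun n => W (2 ^ m + n)) (2 ^ m) := by
      unfold VV
      rw [pow_succ, mul_two, Finset.sum_range_add]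
    push_cast
    have hVn : 0 ≤ VV P W (2 ^ (m + 1)) := Finset.sum_nonneg fun n _ =>
      integral_nonneg (f := fun ω => W n ω ^ 2) (fun ω => sq_nonneg _)
    have e2 : ((m : ℝ) + 1 + 1) * VV P W (2 ^ (m + 1)) = VV P W (2 ^ (m + 1)) +
        (((m : ℝ) + 1) * VV P W (2 ^ m) + ((m : ℝ) + 1) * VV P (fun n => W (2 ^ m + n)) (2 ^ m)) := by
      rw [← mul_add, ← hV]
      ring
    rw [e2]
    linarith

/-- **almost sure bound for the partial sums** -/
theorem rm_as [IsProbabilityMeasure P] {W : ℕ → Ω → ℝ} (hW : ∀ n, MemLp (W n) 2 P)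
    (hind : Pairwise fun i j => W i ⟂ᵢ[P] W j) {v : ℝ} (hv : 0 ≤ v)
    (hV : ∀ ε : ℝ, 0 < ε → ∃ C : ℝ, ∀ N : ℕ, 1 ≤ N → VV P W N ≤ C * (N : ℝ) ^ (v + ε)) :
    ∀ᵐ ω ∂P, ∀ ε : ℝ, 0 < ε → ∃ B : ℝ, 0 ≤ B ∧ ∀ N : ℕ, 1 ≤ N →
      |∑ n ∈ Finset.range N, W n ω - EE P W N| ≤ B * (N : ℝ) ^ (v / 2 + ε) := by
  have hstep : ∀ ε : ℝ, 0 < ε → ∀ᵐ ω ∂P, ∃ B : ℝ, 0 ≤ B ∧ ∀ N : ℕ, 1 ≤ N →
      |∑ n ∈ Finset.range N, W n ω - EE P W N| ≤ B * (N : ℝ) ^ (v / 2 + ε) := by
    intro ε hε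
    obtain ⟨C, hC⟩ := hV (ε / 2) (by positivity)
    set r : ℝ := 2 ^ (v + ε) with hr
    have hr0 : 0 < r := by positivity
    set G : ℕ → Ω → ℝ := fun m ω => r⁻¹ ^ m * QQ m fun n => W n ω - ∫ ω', W n ω' ∂P with hG
    have hG0 : ∀ m ω, 0 ≤ G m ω := fun m ω => mul_nonneg (by positivity) (QQ_nonneg _ _)
    have hGi : ∀ m, Integrable (G m) P := fun m => (QQ_mean m W hW hind).1.const_mul _
    set q : ℝ := 2 ^ (-(ε / 2)) with hq
    have hq0 : 0 < q := by positivity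
    have hq1 : q < 1 := Real.rpow_lt_one_of_one_lt_of_neg (by norm_num) (by linarith)
    have hGb : ∀ m, ∫ ω, G m ω ∂P ≤ |C| * (((m : ℝ) + 1) * q ^ m) := by
      intro m
      simp only [hG]
      rw [integral_const_mul]
      have h1 := (QQ_mean m W hW hind).2
      have h2 := hC (2 ^ m) Nat.one_le_two_pow
      have e1 : (((2 ^ m : ℕ) : ℝ)) ^ (v + ε / 2) = (2 ^ (v + ε / 2)) ^ m := by
        push_cast
        rw [← Real.rpow_natCast, ← Real.rpow_mul (by norm_num), ← Real.rpow_natCast, ← Real.rpow_mul (by norm_num)]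
        congr 1
        ring
      rw [e1] at h2
      have e2 : r⁻¹ * 2 ^ (v + ε / 2) = q := by
        rw [hr, hq, ← Real.rpow_neg (by norm_num), ← Real.rpow_add (by norm_num)]
        congr 1
        ring
      have h3 : VV P W (2 ^ m) ≤ |C| * (2 ^ (v + ε / 2)) ^ m :=
        h2.trans (mul_le_mul_of_nonneg_right (le_abs_self C) (by positivity))
      calc r⁻¹ ^ m * ∫ ω, QQ m (fun n => W n ω - ∫ ω', W n ω' ∂P) ∂P
          ≤ r⁻¹ ^ m * (((m : ℝ) + 1) * (|C| * (2 ^ (v + ε / 2)) ^ m)) :=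
            mul_le_mul_of_nonneg_left (h1.trans (mul_le_mul_of_nonneg_left h3 (by positivity))) (by positivity)
        _ = |C| * (((m : ℝ) + 1) * (r⁻¹ * 2 ^ (v + ε / 2)) ^ m) := by
            rw [mul_pow]
            ring
        _ = |C| * (((m : ℝ) + 1) * q ^ m) := by rw [e2]
    have hsum : Summable fun m : ℕ => |C| * (((m : ℝ) + 1) * q ^ m) := by
      apply Summable.mul_left
      have h1 : Summable fun m : ℕ => (m : ℝ) ^ 1 * q ^ m :=
        summable_pow_mul_geometric_of_norm_lt_one 1 (by rw [Real.norm_of_nonneg hq0.le]; exact hq1)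
      have h2 : Summable fun m : ℕ => q ^ m := summable_geometric_of_lt_one hq0.le hq1
      refine (h1.add h2).congr fun m => ?_
      ring
    have hfin : ∫⁻ ω, ∑' m, ENNReal.ofReal (G m ω) ∂P ≠ ⊤ := by
      rw [lintegral_tsum fun m => (hGi m).aestronglyMeasurable.aemeasurable.ennreal_ofReal]
      have h1 : ∀ m, ∫⁻ ω, ENNReal.ofReal (G m ω) ∂P ≤ ENNReal.ofReal (|C| * (((m : ℝ) + 1) * q ^ m)) := by
        intro m
        rw [← ofReal_integral_eq_lintegral_ofReal (hGi m) (Eventually.of_forall (hG0 m))]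
        exact ENNReal.ofReal_le_ofReal (hGb m)
      exact ne_top_of_le_ne_top hsum.tsum_ofReal_ne_top (ENNReal.tsum_le_tsum h1)
    have hae := ae_lt_top' (μ := P) (f := fun ω => ∑' m, ENNReal.ofReal (G m ω))
      (AEMeasurable.tsum fun m => (hGi m).aestronglyMeasurable.aemeasurable.ennreal_ofReal) hfin
    filter_upwards [hae] with ω hω
    set A : ℝ := (∑' m, ENNReal.ofReal (G m ω)).toReal with hA
    have hA0 : 0 ≤ A := ENNReal.toReal_nonneg
    have hGA : ∀ m, G m ω ≤ A := by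
      intro m
      have h1 : ENNReal.ofReal (G m ω) ≤ ∑' m, ENNReal.ofReal (G m ω) := ENNReal.le_tsum m
      have h2 := ENNReal.toReal_mono hω.ne h1
      rwa [ENNReal.toReal_ofReal (hG0 m ω)] at h2
    -- the dyadic bound
    have hdy : ∀ m n : ℕ, n ≤ 2 ^ m → (∑ i ∈ Finset.range n, (W i ω - ∫ ω', W i ω' ∂P)) ^ 2 ≤
        ((m : ℝ) + 1) * (A * r ^ m) := by
      intro m n hn
      refine (rm m _ n hn).trans (mul_le_mul_of_nonneg_left ?_ (by positivity))
      have h1 := hGA m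
      simp only [hG] at h1
      rw [inv_pow, inv_mul_le_iff₀ (by positivity)] at h1
      linarith
    -- conclusion
    set p : ℝ := (2 : ℝ) ^ (-ε) with hp
    have hp0 : 0 < p := by positivity
    have hp1 : p < 1 := Real.rpow_lt_one_of_one_lt_of_neg (by norm_num) (by linarith)
    set u : ℝ := (2 : ℝ) ^ ε with hu
    have hu0 : 0 < u := by positivity
    have hpu : p * u = 1 := by
      rw [hp, hu, ← Real.rpow_add (by norm_num), neg_add_cancel, Real.rpow_zero]
    obtain ⟨F, hF⟩ : ∃ F : ℝ, ∀ m : ℕ, ((m : ℝ) + 1) ≤ F * u ^ m := by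
      have h0 : Summable fun m : ℕ => (m : ℝ) ^ 1 * p ^ m :=
        summable_pow_mul_geometric_of_norm_lt_one 1 (by rw [Real.norm_of_nonneg hp0.le]; exact hp1)
      have h0' : Summable fun m : ℕ => p ^ m := summable_geometric_of_lt_one hp0.le hp1
      have h1 : Tendsto (fun m : ℕ => (m : ℝ) ^ 1 * p ^ m + p ^ m) atTop (𝓝 0) := (h0.add h0').tendsto_atTop_zero
      obtain ⟨F, hF⟩ := h1.bddAbove_range
      refine ⟨F, fun m => ?_⟩
      have h2 : (m : ℝ) ^ 1 * p ^ m + p ^ m ≤ F := hF (mem_range_self m)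
      have hum : 0 < u ^ m := by positivity
      have h3 : p ^ m * u ^ m = 1 := by rw [← mul_pow, hpu, one_pow]
      have h4 := mul_le_mul_of_nonneg_right h2 hum.le
      calc (m : ℝ) + 1 = ((m : ℝ) ^ 1 * p ^ m + p ^ m) * u ^ m := by
            rw [pow_one]
            linear_combination (-((m : ℝ) + 1)) * h3
        _ ≤ F * u ^ m := h4
    have hF0 : 0 ≤ F := by
      have h1 := hF 0
      rw [pow_zero, mul_one, Nat.cast_zero, zero_add] at h1
      linarith
    refine ⟨Real.sqrt (A * F) * 2 ^ (v / 2 + ε), by positivity, fun N hN => ?_⟩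
    -- choose the power of two
    obtain ⟨m, hm1, hm2⟩ : ∃ m : ℕ, N ≤ 2 ^ m ∧ 2 ^ m ≤ 2 * N := by
      refine ⟨Nat.clog 2 N, Nat.le_pow_clog (by norm_num) N, ?_⟩
      rcases Nat.eq_or_lt_of_le hN with h | h
      · rw [← h]
        simp
      · have h1 := Nat.pow_pred_clog_lt_self (b := 2) (by norm_num) h
        have h2 : 0 < Nat.clog 2 N := Nat.clog_pos (by norm_num) h
        have h3 : 2 ^ Nat.clog 2 N = 2 * 2 ^ (Nat.clog 2 N).pred := by
          rw [← pow_succ']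
          congr 1
          rw [← Nat.succ_eq_add_one, Nat.succ_pred_eq_of_pos h2]
        omega
    have hNR : (1 : ℝ) ≤ N := by exact_mod_cast hN
    have h1 := hdy m N hm1
    have e1 : ∑ n ∈ Finset.range N, W n ω - EE P W N = ∑ i ∈ Finset.range N, (W i ω - ∫ ω', W i ω' ∂P) := by
      unfold EE
      rw [Finset.sum_sub_distrib]
    rw [e1]
    have h2 : ((m : ℝ) + 1) * (A * r ^ m) ≤ (Real.sqrt (A * F) * 2 ^ (v / 2 + ε) * (N : ℝ) ^ (v / 2 + ε)) ^ 2 := by
      have h3 : u ^ m * r ^ m ≤ (2 ^ (v / 2 + ε) * (N : ℝ) ^ (v / 2 + ε)) ^ 2 := by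
        have e2 : u ^ m * r ^ m = ((2 : ℝ) ^ m) ^ (v + 2 * ε) := by
          rw [← mul_pow, hr, hu, ← Real.rpow_add (by norm_num), ← Real.rpow_natCast, ← Real.rpow_mul (by norm_num),
            ← Real.rpow_natCast, ← Real.rpow_mul (by norm_num)]
          congr 1
          ring
        have e3 : (2 ^ (v / 2 + ε) * (N : ℝ) ^ (v / 2 + ε)) ^ 2 = (2 * (N : ℝ)) ^ (v + 2 * ε) := by
          rw [← Real.mul_rpow (by norm_num) (by linarith), ← Real.rpow_natCast, ← Real.rpow_mul (by positivity)]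
          congr 1
          push_cast
          ring
        rw [e2, e3]
        refine Real.rpow_le_rpow (by positivity) ?_ (by positivity)
        exact_mod_cast hm2
      calc ((m : ℝ) + 1) * (A * r ^ m) ≤ F * u ^ m * (A * r ^ m) :=
            mul_le_mul_of_nonneg_right (hF m) (by positivity)
        _ = A * F * (u ^ m * r ^ m) := by ring
        _ ≤ A * F * (2 ^ (v / 2 + ε) * (N : ℝ) ^ (v / 2 + ε)) ^ 2 :=
            mul_le_mul_of_nonneg_left h3 (by positivity)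
        _ = (Real.sqrt (A * F)) ^ 2 * (2 ^ (v / 2 + ε) * (N : ℝ) ^ (v / 2 + ε)) ^ 2 := by
            rw [Real.sq_sqrt (by positivity)]
        _ = _ := by ring
    exact abs_le_of_sq_le_sq (h1.trans h2) (by positivity)
  have hall := ae_all_iff.2 fun j : ℕ => hstep (1 / ((j : ℝ) + 1)) (by positivity)
  filter_upwards [hall] with ω hω ε hε
  obtain ⟨j, hj⟩ := exists_nat_one_div_lt hε
  obtain ⟨B, hB0, hB⟩ := hω j
  refine ⟨B, hB0, fun N hN => (hB N hN).trans ?_⟩
  apply mul_le_mul_of_nonneg_left _ hB0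
  exact Real.rpow_le_rpow_of_exponent_le (by exact_mod_cast hN) (by linarith)

end Pool.Agent.Q231.RS
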