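import Pool.Agent.Q231.RS.RM
import Pool.Agent.Q231.RS.LLpow
import Pool.Agent.Q231.RS.LLall

/-!
# Moments of zeta at random points with square-root remainder
-/

set_option autoImplicit false

open MeasureTheory ProbabilityTheory Filter Topology Set

namespace Pool.Agent.Q231.RS

open Pool.Agent.W188.Mom

/-! ### main terms -/

/-- the main term -/
noncomputable def Ph (Q : Polynomial ℝ) (T : ℝ) : ℝ := ∫ t in (0 : ℝ)..T, Q.eval (Real.log (t / (2 * Real.pi)))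

lemma poly_bd (Q : Polynomial ℝ) {s : ℝ} (hs : 0 < s) : ∃ C : ℝ, 0 ≤ C ∧ ∀ x : ℝ, |Q.eval x| ≤ C * Real.exp (s * |x|) := by
  refine ⟨∑ j ∈ Finset.range (Q.natDegree + 1), |Q.coeff j| * (j.factorial / s ^ j), by positivity, fun x => ?_⟩
  rw [Polynomial.eval_eq_sum_range]
  refine (Finset.abs_sum_le_sum_abs _ _).trans ?_
  rw [Finset.sum_mul]
  refine Finset.sum_le_sum fun j _ => ?_
  rw [abs_mul, abs_pow, mul_assoc]
  refine mul_le_mul_of_nonneg_left ?_ (abs_nonneg _)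
  have h1 := Real.pow_div_factorial_le_exp (s * |x|) (by positivity) j
  rw [div_le_iff₀ (by positivity), mul_pow] at h1
  rw [div_mul_eq_mul_div, le_div_iff₀ (by positivity)]
  linarith

lemma main_bd (Q : Polynomial ℝ) {s : ℝ} (hs : 0 < s) : ∃ C : ℝ, 0 ≤ C ∧ ∀ t : ℝ, 0 < t →
    |Q.eval (Real.log (t / (2 * Real.pi)))| ≤ C * (t ^ s + t ^ (-s)) := by
  obtain ⟨C, hC, h⟩ := poly_bd Q hs
  have hpi : 1 ≤ 2 * Real.pi := by linarith [Real.pi_gt_three]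
  refine ⟨C * (2 * Real.pi) ^ s, by positivity, fun t ht => ?_⟩
  refine (h _).trans ?_
  rw [mul_assoc]
  refine mul_le_mul_of_nonneg_left ?_ hC
  have hx : 0 < t / (2 * Real.pi) := by positivity
  have e1 : Real.exp (s * Real.log (t / (2 * Real.pi))) = (t / (2 * Real.pi)) ^ s := by
    rw [Real.rpow_def_of_pos hx, mul_comm]
  have e2 : Real.exp (s * -Real.log (t / (2 * Real.pi))) = (t / (2 * Real.pi)) ^ (-s) := by
    rw [Real.rpow_def_of_pos hx]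
    congr 1
    ring
  have h1 : (t / (2 * Real.pi)) ^ s ≤ (2 * Real.pi) ^ s * t ^ s := by
    rw [← Real.mul_rpow (by linarith) ht.le]
    refine Real.rpow_le_rpow hx.le ?_ hs.le
    rw [div_le_iff₀ (by linarith)]
    have h5 : 1 ≤ 2 * Real.pi * (2 * Real.pi) := by nlinarith
    nlinarith
  have h2 : (t / (2 * Real.pi)) ^ (-s) = (2 * Real.pi) ^ s * t ^ (-s) := by
    rw [Real.rpow_neg hx.le, Real.div_rpow ht.le (by linarith), inv_div, Real.rpow_neg ht.le, div_eq_mul_inv]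
  have h3 : 0 ≤ (2 * Real.pi) ^ s * t ^ s := by positivity
  have h4 : 0 ≤ (2 * Real.pi) ^ s * t ^ (-s) := by positivity
  rcases abs_choice (Real.log (t / (2 * Real.pi))) with ha | ha
  · rw [ha, e1]
    linarith
  · rw [ha, e2, h2]
    linarith

lemma main_int (Q : Polynomial ℝ) {a b : ℝ} (ha : 0 ≤ a) (hb : 0 ≤ b) :
    IntervalIntegrable (fun t => Q.eval (Real.log (t / (2 * Real.pi)))) volume a b := by
  obtain ⟨C, hC, h⟩ := main_bd Q (s := 1 / 2) (by norm_num)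
  have hg : IntervalIntegrable (fun t : ℝ => C * (t ^ (1 / 2 : ℝ) + t ^ (-(1 / 2) : ℝ))) volume a b :=
    ((intervalIntegral.intervalIntegrable_rpow' (by norm_num)).add
      (intervalIntegral.intervalIntegrable_rpow' (by norm_num))).const_mul C
  refine hg.mono_fun' ?_ ?_
  · have : Measurable fun t : ℝ => Q.eval (Real.log (t / (2 * Real.pi))) :=
      Q.continuous.measurable.comp (Real.measurable_log.comp (by fun_prop))
    exact this.aestronglyMeasurable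
  · refine (ae_restrict_iff' measurableSet_uIoc).2 (Eventually.of_forall fun t ht => ?_)
    have ht0 : 0 < t := lt_of_le_of_lt (le_min ha hb) ht.1
    exact h t ht0

/-- short intervals -/
lemma Ph_diff (Q : Polynomial ℝ) {ε : ℝ} (hε : 0 < ε) : ∃ C : ℝ, 0 ≤ C ∧ ∀ a b : ℝ, 1 ≤ a → a ≤ b → b ≤ a + 1 →
    |Ph Q b - Ph Q a| ≤ C * a ^ ε := by
  obtain ⟨C, hC, h⟩ := main_bd Q hε
  refine ⟨C * (2 ^ ε + 1), by positivity, fun a b ha hab hba => ?_⟩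
  have ha0 : 0 < a := by linarith
  have e1 : Ph Q b - Ph Q a = ∫ t in a..b, Q.eval (Real.log (t / (2 * Real.pi))) := by
    unfold Ph
    rw [intervalIntegral.integral_interval_sub_left (main_int Q le_rfl (by linarith)) (main_int Q le_rfl ha0.le)]
  have hp : 1 ≤ a ^ ε := Real.one_le_rpow ha hε.le
  have hb : ∀ t ∈ Set.uIoc a b, ‖Q.eval (Real.log (t / (2 * Real.pi)))‖ ≤ C * (2 ^ ε + 1) * a ^ ε := by
    intro t ht
    rw [uIoc_of_le hab] at ht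
    have ht0 : 0 < t := by linarith [ht.1]
    have h1 : t ^ ε ≤ 2 ^ ε * a ^ ε := by
      rw [← Real.mul_rpow (by norm_num) ha0.le]
      exact Real.rpow_le_rpow ht0.le (by linarith [ht.2]) hε.le
    have h2 : t ^ (-ε) ≤ 1 := Real.rpow_le_one_of_one_le_of_nonpos (by linarith [ht.1]) (by linarith)
    calc ‖Q.eval (Real.log (t / (2 * Real.pi)))‖ ≤ C * (t ^ ε + t ^ (-ε)) := h t ht0
      _ ≤ C * (2 ^ ε * a ^ ε + a ^ ε) := mul_le_mul_of_nonneg_left (by linarith) hC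
      _ = _ := by ring
  rw [e1]
  refine (intervalIntegral.norm_integral_le_of_norm_le_const hb).trans ?_
  rw [abs_of_nonneg (by linarith : 0 ≤ b - a)]
  have : 0 ≤ C * (2 ^ ε + 1) * a ^ ε := by positivity
  nlinarith

/-- upper bound for the main term -/
lemma Ph_le (Q : Polynomial ℝ) {ε : ℝ} (hε : 0 < ε) : ∃ C : ℝ, 0 ≤ C ∧ ∀ T : ℝ, 1 ≤ T → |Ph Q T| ≤ C * T ^ (1 + ε) := by
  obtain ⟨C, hC, h⟩ := main_bd Q hε
  refine ⟨|Ph Q 1| + 2 * C, by positivity, fun T hT => ?_⟩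
  have hT0 : 0 < T := by linarith
  have e1 : Ph Q T = Ph Q 1 + ∫ t in (1 : ℝ)..T, Q.eval (Real.log (t / (2 * Real.pi))) := by
    unfold Ph
    rw [intervalIntegral.integral_add_adjacent_intervals (main_int Q le_rfl (by norm_num)) (main_int Q (by norm_num) hT0.le)]
  have hb : ∀ t ∈ Set.uIoc 1 T, ‖Q.eval (Real.log (t / (2 * Real.pi)))‖ ≤ 2 * C * T ^ ε := by
    intro t ht
    rw [uIoc_of_le hT] at ht
    have ht0 : 0 < t := by linarith [ht.1]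
    have h1 : t ^ ε ≤ T ^ ε := Real.rpow_le_rpow ht0.le ht.2 hε.le
    have h2 : t ^ (-ε) ≤ 1 := Real.rpow_le_one_of_one_le_of_nonpos (by linarith [ht.1]) (by linarith)
    have h3 : 1 ≤ T ^ ε := Real.one_le_rpow hT hε.le
    calc ‖Q.eval (Real.log (t / (2 * Real.pi)))‖ ≤ C * (t ^ ε + t ^ (-ε)) := h t ht0
      _ ≤ C * (T ^ ε + T ^ ε) := mul_le_mul_of_nonneg_left (by linarith) hC
      _ = _ := by ring
  have h1 := intervalIntegral.norm_integral_le_of_norm_le_const hb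
  rw [abs_of_nonneg (by linarith : 0 ≤ T - 1)] at h1
  have hp : 1 ≤ T ^ (1 + ε) := Real.one_le_rpow hT (by linarith)
  have e2 : T ^ (1 + ε) = T * T ^ ε := by rw [Real.rpow_add hT0, Real.rpow_one]
  have h2 : 2 * C * T ^ ε * (T - 1) ≤ 2 * C * T ^ (1 + ε) := by
    rw [e2]
    have : 0 ≤ 2 * C * T ^ ε := by positivity
    nlinarith
  rw [e1]
  refine (abs_add_le _ _).trans ?_
  have h3 : |Ph Q 1| ≤ |Ph Q 1| * T ^ (1 + ε) := le_mul_of_one_le_right (abs_nonneg _) hp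
  rw [Real.norm_eq_abs] at h1
  calc |Ph Q 1| + |∫ t in (1 : ℝ)..T, Q.eval (Real.log (t / (2 * Real.pi)))|
      ≤ |Ph Q 1| * T ^ (1 + ε) + 2 * C * T ^ (1 + ε) := by linarith
    _ = _ := by ring

/-! ### the formulas -/

/-- the formula with square-root remainder -/
def SqM (p : ℝ) (Q : Polynomial ℝ) : Prop := ∀ ε : ℝ, 0 < ε → ∃ C : ℝ, ∀ T : ℝ, 1 ≤ T →
  |(∫ t in (0 : ℝ)..T, Z t ^ p) - Ph Q T| ≤ C * T ^ (1 / 2 + ε)

/-- the same at the end points of the strata -/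
def SqE (γ p : ℝ) (Q : Polynomial ℝ) : Prop := ∀ ε : ℝ, 0 < ε → ∃ C : ℝ, ∀ N : ℕ, 1 ≤ N →
  |(∫ t in (0 : ℝ)..(pw γ N), Z t ^ p) - Ph Q (pw γ N)| ≤ C * pw γ N ^ (1 / 2 + ε)

variable {Ω : Type*}

/-- the same for the sums over the sample -/
def SqS (γ p : ℝ) (Q : Polynomial ℝ) (X : ℕ → Ω → ℝ) (ω : Ω) : Prop := ∀ ε : ℝ, 0 < ε → ∃ C : ℝ, ∀ N : ℕ, 1 ≤ N →
  |(∑ n ∈ Finset.range N, (pw γ (n + 1) - pw γ n) * Z (X n ω) ^ p) - Ph Q (pw γ N)| ≤ C * pw γ N ^ (1 / 2 + ε)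

lemma pw_ge {γ : ℝ} (hγ : 0 < γ) {N : ℕ} (hN : 1 ≤ N) : 1 ≤ pw γ N :=
  Real.one_le_rpow (by exact_mod_cast hN) hγ.le

lemma pw_gap1 {γ : ℝ} (hγ : 0 < γ) (hγ1 : γ ≤ 1) (n : ℕ) : pw γ (n + 1) ≤ pw γ n + 1 := by
  have h1 := pw_gap hγ n
  rw [max_eq_left hγ1, one_mul] at h1
  have h2 : ((n : ℝ) + 1) ^ (γ - 1) ≤ 1 := Real.rpow_le_one_of_one_le_of_nonpos (by
    have : (0 : ℝ) ≤ n := Nat.cast_nonneg n
    linarith) (by linarith)
  linarith

/-- all `T` and the end points -/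
lemma sqM_iff {γ p : ℝ} (hγ : 0 < γ) (hγ1 : γ ≤ 1) (hp : 0 < p) (Q : Polynomial ℝ) : SqM p Q ↔ SqE γ p Q := by
  constructor
  · intro h ε hε
    obtain ⟨C, hC⟩ := h ε hε
    exact ⟨C, fun N hN => hC _ (pw_ge hγ hN)⟩
  · intro h ε hε
    obtain ⟨C, hC⟩ := h ε hε
    obtain ⟨D, hD, hd⟩ := Ph_diff Q hε
    refine ⟨|C| * 2 ^ (1 / 2 + ε) + D, fun T hT => ?_⟩
    have hT0 : 0 < T := by linarith
    set N : ℕ := ⌊T ^ (1 / γ)⌋₊ with hN
    have e1 : (T ^ (1 / γ)) ^ γ = T := by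
      rw [← Real.rpow_mul hT0.le, one_div_mul_cancel hγ.ne', Real.rpow_one]
    have h0 : 1 ≤ T ^ (1 / γ) := Real.one_le_rpow hT (by positivity)
    have hN1 : 1 ≤ N := Nat.le_floor (by exact_mod_cast h0)
    have ha : pw γ N ≤ T := by
      calc pw γ N ≤ (T ^ (1 / γ)) ^ γ :=
            Real.rpow_le_rpow (Nat.cast_nonneg _) (Nat.floor_le (by linarith)) hγ.le
        _ = T := e1
    have hb : T ≤ pw γ (N + 1) := by
      calc T = (T ^ (1 / γ)) ^ γ := e1.symm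
        _ ≤ pw γ (N + 1) := by
            unfold pw
            refine Real.rpow_le_rpow (by linarith) ?_ hγ.le
            push_cast
            exact (Nat.lt_floor_add_one _).le
    have ha1 := pw_ge hγ hN1
    have hgap := pw_gap1 hγ hγ1 N
    have hmono : ∀ a b : ℝ, 0 ≤ a → a ≤ b → ∫ t in (0 : ℝ)..a, Z t ^ p ≤ ∫ t in (0 : ℝ)..b, Z t ^ p :=
      fun a b ha hab => mono_int hp le_rfl ha hab
    have hpow : ∀ x : ℝ, 1 ≤ x → x ≤ T + 1 → x ^ (1 / 2 + ε) ≤ 2 ^ (1 / 2 + ε) * T ^ (1 / 2 + ε) := by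
      intro x hx hxT
      rw [← Real.mul_rpow (by norm_num) hT0.le]
      exact Real.rpow_le_rpow (by linarith) (by linarith) (by positivity)
    have hTε : T ^ ε ≤ T ^ (1 / 2 + ε) := Real.rpow_le_rpow_of_exponent_le hT (by linarith)
    have hK : ∀ x : ℝ, 1 ≤ x → x ≤ T + 1 → C * x ^ (1 / 2 + ε) ≤ |C| * (2 ^ (1 / 2 + ε) * T ^ (1 / 2 + ε)) := by
      intro x hx hxT
      exact (mul_le_mul_of_nonneg_right (le_abs_self C) (by positivity)).trans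
        (mul_le_mul_of_nonneg_left (hpow x hx hxT) (abs_nonneg C))
    have k1 := (hC N hN1).trans (hK _ ha1 (by linarith))
    have k2 := (hC (N + 1) (by omega)).trans (hK _ (ha1.trans (ha.trans hb)) (by linarith))
    have d1 : |Ph Q T - Ph Q (pw γ N)| ≤ D * T ^ ε := by
      refine (hd (pw γ N) T ha1 ha (by linarith)).trans (mul_le_mul_of_nonneg_left ?_ hD)
      exact Real.rpow_le_rpow (by linarith) ha hε.le
    have d2 : |Ph Q (pw γ (N + 1)) - Ph Q T| ≤ D * T ^ ε := hd T (pw γ (N + 1)) hT hb (by linarith)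
    have m1 := hmono _ _ (by linarith) ha
    have m2 := hmono T _ hT0.le hb
    have e2 : (|C| * 2 ^ (1 / 2 + ε) + D) * T ^ (1 / 2 + ε) =
        |C| * (2 ^ (1 / 2 + ε) * T ^ (1 / 2 + ε)) + D * T ^ (1 / 2 + ε) := by ring
    have h5 : D * T ^ ε ≤ D * T ^ (1 / 2 + ε) := mul_le_mul_of_nonneg_left hTε hD
    rw [e2]
    rw [abs_le] at k1 k2 d1 d2 ⊢
    constructor
    · linarith [k1.1, d1.2]
    · linarith [k2.2, d2.2]

variable [MeasurableSpace Ω] {P : Measure Ω} {X : ℕ → Ω → ℝ}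

/-- the variance -/
lemma var_bd {γ p θ : ℝ} (hγ : 0 < γ) (hγ1 : γ ≤ 1) (hp : 2 ≤ p) (hθ : 0 ≤ θ) (hZ : Bd θ)
    (hc : γ * (1 + (2 * p - 4) * θ) ≤ 1) (ε : ℝ) (hε : 0 < ε) : ∃ C : ℝ, ∀ N : ℕ, 1 ≤ N →
    ∑ n ∈ Finset.range N, (pw γ (n + 1) - pw γ n) * ∫ t in (pw γ n)..(pw γ (n + 1)), (Z t ^ p) ^ 2 ≤
      C * (N : ℝ) ^ (γ + ε) := by
  have hp0 : 0 < p := by linarith
  set m : ℝ := 2 * p - 4 with hm
  have hm0 : 0 ≤ m := by rw [hm]; linarith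
  set η : ℝ := ε / (2 * (m + 1)) with hη
  have hη0 : 0 < η := by positivity
  have hηe : (m + 1) * η = ε / 2 := by rw [hη]; field_simp
  obtain ⟨C, hC⟩ := hZ η hη0
  obtain ⟨F, hF, h4⟩ := four_eps (ε / 2) (by positivity)
  set K : ℝ := (|C| * 2 ^ (θ + η)) ^ m with hK
  have hK0 : 0 ≤ K := by positivity
  refine ⟨K * F, fun N hN => ?_⟩
  have hNR : (1 : ℝ) ≤ N := by exact_mod_cast hN
  have hNp : (0 : ℝ) < N := by linarith
  have hterm : ∀ n ∈ Finset.range N, (pw γ (n + 1) - pw γ n) * ∫ t in (pw γ n)..(pw γ (n + 1)), (Z t ^ p) ^ 2 ≤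
      K * (N : ℝ) ^ (ε / 2) * ∫ t in (pw γ n)..(pw γ (n + 1)), Z t ^ (4 : ℝ) := by
    intro n hn
    have hn1 : (1 : ℝ) ≤ (n : ℝ) + 1 := by linarith [Nat.cast_nonneg (α := ℝ) n]
    have hnp : (0 : ℝ) < (n : ℝ) + 1 := by linarith
    have hnN : (n : ℝ) + 1 ≤ N := by exact_mod_cast Finset.mem_range.1 hn
    have hl := pw_mono hγ (Nat.lt_succ_self n)
    have hgap := pw_gap hγ n
    rw [max_eq_left hγ1, one_mul] at hgap
    rw [← intervalIntegral.integral_const_mul, ← intervalIntegral.integral_const_mul]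
    refine intervalIntegral.integral_mono_on hl.le
      (((Zp_cont hp0).pow 2).const_mul _ |>.intervalIntegrable _ _)
      (((Zp_cont (by norm_num)).const_mul _).intervalIntegrable _ _) fun t ht => ?_
    have ht0 : 0 ≤ t := le_trans (Real.rpow_nonneg (Nat.cast_nonneg n) γ) ht.1
    have ht1 : t ≤ ((n : ℝ) + 1) ^ γ := by
      have := ht.2
      unfold pw at this
      push_cast at this
      exact this
    have hZ0 := Z_nonneg t
    have e1 : (Z t ^ p) ^ 2 = Z t ^ m * Z t ^ (4 : ℝ) := by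
      rw [← Real.rpow_natCast, ← Real.rpow_mul hZ0, ← Real.rpow_add_of_nonneg hZ0 hm0 (by norm_num)]
      congr 1
      rw [hm]
      push_cast
      ring
    have h1 : Z t ≤ |C| * 2 ^ (θ + η) * ((n : ℝ) + 1) ^ (γ * (θ + η)) := by
      have h2 : Z t ≤ |C| * (1 + t) ^ (θ + η) :=
        (hC t ht0).trans (mul_le_mul_of_nonneg_right (le_abs_self C) (by positivity))
      have h3 : (1 + t) ^ (θ + η) ≤ 2 ^ (θ + η) * ((n : ℝ) + 1) ^ (γ * (θ + η)) := by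
        have h4 : (1 : ℝ) ≤ ((n : ℝ) + 1) ^ γ := Real.one_le_rpow hn1 hγ.le
        calc (1 + t) ^ (θ + η) ≤ (2 * ((n : ℝ) + 1) ^ γ) ^ (θ + η) :=
              Real.rpow_le_rpow (by linarith) (by linarith) (by positivity)
          _ = _ := by rw [Real.mul_rpow (by norm_num) (by positivity), ← Real.rpow_mul hnp.le]
      calc Z t ≤ |C| * (1 + t) ^ (θ + η) := h2
        _ ≤ |C| * (2 ^ (θ + η) * ((n : ℝ) + 1) ^ (γ * (θ + η))) := mul_le_mul_of_nonneg_left h3 (abs_nonneg C)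
        _ = _ := by ring
    have h2 : Z t ^ m ≤ K * ((n : ℝ) + 1) ^ (γ * (θ + η) * m) := by
      have h3 := Real.rpow_le_rpow hZ0 h1 hm0
      rwa [Real.mul_rpow (by positivity) (by positivity), ← Real.rpow_mul hnp.le] at h3
    have h3 : ((n : ℝ) + 1) ^ (γ - 1) * ((n : ℝ) + 1) ^ (γ * (θ + η) * m) ≤ (N : ℝ) ^ (ε / 2) := by
      rw [← Real.rpow_add hnp]
      have hex : γ - 1 + γ * (θ + η) * m ≤ ε / 2 := by
        have h5 : γ * (η * m) ≤ 1 * (η * m) := mul_le_mul_of_nonneg_right hγ1 (by positivity)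
        have h6 : η * m ≤ ε / 2 := by nlinarith
        have h7 : γ - 1 + γ * (θ + η) * m = (γ * (1 + m * θ) - 1) + γ * (η * m) := by ring
        rw [h7]
        linarith
      calc ((n : ℝ) + 1) ^ (γ - 1 + γ * (θ + η) * m) ≤ ((n : ℝ) + 1) ^ (ε / 2) :=
            Real.rpow_le_rpow_of_exponent_le hn1 hex
        _ ≤ (N : ℝ) ^ (ε / 2) := Real.rpow_le_rpow hnp.le hnN (by positivity)
    have h40 : 0 ≤ Z t ^ (4 : ℝ) := Real.rpow_nonneg hZ0 _
    rw [e1]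
    calc (pw γ (n + 1) - pw γ n) * (Z t ^ m * Z t ^ (4 : ℝ))
        ≤ ((n : ℝ) + 1) ^ (γ - 1) * ((K * ((n : ℝ) + 1) ^ (γ * (θ + η) * m)) * Z t ^ (4 : ℝ)) :=
          mul_le_mul hgap (mul_le_mul_of_nonneg_right h2 h40)
            (mul_nonneg (Real.rpow_nonneg hZ0 m) h40) (by positivity)
      _ = (((n : ℝ) + 1) ^ (γ - 1) * ((n : ℝ) + 1) ^ (γ * (θ + η) * m)) * (K * Z t ^ (4 : ℝ)) := by ring
      _ ≤ (N : ℝ) ^ (ε / 2) * (K * Z t ^ (4 : ℝ)) := mul_le_mul_of_nonneg_right h3 (by positivity)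
      _ = K * (N : ℝ) ^ (ε / 2) * Z t ^ (4 : ℝ) := by ring
  refine (Finset.sum_le_sum hterm).trans ?_
  rw [← Finset.mul_sum, intervalIntegral.sum_integral_adjacent_intervals (μ := volume) (f := fun t => Z t ^ (4 : ℝ))
    (a := pw γ) (n := N) (fun k _ => (Zp_cont (by norm_num)).intervalIntegrable _ _), pw_zero hγ]
  have h5 := h4 (pw γ N) (pw_ge hγ hN)
  have h6 : pw γ N ^ (1 + ε / 2) ≤ (N : ℝ) ^ (γ + ε / 2) := by
    unfold pw
    rw [← Real.rpow_mul hNp.le]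
    refine Real.rpow_le_rpow_of_exponent_le hNR ?_
    have : γ * (ε / 2) ≤ 1 * (ε / 2) := mul_le_mul_of_nonneg_right hγ1 (by positivity)
    linarith
  calc K * (N : ℝ) ^ (ε / 2) * ∫ t in (0 : ℝ)..(pw γ N), Z t ^ (4 : ℝ)
      ≤ K * (N : ℝ) ^ (ε / 2) * (F * (N : ℝ) ^ (γ + ε / 2)) :=
        mul_le_mul_of_nonneg_left (h5.trans (mul_le_mul_of_nonneg_left h6 hF)) (by positivity)
    _ = K * F * ((N : ℝ) ^ (ε / 2) * (N : ℝ) ^ (γ + ε / 2)) := by ring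
    _ = K * F * (N : ℝ) ^ (γ + ε) := by
        rw [← Real.rpow_add hNp]
        congr 2
        ring

/-- **square-root sampling error** -/
theorem sqrt_err [IsProbabilityMeasure P] {γ p θ : ℝ} (hγ : 0 < γ) (hγ1 : γ ≤ 1) (h : SPts (pw γ) P X) (hp : 2 ≤ p)
    (hθ : 0 ≤ θ) (hZ : Bd θ) (hc : γ * (1 + (2 * p - 4) * θ) ≤ 1) :
    ∀ᵐ ω ∂P, ∀ ε : ℝ, 0 < ε → ∃ B : ℝ, 0 ≤ B ∧ ∀ N : ℕ, 1 ≤ N →
      |(∑ n ∈ Finset.range N, (pw γ (n + 1) - pw γ n) * Z (X n ω) ^ p) - ∫ t in (0 : ℝ)..(pw γ N), Z t ^ p| ≤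
        B * pw γ N ^ (1 / 2 + ε) := by
  have hp0 : 0 < p := by linarith
  have hm : ∀ n, Measurable fun x : ℝ => (pw γ (n + 1) - pw γ n) * Z x ^ p := fun n =>
    ((Zp_cont hp0).const_mul _).measurable
  have hE : ∀ N, EE P (WW (pw γ) (fun t => Z t ^ p) X) N = ∫ t in (0 : ℝ)..(pw γ N), Z t ^ p := by
    intro N
    rw [EE_WW h (pw_mono hγ) (Zp_cont hp0), pw_zero hγ]
  have hV : ∀ N, VV P (WW (pw γ) (fun t => Z t ^ p) X) N =
      ∑ n ∈ Finset.range N, (pw γ (n + 1) - pw γ n) * ∫ t in (pw γ n)..(pw γ (n + 1)), (Z t ^ p) ^ 2 := by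
    intro N
    unfold VV
    exact Finset.sum_congr rfl fun n _ => WW_sq h (pw_mono hγ) (Zp_cont hp0) n
  have key := rm_as (P := P) (W := WW (pw γ) (fun t => Z t ^ p) X) (v := γ)
    (fun n => h.memLp (g := fun x => (pw γ (n + 1) - pw γ n) * Z x ^ p) ((Zp_cont hp0).const_mul _) n)
    (fun i j hij => (h.ind hij).comp (hm i) (hm j)) hγ.le (fun ε hε => by
      obtain ⟨C, hC⟩ := var_bd hγ hγ1 hp hθ hZ hc ε hε
      exact ⟨C, fun N hN => by rw [hV]; exact hC N hN⟩)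
  filter_upwards [key] with ω hω ε hε
  obtain ⟨B, hB0, hB⟩ := hω (γ * ε) (by positivity)
  refine ⟨B, hB0, fun N hN => ?_⟩
  have h1 := hB N hN
  rw [hE] at h1
  have e1 : (N : ℝ) ^ (γ / 2 + γ * ε) = pw γ N ^ (1 / 2 + ε) := by
    unfold pw
    rw [← Real.rpow_mul (Nat.cast_nonneg N)]
    congr 1
    ring
  rw [e1] at h1
  exact h1

omit [MeasurableSpace Ω] in
lemma sq_iff_of_err {γ p : ℝ} {ω : Ω} (Q : Polynomial ℝ)
    (h : ∀ ε : ℝ, 0 < ε → ∃ B : ℝ, 0 ≤ B ∧ ∀ N : ℕ, 1 ≤ N →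
      |(∑ n ∈ Finset.range N, (pw γ (n + 1) - pw γ n) * Z (X n ω) ^ p) - ∫ t in (0 : ℝ)..(pw γ N), Z t ^ p| ≤
        B * pw γ N ^ (1 / 2 + ε)) : SqE γ p Q ↔ SqS γ p Q X ω := by
  constructor
  · intro h1 ε hε
    obtain ⟨B, _, hB⟩ := h ε hε
    obtain ⟨C, hC⟩ := h1 ε hε
    refine ⟨B + C, fun N hN => ?_⟩
    have a1 := hB N hN
    have a2 := hC N hN
    have a3 := abs_sub_le (∑ n ∈ Finset.range N, (pw γ (n + 1) - pw γ n) * Z (X n ω) ^ p)
      (∫ t in (0 : ℝ)..(pw γ N), Z t ^ p) (Ph Q (pw γ N))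
    rw [add_mul]
    linarith
  · intro h1 ε hε
    obtain ⟨B, _, hB⟩ := h ε hε
    obtain ⟨C, hC⟩ := h1 ε hε
    refine ⟨B + C, fun N hN => ?_⟩
    have a1 := hB N hN
    have a2 := hC N hN
    rw [abs_sub_comm] at a1
    have a3 := abs_sub_le (∫ t in (0 : ℝ)..(pw γ N), Z t ^ p)
      (∑ n ∈ Finset.range N, (pw γ (n + 1) - pw γ n) * Z (X n ω) ^ p) (Ph Q (pw γ N))
    rw [add_mul]
    linarith

/-- each order -/
theorem sq_each [IsProbabilityMeasure P] {γ p θ : ℝ} (hγ : 0 < γ) (hγ1 : γ ≤ 1) (h : SPts (pw γ) P X) (hp : 2 ≤ p)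
    (hθ : 0 ≤ θ) (hZ : Bd θ) (hc : γ * (1 + (2 * p - 4) * θ) ≤ 1) :
    ∀ᵐ ω ∂P, ∀ Q : Polynomial ℝ, SqM p Q ↔ SqS γ p Q X ω := by
  filter_upwards [sqrt_err hγ hγ1 h hp hθ hZ hc] with ω hω Q
  rw [sqM_iff hγ hγ1 (by linarith)]
  exact sq_iff_of_err Q hω

/-- one point in every unit interval -/
lemma UPts.spts (h : UPts P X) : SPts (pw 1) P X := by
  refine ⟨h.meas, fun n => ?_, h.ind⟩
  unfold pw
  simp only [Real.rpow_one]
  push_cast
  rw [add_sub_cancel_left, ENNReal.ofReal_one, inv_one, one_smul]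
  exact h.law n

lemma mom_of_sqM {p : ℝ} (Q : Polynomial ℝ) (h : SqM p Q) : MomBd p 1 := by
  intro ε hε
  obtain ⟨C, hC⟩ := h ε hε
  obtain ⟨D, hD, hd⟩ := Ph_le Q hε
  refine ⟨|C| + D, fun T hT => ?_⟩
  have h1 := (abs_le.1 (hC T hT)).2
  have h2 := (le_abs_self _).trans (hd T hT)
  have h3 : C * T ^ (1 / 2 + ε) ≤ |C| * T ^ (1 + ε) := by
    have h4 : T ^ (1 / 2 + ε) ≤ T ^ (1 + ε) := Real.rpow_le_rpow_of_exponent_le hT (by linarith)
    calc C * T ^ (1 / 2 + ε) ≤ |C| * T ^ (1 / 2 + ε) := mul_le_mul_of_nonneg_right (le_abs_self C) (by positivity)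
      _ ≤ _ := mul_le_mul_of_nonneg_left h4 (abs_nonneg C)
  rw [add_mul]
  linarith

omit [MeasurableSpace Ω] in
lemma not_sqS {ω : Ω} {κ : ℝ} (hκ : 0 < κ) (hω : ∃ᶠ m : ℕ in atTop, (m : ℝ) ^ κ ≤ Z (X m ω)) {k : ℕ}
    (hk1 : 1 ≤ k) (hk : 1 / κ ≤ k) (Q : Polynomial ℝ) : ¬ SqS 1 (2 * (k : ℝ)) Q X ω := by
  intro h
  obtain ⟨C, hC⟩ := h (1 / 2) (by norm_num)
  obtain ⟨D, hD, hd⟩ := Ph_diff Q (ε := 1) one_pos
  obtain ⟨N₀, hN₀⟩ := exists_nat_gt (3 * |C| + D)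
  obtain ⟨N, hN, hNb, hN1⟩ := (hω.and_eventually ((eventually_ge_atTop N₀).and (eventually_ge_atTop 1))).exists
  have hNR : (1 : ℝ) ≤ N := by exact_mod_cast hN1
  have hk0 : (0 : ℝ) < k := by exact_mod_cast hk1
  have hNb' : (N₀ : ℝ) ≤ N := by exact_mod_cast hNb
  have e0 : ∀ n : ℕ, pw 1 n = n := fun n => by unfold pw; rw [Real.rpow_one]
  have a1 := hC N hN1
  have a2 := hC (N + 1) (by omega)
  rw [Finset.sum_range_succ] at a2
  simp only [e0] at a1 a2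
  push_cast at a1 a2
  have a3 := hd N (N + 1) hNR (by linarith) le_rfl
  rw [Real.rpow_one] at a3
  have e2 : (1 / 2 + 1 / 2 : ℝ) = 1 := by norm_num
  rw [e2, Real.rpow_one] at a1 a2
  rw [abs_le] at a1 a2 a3
  have h6 : (N : ℝ) ^ (2 : ℝ) ≤ Z (X N ω) ^ (2 * (k : ℝ)) := by
    calc (N : ℝ) ^ (2 : ℝ) ≤ (N : ℝ) ^ (κ * (2 * (k : ℝ))) := by
          apply Real.rpow_le_rpow_of_exponent_le hNR
          rw [div_le_iff₀ hκ] at hk
          nlinarith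
      _ = ((N : ℝ) ^ κ) ^ (2 * (k : ℝ)) := Real.rpow_mul (by linarith) _ _
      _ ≤ _ := Real.rpow_le_rpow (by positivity) hN (by positivity)
  have e3 : (N : ℝ) ^ (2 : ℝ) = (N : ℝ) * N := by
    rw [show (2 : ℝ) = ((2 : ℕ) : ℝ) by norm_num, Real.rpow_natCast, sq]
  rw [e3] at h6
  have e4 : ((N : ℝ) + 1 - N) * Z (X N ω) ^ (2 * (k : ℝ)) = Z (X N ω) ^ (2 * (k : ℝ)) := by ring
  rw [e4] at a2
  have hC1 : C * N ≤ |C| * N := mul_le_mul_of_nonneg_right (le_abs_self C) (by linarith)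
  have hC2 : C * (N + 1) ≤ |C| * (2 * N) := by
    calc C * ((N : ℝ) + 1) ≤ |C| * ((N : ℝ) + 1) := mul_le_mul_of_nonneg_right (le_abs_self C) (by linarith)
      _ ≤ |C| * (2 * N) := mul_le_mul_of_nonneg_left (by linarith) (abs_nonneg C)
  have h7 : (N : ℝ) * N ≤ (3 * |C| + D) * N := by
    have := a1.1
    have := a2.2
    have := a3.2
    nlinarith
  have h8 : (N : ℝ) ≤ 3 * |C| + D := le_of_mul_le_mul_right h7 (by linarith)
  linarith

/-- **All orders.** -/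
theorem sq_all [IsProbabilityMeasure P] (h : UPts P X) : ∀ᵐ ω ∂P, ∀ K : Set ℕ, K.Infinite → (∀ k ∈ K, 1 ≤ k) →
    ∀ Q : ℕ → Polynomial ℝ, (∀ k ∈ K, SqM (2 * (k : ℝ)) (Q k)) ↔ ∀ k ∈ K, SqS 1 (2 * (k : ℝ)) (Q k) X ω := by
  by_cases hLH : LH
  · have hBd : Bd 0 := hLH
    have hall : ∀ k : ℕ, 1 ≤ k → ∀ᵐ ω ∂P, ∀ Q : Polynomial ℝ, SqM (2 * (k : ℝ)) Q ↔ SqS 1 (2 * (k : ℝ)) Q X ω := by
      intro k hk1
      have hk1R : (1 : ℝ) ≤ k := by exact_mod_cast hk1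
      exact sq_each one_pos le_rfl h.spts (by linarith) le_rfl hBd (by simp)
    have h2 := ae_all_iff.2 fun k : ℕ => (show ∀ᵐ ω ∂P, 1 ≤ k →
        ∀ Q : Polynomial ℝ, SqM (2 * (k : ℝ)) Q ↔ SqS 1 (2 * (k : ℝ)) Q X ω by
      by_cases hk : 1 ≤ k
      · filter_upwards [hall k hk] with ω hω _
        exact hω
      · exact Eventually.of_forall fun ω hk' => absurd hk' hk)
    filter_upwards [h2] with ω hω K _ hK1 Q
    exact forall₂_congr fun k hk => hω k (hK1 k hk) (Q k)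
  · obtain ⟨κ, hκ, hl⟩ := large_ae h fun hadm => hLH fun ε hε => by
      obtain ⟨C, hC⟩ := hadm ε hε
      refine ⟨C, fun t ht => ?_⟩
      have h1 := hC t
      rwa [abs_of_nonneg ht] at h1
    filter_upwards [hl] with ω hω K hK hK1 Q
    constructor
    · intro hM
      refine absurd ?_ hLH
      intro ε hε
      obtain ⟨k, hk, hk2⟩ := hK.exists_gt ⌈2 / ε⌉₊
      have hk3 : 2 / ε ≤ k := (Nat.le_ceil _).trans (by exact_mod_cast hk2.le)
      exact lh_of_one hε (hK1 k hk) hk3 (mom_of_sqM (Q k) (hM k hk))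
    · intro hS
      exfalso
      obtain ⟨k, hk, hk2⟩ := hK.exists_gt ⌈1 / κ⌉₊
      have hk3 : 1 / κ ≤ k := (Nat.le_ceil _).trans (by exact_mod_cast hk2.le)
      exact not_sqS hκ hω (hK1 k hk) hk3 (Q k) (hS k hk)

end Pool.Agent.Q231.RS
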