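import Pool.Agent.W188.Mom.B3
import Pool.Agent.Q231.RS.Zeta

/-!
# Persistence of large values, uniformly in their size
-/

set_option autoImplicit false

open MeasureTheory Filter Topology Set Real

namespace Pool.Agent.Q231.RS

open Pool.Agent.H983R4.LH Pool.Agent.W188.Mom

/-- the points near `T` at which zeta is at least `T ^ (-e)` times the value at `T` -/
def Near (e T : ℝ) : Set ℝ := {x : ℝ | |x - T| ≤ 1 / 2 ∧ T ^ (-e) * Z T ≤ Z x}

lemma Near_meas (e T : ℝ) : MeasurableSet (Near e T) := by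
  have h1 : MeasurableSet {x : ℝ | |x - T| ≤ 1 / 2} :=
    measurableSet_le (by fun_prop) measurable_const
  have h2 : MeasurableSet {x : ℝ | T ^ (-e) * Z T ≤ Z x} :=
    measurableSet_le measurable_const Z_cont.measurable
  exact h1.inter h2

/-- **large values persist**, uniformly -/
theorem unif {e : ℝ} (he : 0 < e) : ∃ δ V : ℝ, 0 < δ ∧ 100 ≤ V ∧ ∀ T : ℝ, V ≤ T → T ^ (2 * e) < Z T →
    ENNReal.ofReal (2 * δ) < volume (Near (2 * e) T) := by
  have hex : ∀ j : ℕ, ∃ δ T₀ : ℝ, 0 < δ ∧ 8 ≤ T₀ ∧ ∀ T : ℝ, T₀ ≤ T → ∀ h : ℝ, 0 < h → h ≤ 1 →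
      T ^ (((j : ℝ) + 2) * e) ≤ ‖riemannZeta (1 / 2 + T * Complex.I)‖ →
      ENNReal.ofReal (δ * h) < volume (Pool.Agent.H983R4.LH.Ex (((j : ℝ) + 1) * e) T h) := by
    intro j
    obtain ⟨δ, hδ, T₀, h8, h⟩ := Pool.Agent.H983R4.LH.main_local (κ := ((j : ℝ) + 1) * e)
      (μ := ((j : ℝ) + 2) * e) (by positivity) (by nlinarith)
    exact ⟨δ, T₀, hδ, h8, h⟩
  choose δ T₀ hδ h8 hper using hex
  obtain ⟨J, hJ⟩ := exists_nat_gt (2 / e)
  have hne : (Finset.range (J + 1)).Nonempty := ⟨0, by simp⟩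
  obtain ⟨j₀, _, hj₀⟩ := Finset.exists_min_image (Finset.range (J + 1)) δ hne
  set V : ℝ := 100 + ∑ j ∈ Finset.range (J + 1), T₀ j with hV
  have hTsum : ∀ j ∈ Finset.range (J + 1), 0 ≤ T₀ j := fun j _ => by linarith [h8 j]
  have hV1 : 100 ≤ V := by
    have := Finset.sum_nonneg hTsum
    linarith
  refine ⟨δ j₀ / 4, V, by have := hδ j₀; positivity, hV1, fun T hT h => ?_⟩
  have hT100 : 100 ≤ T := hV1.trans hT
  have hT0 : 0 < T := by linarith
  set μ : ℝ := Real.log (Z T) / Real.log T with hμ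
  have hlog : 0 < Real.log T := Real.log_pos (by linarith)
  have hZ0 : 0 < Z T := lt_trans (by positivity) h
  have hZμ : Z T = T ^ μ := by
    rw [Real.rpow_def_of_pos hT0, hμ, mul_div_cancel₀ _ hlog.ne', Real.exp_log hZ0]
  have hμ1 : 2 * e < μ := by
    rw [hZμ] at h
    exact (Real.rpow_lt_rpow_left_iff (by linarith)).1 h
  have hμ2 : μ ≤ 2 := by
    have h1 := Z_le_sq hT100
    rw [hZμ, show T ^ 2 = T ^ (2 : ℝ) by rw [← Real.rpow_natCast]; norm_num] at h1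
    exact (Real.rpow_le_rpow_left_iff (by linarith)).1 h1
  -- the scale `j` with `(j + 2) e ≤ μ < (j + 3) e`
  set j : ℕ := ⌊μ / e - 2⌋₊ with hj
  have hpos : 0 ≤ μ / e - 2 := by
    rw [sub_nonneg, le_div_iff₀ he]
    linarith
  have hj1 : (j : ℝ) ≤ μ / e - 2 := Nat.floor_le hpos
  have hj2 : μ / e - 2 < j + 1 := Nat.lt_floor_add_one _
  have hj3 : ((j : ℝ) + 2) * e ≤ μ := by
    have h1 : (j : ℝ) + 2 ≤ μ / e := by linarith
    rwa [le_div_iff₀ he] at h1
  have hj4 : μ < ((j : ℝ) + 3) * e := by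
    have h1 : μ / e < (j : ℝ) + 3 := by linarith
    rwa [div_lt_iff₀ he] at h1
  have hjJ : j ∈ Finset.range (J + 1) := by
    rw [Finset.mem_range, Nat.lt_succ_iff]
    have h1 : (j : ℝ) ≤ J := by
      have h2 : μ / e ≤ 2 / e := by gcongr
      linarith
    exact_mod_cast h1
  have hTj : T₀ j ≤ T := by
    have h1 := Finset.single_le_sum hTsum hjJ
    linarith
  have h1 := hper j T hTj (1 / 2) (by norm_num) (by norm_num) (by
    have h2 : T ^ (((j : ℝ) + 2) * e) ≤ T ^ μ := Real.rpow_le_rpow_of_exponent_le (by linarith) hj3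
    rw [← hZμ] at h2
    exact h2)
  have h2 : Pool.Agent.H983R4.LH.Ex (((j : ℝ) + 1) * e) T (1 / 2) ⊆ Near (2 * e) T := by
    rintro x ⟨hx1, hx2⟩
    refine ⟨hx1, ?_⟩
    have h3 : T ^ (-(2 * e)) * Z T ≤ T ^ (((j : ℝ) + 1) * e) := by
      rw [hZμ, ← Real.rpow_add hT0]
      exact Real.rpow_le_rpow_of_exponent_le (by linarith) (by linarith)
    exact h3.trans hx2.le
  refine lt_of_le_of_lt ?_ (h1.trans_le (measure_mono h2))
  apply ENNReal.ofReal_le_ofReal
  have := hj₀ j hjJ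
  linarith

end Pool.Agent.Q231.RS
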